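import Mathlib

set_option autoImplicit false

/-! Point-pair invariants on the upper half-plane and their integral operators. -/

namespace Pool.Agent.K4H20.OM

open UpperHalfPlane MeasureTheory Matrix
open scoped MatrixGroups BoundedContinuousFunction

noncomputable section

/-- `GL(2, ℝ)` acts by isometries. -/
theorem dist_gl (g : GL (Fin 2) ℝ) (z w : ℍ) : dist (g • z) (g • w) = dist z w := by
  have key : Real.cosh (dist (g • z) (g • w)) = Real.cosh (dist z w) := by
    rw [cosh_dist, cosh_dist]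
    have hz := denom_ne_zero g z
    have hw := denom_ne_zero g w
    have hd := g.det_ne_zero
    have h1 : dist ((g • z : ℍ) : ℂ) ((g • w : ℍ) : ℂ) =
        |g.det.val| * dist (z : ℂ) w / (‖denom g z‖ * ‖denom g w‖) := by
      rw [coe_smul, coe_smul, Complex.dist_eq, Complex.dist_eq, ← map_sub, norm_σ,
        div_sub_div _ _ hz hw, norm_div, norm_mul]
      congr 1
      have : num g z * denom g w - denom g z * num g w = (g.det.val : ℂ) * ((z : ℂ) - w) := by
        simp only [num, denom, Matrix.GeneralLinearGroup.val_det_apply, Matrix.det_fin_two]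
        push_cast
        ring
      rw [this, norm_mul, Complex.norm_real, Real.norm_eq_abs]
    rw [h1, UpperHalfPlane.im_smul_eq_div_normSq, UpperHalfPlane.im_smul_eq_div_normSq,
      Complex.normSq_eq_norm_sq, Complex.normSq_eq_norm_sq]
    have h2 : ‖denom g z‖ ≠ 0 := norm_ne_zero_iff.2 hz
    have h3 : ‖denom g w‖ ≠ 0 := norm_ne_zero_iff.2 hw
    have h4 : |g.det.val| ≠ 0 := abs_ne_zero.2 hd
    have h5 := z.im_ne_zero
    have h6 := w.im_ne_zero
    field_simp
  exact Real.cosh_strictMonoOn.injOn (Set.mem_Ici.2 dist_nonneg) (Set.mem_Ici.2 dist_nonneg) key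

instance : IsIsometricSMul (GL (Fin 2) ℝ) ℍ :=
  ⟨fun g => Isometry.of_dist_eq fun z w => dist_gl g z w⟩

instance : MeasurableConstSMul (GL (Fin 2) ℝ) ℍ :=
  ⟨fun g => (continuous_const_smul g).measurable⟩

theorem mp_smul (g : GL (Fin 2) ℝ) : MeasurePreserving (fun z : ℍ => g • z) volume volume :=
  measurePreserving_smul g volume

/-- invariance of the integral -/
theorem integral_gl {E : Type*} [NormedAddCommGroup E] [NormedSpace ℝ E] (g : GL (Fin 2) ℝ)
    (h : ℍ → E) : ∫ w : ℍ, h (g • w) = ∫ w : ℍ, h w :=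
  integral_smul_eq_self h

/-- The integral operator with kernel `φ (cosh (dist z w))`. -/
def L (φ : ℝ → ℝ) (f : ℍ → ℂ) (z : ℍ) : ℂ :=
  ∫ w : ℍ, (φ (Real.cosh (dist z w)) : ℂ) * f w

/-- equivariance -/
theorem L_smul (φ : ℝ → ℝ) (f : ℍ → ℂ) (g : GL (Fin 2) ℝ) (z : ℍ) :
    L φ f (g • z) = L φ (fun w => f (g • w)) z := by
  unfold L
  rw [← integral_gl g]
  congr 1
  ext w
  rw [dist_gl]

theorem lt_cosh {x : ℝ} (h0 : 0 ≤ x) : x < Real.cosh x := by
  have h2 := Real.add_one_le_exp x
  have h3 := Real.add_one_le_exp (-x)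
  have h4 := Real.quadratic_le_exp_of_nonneg h0
  rw [Real.cosh_eq]
  have h5 := Real.exp_pos (-x)
  nlinarith [sq_nonneg (x - 1)]

/-- Admissible kernels: smooth functions vanishing for large arguments. -/
structure Ker (φ : ℝ → ℝ) : Prop where
  smooth : ContDiff ℝ (⊤ : ℕ∞) φ
  supp : ∃ R : ℝ, 0 < R ∧ ∀ x, R < x → φ x = 0

theorem Ker.vanish {φ : ℝ → ℝ} {R : ℝ} (hR : ∀ x, R < x → φ x = 0) {t : ℝ} (h : R < |t|) :
    φ (Real.cosh t) = 0 := by
  apply hR
  rw [← Real.cosh_abs]
  exact h.trans (lt_cosh (abs_nonneg t))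

theorem Ker.comp_smooth {φ : ℝ → ℝ} (h : Ker φ) :
    ContDiff ℝ (⊤ : ℕ∞) fun t => φ (Real.cosh t) :=
  h.smooth.comp Real.contDiff_cosh

theorem Ker.comp_supp {φ : ℝ → ℝ} (h : Ker φ) :
    HasCompactSupport fun t => φ (Real.cosh t) := by
  obtain ⟨R, -, hR⟩ := h.supp
  refine HasCompactSupport.of_support_subset_isCompact (isCompact_Icc (a := -R) (b := R)) ?_
  intro t ht
  by_contra hc
  apply ht
  apply Ker.vanish hR
  rw [lt_abs]
  rw [Set.mem_Icc, not_and_or, not_le, not_le] at hc
  rcases hc with hc | hc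
  · right; linarith
  · left; exact hc

theorem Ker.lip {φ : ℝ → ℝ} (h : Ker φ) :
    ∃ K : ℝ, 0 ≤ K ∧ ∀ s t, |φ (Real.cosh s) - φ (Real.cosh t)| ≤ K * |s - t| := by
  obtain ⟨C, hC⟩ := ContDiff.lipschitzWith_of_hasCompactSupport h.comp_supp h.comp_smooth
    (by simp)
  refine ⟨C, C.2, fun s t => ?_⟩
  have := hC.dist_le_mul s t
  rwa [Real.dist_eq, Real.dist_eq] at this

theorem Ker.bdd {φ : ℝ → ℝ} (h : Ker φ) : ∃ M : ℝ, 0 ≤ M ∧ ∀ t, |φ (Real.cosh t)| ≤ M := by
  obtain ⟨C, hC⟩ := h.comp_supp.exists_bound_of_continuous h.comp_smooth.continuous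
  exact ⟨max C 0, le_max_right _ _, fun t => (hC t).trans (le_max_left _ _)⟩

theorem vol_ball (z : ℍ) (r : ℝ) :
    volume (Metric.closedBall z r) = volume (Metric.closedBall I r) := by
  obtain ⟨g, hg⟩ := MulAction.exists_smul_eq (GL (Fin 2) ℝ) z I
  have h := (mp_smul g).measure_preimage (s := Metric.closedBall I r)
    Metric.isClosed_closedBall.measurableSet.nullMeasurableSet
  rw [← h]
  congr 1
  ext w
  simp only [Metric.mem_closedBall, Set.mem_preimage]
  rw [← hg, dist_gl]

theorem vol_ball_lt (z : ℍ) (r : ℝ) : volume (Metric.closedBall z r) < ⊤ :=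
  (isCompact_closedBall z r).measure_lt_top

/-- an integral of a bounded function supported in a ball -/
theorem norm_integral_ball {h : ℍ → ℂ} {z : ℍ} {r C : ℝ}
    (h1 : ∀ w ∈ Metric.closedBall z r, ‖h w‖ ≤ C)
    (h2 : ∀ w, w ∉ Metric.closedBall z r → h w = 0) :
    ‖∫ w : ℍ, h w‖ ≤ C * volume.real (Metric.closedBall I r) := by
  have e : ∫ w : ℍ, h w = ∫ w in Metric.closedBall z r, h w :=
    (setIntegral_eq_integral_of_forall_compl_eq_zero h2).symm
  have e2 : volume.real (Metric.closedBall I r) = volume.real (Metric.closedBall z r) := by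
    rw [Measure.real, Measure.real, vol_ball z r]
  rw [e, e2]
  exact norm_setIntegral_le_of_norm_le_const (vol_ball_lt z r) h1

theorem L_bound {φ : ℝ → ℝ} (hφ : Ker φ) : ∃ M : ℝ, 0 ≤ M ∧ ∀ (f : ℍ → ℂ) (C : ℝ),
    (∀ w, ‖f w‖ ≤ C) → ∀ z, ‖L φ f z‖ ≤ M * C := by
  obtain ⟨M, hM0, hM⟩ := hφ.bdd
  obtain ⟨R, hR0, hR⟩ := hφ.supp
  refine ⟨M * volume.real (Metric.closedBall I R), by positivity, fun f C hf z => ?_⟩
  have h := norm_integral_ball (h := fun w => (φ (Real.cosh (dist z w)) : ℂ) * f w) (z := z)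
    (r := R) (C := M * C) (fun w _ => by
      rw [norm_mul, Complex.norm_real, Real.norm_eq_abs]
      exact mul_le_mul (hM _) (hf w) (norm_nonneg _) hM0) (fun w hw => by
      rw [Metric.mem_closedBall, not_le, dist_comm] at hw
      rw [Ker.vanish hR (lt_of_lt_of_le hw (le_abs_self _))]
      simp)
  calc ‖L φ f z‖ ≤ _ := h
    _ = _ := by ring

theorem integrable_kernel {φ : ℝ → ℝ} (hφ : Ker φ) {f : ℍ → ℂ} (hf : Continuous f) (z : ℍ) :
    Integrable (fun w : ℍ => (φ (Real.cosh (dist z w)) : ℂ) * f w) := by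
  obtain ⟨R, hR0, hR⟩ := hφ.supp
  have h1 : Continuous fun w : ℍ => (φ (Real.cosh (dist z w)) : ℂ) * f w := by
    have := hφ.comp_smooth.continuous
    have h2 : Continuous fun w : ℍ => φ (Real.cosh (dist z w)) :=
      this.comp (continuous_const.dist continuous_id)
    exact (Complex.continuous_ofReal.comp h2).mul hf
  apply h1.integrable_of_hasCompactSupport
  refine HasCompactSupport.of_support_subset_isCompact (isCompact_closedBall z R) ?_
  intro w hw
  by_contra hc
  apply hw
  rw [Metric.mem_closedBall, not_le, dist_comm] at hc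
  change (φ (Real.cosh (dist z w)) : ℂ) * f w = 0
  rw [Ker.vanish hR (lt_of_lt_of_le hc (le_abs_self _))]
  simp

theorem L_lip {φ : ℝ → ℝ} (hφ : Ker φ) : ∃ M : ℝ, 0 ≤ M ∧ ∀ (f : ℍ → ℂ) (C : ℝ),
    Continuous f → (∀ w, ‖f w‖ ≤ C) → ∀ z z', dist z z' ≤ 1 →
      ‖L φ f z - L φ f z'‖ ≤ M * C * dist z z' := by
  obtain ⟨K, hK0, hK⟩ := hφ.lip
  obtain ⟨R, hR0, hR⟩ := hφ.supp
  refine ⟨K * volume.real (Metric.closedBall I (R + 1)), by positivity,
    fun f C hc hf z z' hzz => ?_⟩
  have e : L φ f z - L φ f z' = ∫ w : ℍ, ((φ (Real.cosh (dist z w)) : ℂ) * f w -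
      (φ (Real.cosh (dist z' w)) : ℂ) * f w) :=
    (integral_sub (integrable_kernel hφ hc z) (integrable_kernel hφ hc z')).symm
  rw [e]
  have h := norm_integral_ball (h := fun w => (φ (Real.cosh (dist z w)) : ℂ) * f w -
      (φ (Real.cosh (dist z' w)) : ℂ) * f w) (z := z)
    (r := R + 1) (C := K * dist z z' * C) (fun w _ => by
      rw [← sub_mul, norm_mul, ← Complex.ofReal_sub, Complex.norm_real, Real.norm_eq_abs]
      refine mul_le_mul ((hK _ _).trans ?_) (hf w) (norm_nonneg _) (by positivity)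
      exact mul_le_mul_of_nonneg_left (abs_dist_sub_le _ _ _) hK0) (fun w hw => by
      rw [Metric.mem_closedBall, not_le, dist_comm] at hw
      have h1 : R < dist z w := by linarith
      have h2 : R < dist z' w := by
        have := dist_triangle z z' w
        linarith
      rw [Ker.vanish hR (lt_of_lt_of_le h1 (le_abs_self _)),
        Ker.vanish hR (lt_of_lt_of_le h2 (le_abs_self _))]
      simp)
  calc _ ≤ _ := h
    _ = _ := by ring

theorem L_continuous {φ : ℝ → ℝ} (hφ : Ker φ) {f : ℍ → ℂ} {C : ℝ} (hc : Continuous f)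
    (hf : ∀ w, ‖f w‖ ≤ C) : Continuous (L φ f) := by
  obtain ⟨M, hM0, hM⟩ := L_lip hφ
  have hC : 0 ≤ C := (norm_nonneg _).trans (hf I)
  rw [Metric.continuous_iff]
  intro z ε hε
  refine ⟨min 1 (ε / (M * C + 1)), by positivity, fun z' hz' => ?_⟩
  rw [dist_eq_norm]
  have h1 : dist z' z ≤ 1 := (hz'.trans_le (min_le_left _ _)).le
  have h2 : dist z' z < ε / (M * C + 1) := hz'.trans_le (min_le_right _ _)
  have h3 : 0 < M * C + 1 := by positivity
  rw [lt_div_iff₀ h3] at h2
  have h4 := hM f C hc hf z' z h1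
  have h5 : 0 ≤ dist z' z := dist_nonneg
  nlinarith

/-- The operator on bounded continuous functions. -/
def Lb {φ : ℝ → ℝ} (hφ : Ker φ) : (ℍ →ᵇ ℂ) →L[ℂ] (ℍ →ᵇ ℂ) :=
  LinearMap.mkContinuous
    { toFun := fun f => BoundedContinuousFunction.ofNormedAddCommGroup (L φ f)
        (L_continuous hφ f.continuous (fun w => f.norm_coe_le_norm w))
        ((L_bound hφ).choose * ‖f‖)
        ((L_bound hφ).choose_spec.2 f ‖f‖ (fun w => f.norm_coe_le_norm w))
      map_add' := fun f g => by
        ext z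
        simp only [BoundedContinuousFunction.coe_ofNormedAddCommGroup,
          BoundedContinuousFunction.coe_add, Pi.add_apply]
        unfold L
        rw [← integral_add (integrable_kernel hφ f.continuous z)
          (integrable_kernel hφ g.continuous z)]
        congr 1
        ext w
        simp only [Pi.add_apply]
        ring
      map_smul' := fun c f => by
        ext z
        simp only [BoundedContinuousFunction.coe_ofNormedAddCommGroup,
          BoundedContinuousFunction.coe_smul, RingHom.id_apply, smul_eq_mul]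
        unfold L
        rw [← integral_const_mul]
        congr 1
        ext w
        ring }
    (L_bound hφ).choose
    (fun f => BoundedContinuousFunction.norm_ofNormedAddCommGroup_le _
      (mul_nonneg (L_bound hφ).choose_spec.1 (norm_nonneg _))
      ((L_bound hφ).choose_spec.2 f ‖f‖ (fun w => f.norm_coe_le_norm w)))

@[simp] theorem Lb_apply {φ : ℝ → ℝ} (hφ : Ker φ) (f : ℍ →ᵇ ℂ) (z : ℍ) :
    Lb hφ f z = L φ f z := rfl

end

end Pool.Agent.K4H20.OM
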