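import Pool.Agent.K4H20.OM.A

set_option autoImplicit false

/-! The integral operators commute. -/

namespace Pool.Agent.K4H20.OM

open UpperHalfPlane MeasureTheory Matrix
open scoped MatrixGroups BoundedContinuousFunction

noncomputable section

/-- an isometry exchanging two given points -/
theorem exists_swap (z v : ℍ) : ∃ g : GL (Fin 2) ℝ, g • z = v ∧ g • v = z := by
  set c := z.im + v.im with hc
  set a := z.re * v.im + v.re * z.im with ha
  set b := c * (z.re * v.re - z.im * v.im) - a * (z.re + v.re) with hb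
  have hz := z.im_pos
  have hv := v.im_pos
  have hdet : (!![a, b; c, -a] : Matrix (Fin 2) (Fin 2) ℝ).det =
      z.im * v.im * ((z.re - v.re) ^ 2 + (z.im + v.im) ^ 2) := by
    rw [Matrix.det_fin_two_of, hb, ha, hc]
    ring
  have hpos : 0 < (!![a, b; c, -a] : Matrix (Fin 2) (Fin 2) ℝ).det := by
    rw [hdet]; positivity
  let g : GL (Fin 2) ℝ := Matrix.GeneralLinearGroup.mkOfDetNeZero !![a, b; c, -a] hpos.ne'
  have hg : 0 < g.det.val := hpos
  have key : (a : ℂ) * ((z : ℂ) + v) + b = c * z * v := by
    apply Complex.ext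
    · simp [hb]; ring
    · simp [ha, hc]; ring
  refine ⟨g, ?_, ?_⟩
  · apply UpperHalfPlane.ext
    rw [coe_smul_of_det_pos hg, div_eq_iff (denom_ne_zero g z)]
    simp only [num, denom, g, Matrix.GeneralLinearGroup.mkOfDetNeZero]
    simp
    linear_combination key
  · apply UpperHalfPlane.ext
    rw [coe_smul_of_det_pos hg, div_eq_iff (denom_ne_zero g v)]
    simp only [num, denom, g, Matrix.GeneralLinearGroup.mkOfDetNeZero]
    simp
    linear_combination key

theorem kernel_comm (φ ψ : ℝ → ℝ) (z v : ℍ) :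
    ∫ w : ℍ, (φ (Real.cosh (dist z w)) : ℂ) * (ψ (Real.cosh (dist w v)) : ℂ) =
    ∫ w : ℍ, (ψ (Real.cosh (dist z w)) : ℂ) * (φ (Real.cosh (dist w v)) : ℂ) := by
  obtain ⟨g, h1, h2⟩ := exists_swap z v
  rw [← integral_gl g]
  congr 1
  ext w
  have e1 : dist z (g • w) = dist v w := by
    conv_lhs => rw [← h2]
    exact dist_gl g v w
  have e2 : dist (g • w) v = dist w z := by
    conv_lhs => rw [← h1]
    exact dist_gl g w z
  rw [e1, e2, dist_comm v w, dist_comm w z, mul_comm]

theorem kernel_cont {φ : ℝ → ℝ} (hφ : Ker φ) {X : Type*} [TopologicalSpace X] {a b : X → ℍ}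
    (ha : Continuous a) (hb : Continuous b) :
    Continuous fun x => (φ (Real.cosh (dist (a x) (b x))) : ℂ) :=
  Complex.continuous_ofReal.comp (hφ.comp_smooth.continuous.comp (ha.dist hb))

theorem L_comm {φ ψ : ℝ → ℝ} (hφ : Ker φ) (hψ : Ker ψ) {f : ℍ → ℂ} (hf : Continuous f) (z : ℍ) :
    L φ (L ψ f) z = L ψ (L φ f) z := by
  have main : ∀ {φ ψ : ℝ → ℝ}, Ker φ → Ker ψ → L φ (L ψ f) z =
      ∫ v : ℍ, (∫ w : ℍ, (φ (Real.cosh (dist z w)) : ℂ) * (ψ (Real.cosh (dist w v)) : ℂ)) *
        f v := by
    intro φ ψ hφ hψ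
    unfold L
    have e1 : ∀ w : ℍ, (φ (Real.cosh (dist z w)) : ℂ) *
        ∫ v : ℍ, (ψ (Real.cosh (dist w v)) : ℂ) * f v =
        ∫ v : ℍ, (φ (Real.cosh (dist z w)) : ℂ) * ((ψ (Real.cosh (dist w v)) : ℂ) * f v) :=
      fun w => (integral_const_mul _ _).symm
    simp_rw [e1]
    rw [integral_integral_swap]
    · congr 1
      ext v
      rw [← integral_mul_const]
      congr 1
      ext w
      ring
    · obtain ⟨R, hR0, hR⟩ := hφ.supp
      obtain ⟨S, hS0, hS⟩ := hψ.supp
      have hcont : Continuous (Function.uncurry fun (w v : ℍ) =>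
          (φ (Real.cosh (dist z w)) : ℂ) * ((ψ (Real.cosh (dist w v)) : ℂ) * f v)) :=
        (kernel_cont hφ continuous_const continuous_fst).mul
          ((kernel_cont hψ continuous_fst continuous_snd).mul (hf.comp continuous_snd))
      apply hcont.integrable_of_hasCompactSupport
      refine HasCompactSupport.of_support_subset_isCompact
        ((isCompact_closedBall z R).prod (isCompact_closedBall z (R + S))) ?_
      rintro ⟨w, v⟩ hwv
      by_contra hc
      apply hwv
      change (φ (Real.cosh (dist z w)) : ℂ) * ((ψ (Real.cosh (dist w v)) : ℂ) * f v) = 0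
      by_cases h1 : R < dist z w
      · rw [Ker.vanish hR (lt_of_lt_of_le h1 (le_abs_self _))]
        simp
      · have h2 : S < dist w v := by
          by_contra h3
          apply hc
          rw [Set.mem_prod, Metric.mem_closedBall, Metric.mem_closedBall]
          rw [not_lt] at h1 h3
          refine ⟨by rw [dist_comm]; exact h1, ?_⟩
          have := dist_triangle v w z
          rw [dist_comm v w, dist_comm w z] at this
          change dist v z ≤ R + S
          linarith
        rw [Ker.vanish hS (lt_of_lt_of_le h2 (le_abs_self _))]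
        simp
  rw [main hφ hψ, main hψ hφ]
  congr 1
  ext v
  rw [kernel_comm]

end

end Pool.Agent.K4H20.OM
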