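import Pool.Agent.K4H20.OM.B

set_option autoImplicit false

/-! Compactness of the integral operators on odd automorphic functions. -/

namespace Pool.Agent.K4H20.OM

open UpperHalfPlane MeasureTheory ModularGroup
open scoped MatrixGroups BoundedContinuousFunction Modular

noncomputable section

/-- The odd automorphic functions: invariant under `SL(2, ℤ)` and odd under `z ↦ - conj z`. -/
def OddAut (f : ℍ → ℂ) : Prop :=
  (∀ (γ : SL(2, ℤ)) (z : ℍ), f (γ • z) = f z) ∧ ∀ z : ℍ, f (J • z) = - f z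

theorem L_oddAut {φ : ℝ → ℝ} {f : ℍ → ℂ} (hf : OddAut f) : OddAut (L φ f) := by
  refine ⟨fun γ z => ?_, fun z => ?_⟩
  · rw [sl_moeb, L_smul]
    congr 1
    ext w
    exact hf.1 γ w
  · rw [L_smul]
    unfold L
    rw [← integral_neg]
    congr 1
    ext w
    change (φ (Real.cosh (dist z w)) : ℂ) * f (J • w) = _
    rw [hf.2 w]
    ring

/-- The space of bounded continuous odd automorphic functions. -/
def Bodd : Submodule ℂ (ℍ →ᵇ ℂ) where
  carrier := {f | OddAut f}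
  add_mem' := fun {f g} hf hg => ⟨fun γ z => by
      rw [BoundedContinuousFunction.coe_add, Pi.add_apply, Pi.add_apply, hf.1, hg.1], fun z => by
      rw [BoundedContinuousFunction.coe_add, Pi.add_apply, Pi.add_apply, hf.2, hg.2]; ring⟩
  zero_mem' := ⟨fun _ _ => rfl, fun _ => by simp⟩
  smul_mem' := fun c f hf => ⟨fun γ z => by
      change c • f (γ • z) = c • f z
      rw [hf.1], fun z => by
      change c • f (J • z) = - (c • f z)
      rw [hf.2]; simp⟩

theorem mem_Bodd {f : ℍ →ᵇ ℂ} : f ∈ Bodd ↔ OddAut f := Iff.rfl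

theorem isClosed_Bodd : IsClosed (Bodd : Set (ℍ →ᵇ ℂ)) := by
  have e : (Bodd : Set (ℍ →ᵇ ℂ)) =
      (⋂ (γ : SL(2, ℤ)) (z : ℍ), {f : ℍ →ᵇ ℂ | f (γ • z) = f z}) ∩
      ⋂ z : ℍ, {f : ℍ →ᵇ ℂ | f (J • z) = - f z} := by
    ext f
    simp only [SetLike.mem_coe, mem_Bodd, OddAut, Set.mem_inter_iff, Set.mem_iInter]
    rfl
  rw [e]
  refine IsClosed.inter (isClosed_iInter fun γ => isClosed_iInter fun z => ?_)
    (isClosed_iInter fun z => ?_)
  · exact isClosed_eq (BoundedContinuousFunction.lipschitz_eval_const _).continuous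
      (BoundedContinuousFunction.lipschitz_eval_const _).continuous
  · exact isClosed_eq (BoundedContinuousFunction.lipschitz_eval_const _).continuous
      (BoundedContinuousFunction.lipschitz_eval_const _).continuous.neg

instance : CompleteSpace Bodd := isClosed_Bodd.completeSpace_coe

theorem Lb_mem {φ : ℝ → ℝ} (hφ : Ker φ) {f : ℍ →ᵇ ℂ} (hf : f ∈ Bodd) : Lb hφ f ∈ Bodd :=
  L_oddAut hf

/-- The operator on odd functions. -/
def A {φ : ℝ → ℝ} (hφ : Ker φ) : Bodd →L[ℂ] Bodd :=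
  (Lb hφ).restrict fun _ hf => Lb_mem hφ hf

@[simp] theorem A_apply {φ : ℝ → ℝ} (hφ : Ker φ) (f : Bodd) (z : ℍ) :
    ((A hφ f : Bodd) : ℍ →ᵇ ℂ) z = L φ (f : ℍ →ᵇ ℂ) z := rfl

/-- the point on the imaginary axis with the same height -/
def axis (z : ℍ) : ℍ := ⟨⟨0, z.im⟩, z.im_pos⟩

theorem J_axis (z : ℍ) : J • axis z = axis z := by
  apply UpperHalfPlane.ext
  rw [coe_J_smul]
  apply Complex.ext <;> simp [axis]

theorem dist_axis {z : ℍ} (hz : z ∈ 𝒟) : dist z (axis z) ≤ 1 / (2 * z.im) := by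
  refine (dist_le_dist_coe_div_sqrt _ _).trans ?_
  have h1 : (axis z).im = z.im := rfl
  have h2 : dist (z : ℂ) (axis z) = |z.re| := by
    rw [Complex.dist_eq]
    have : (z : ℂ) - (axis z : ℂ) = (z.re : ℂ) := by
      apply Complex.ext <;> simp [axis]
    rw [this, Complex.norm_real, Real.norm_eq_abs]
  rw [h1, h2, Real.sqrt_mul_self z.im_pos.le]
  have h3 : |z.re| ≤ 1 / 2 := hz.2
  have h4 := z.im_pos
  rw [div_le_div_iff₀ h4 (by positivity)]
  nlinarith

theorem half_le_im {z : ℍ} (hz : z ∈ 𝒟) : 1 / 2 ≤ z.im := by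
  have := three_le_four_mul_im_sq_of_mem_fd hz
  have h4 := z.im_pos
  nlinarith

/-- decay of `L φ f` in the cusp -/
theorem L_decay {φ : ℝ → ℝ} (hφ : Ker φ) : ∃ M : ℝ, 0 ≤ M ∧ ∀ (f : ℍ → ℂ) (C : ℝ),
    Continuous f → (∀ w, ‖f w‖ ≤ C) → OddAut f → ∀ z ∈ 𝒟, ‖L φ f z‖ ≤ M * C / z.im := by
  obtain ⟨M, hM0, hM⟩ := L_lip hφ
  refine ⟨M, hM0, fun f C hc hf ho z hz => ?_⟩
  have hC : 0 ≤ C := (norm_nonneg _).trans (hf I)
  have h1 := half_le_im hz
  have h2 := dist_axis hz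
  have h4 := z.im_pos
  have h3 : dist z (axis z) ≤ 1 := h2.trans (by
    rw [div_le_one (by positivity)]; linarith)
  have h5 := hM f C hc hf z (axis z) h3
  have h6 : L φ f (axis z) = 0 := by
    have := (L_oddAut (φ := φ) ho).2 (axis z)
    rw [J_axis] at this
    exact self_eq_neg.1 this
  rw [h6, sub_zero] at h5
  refine h5.trans ?_
  rw [mul_div_assoc, mul_assoc]
  refine mul_le_mul_of_nonneg_left ?_ hM0
  rw [mul_comm]
  refine (mul_le_mul_of_nonneg_right h2 hC).trans ?_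
  rw [div_mul_eq_mul_div, div_le_div_iff₀ (by positivity) h4]
  nlinarith

theorem norm_le_of_fd {f : ℍ →ᵇ ℂ} (hf : f ∈ Bodd) {C : ℝ} (h : ∀ z ∈ 𝒟, ‖f z‖ ≤ C)
    (hC : 0 ≤ C) : ‖f‖ ≤ C := by
  rw [BoundedContinuousFunction.norm_le hC]
  intro z
  obtain ⟨g, hg⟩ := exists_smul_mem_fd z
  rw [← hf.1 g z]
  exact h _ hg

/-- **Compactness.** -/
theorem A_compact {φ : ℝ → ℝ} (hφ : Ker φ) : IsCompactOperator (A hφ) := by
  obtain ⟨M, hM0, hM⟩ := L_decay hφ
  obtain ⟨M₁, hM₁0, hM₁⟩ := L_lip hφ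
  obtain ⟨M₂, hM₂0, hM₂⟩ := L_bound hφ
  have htb : TotallyBounded ((A hφ : Bodd → Bodd) '' Metric.closedBall 0 1) := by
    refine Metric.totallyBounded_of_finite_discretization fun ε hε => ?_
    -- the compact part
    set Y : ℝ := 4 * M / ε + 1 with hY
    have hY0 : 0 < Y := by positivity
    let K : Set ℍ := truncatedFundamentalDomain Y
    have hK : IsCompact K := isCompact_truncatedFundamentalDomain Y
    have : CompactSpace K := isCompact_iff_compactSpace.1 hK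
    let r : Bodd → (K →ᵇ ℂ) := fun f =>
      BoundedContinuousFunction.compContinuous (f : ℍ →ᵇ ℂ) ⟨Subtype.val, continuous_subtype_val⟩
    have hr : ∀ (f : Bodd) (x : K), r f x = (f : ℍ →ᵇ ℂ) x := fun f x => rfl
    have hcomp : IsCompact (closure (r '' ((A hφ : Bodd → Bodd) '' Metric.closedBall 0 1))) := by
      refine BoundedContinuousFunction.arzela_ascoli (Metric.closedBall (0 : ℂ) M₂)
        (isCompact_closedBall _ _) _ ?_ ?_
      · rintro _ x ⟨_, ⟨f, hf, rfl⟩, rfl⟩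
        rw [hr, A_apply, mem_closedBall_zero_iff]
        have h1 : ‖(f : ℍ →ᵇ ℂ)‖ ≤ 1 := by
          rw [mem_closedBall_zero_iff] at hf; exact hf
        have := hM₂ (f : ℍ →ᵇ ℂ) 1 (fun w => ((f : ℍ →ᵇ ℂ).norm_coe_le_norm w).trans h1) x
        simpa using this
      · apply UniformEquicontinuous.equicontinuous
        rw [Metric.uniformEquicontinuous_iff]
        intro δ hδ
        refine ⟨min 1 (δ / (M₁ + 1)), by positivity, ?_⟩
        rintro x y hxy ⟨_, _, ⟨f, hf, rfl⟩, rfl⟩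
        change dist (L φ (f : ℍ →ᵇ ℂ) x) (L φ (f : ℍ →ᵇ ℂ) y) < δ
        have h1 : ‖(f : ℍ →ᵇ ℂ)‖ ≤ 1 := by
          rw [mem_closedBall_zero_iff] at hf; exact hf
        have hxy' : dist (x : ℍ) (y : ℍ) < min 1 (δ / (M₁ + 1)) := hxy
        have h2 := hM₁ (f : ℍ →ᵇ ℂ) 1 (f : ℍ →ᵇ ℂ).continuous
          (fun w => ((f : ℍ →ᵇ ℂ).norm_coe_le_norm w).trans h1) x y
          (hxy'.trans_le (min_le_left _ _)).le
        rw [dist_eq_norm]
        have h3 := hxy'.trans_le (min_le_right _ _)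
        rw [lt_div_iff₀ (by positivity)] at h3
        have h4 : 0 ≤ dist (x : ℍ) (y : ℍ) := dist_nonneg
        nlinarith
    have htb := hcomp.totallyBounded.subset subset_closure
    rw [Metric.totallyBounded_iff] at htb
    obtain ⟨t, ht, hcov⟩ := htb (ε / 4) (by positivity)
    have hpick : ∀ f : ((A hφ : Bodd → Bodd) '' Metric.closedBall 0 1),
        ∃ y : t, dist (r f) (y : K →ᵇ ℂ) < ε / 4 := by
      intro f
      have := hcov ⟨f, f.2, rfl⟩
      simp only [Set.mem_iUnion, Metric.mem_ball] at this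
      obtain ⟨y, hy, h⟩ := this
      exact ⟨⟨y, hy⟩, h⟩
    choose F hF using hpick
    refine ⟨t, ht.fintype, F, fun f g hfg => ?_⟩
    have h1 : dist (r f) (r g) < ε / 2 := by
      have h2 := hF f
      have h3 := hF g
      rw [← hfg, dist_comm] at h3
      have := dist_triangle (r f) (F f : K →ᵇ ℂ) (r g)
      linarith
    have key : ‖((f : Bodd) : ℍ →ᵇ ℂ) - ((g : Bodd) : ℍ →ᵇ ℂ)‖ ≤ ε / 2 := by
      refine norm_le_of_fd (Bodd.sub_mem (f : Bodd).2 (g : Bodd).2) (fun z hz => ?_)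
        (by positivity)
      by_cases hzY : z.im ≤ Y
      · have h2 : dist (r f ⟨z, hz, hzY⟩) (r g ⟨z, hz, hzY⟩) ≤ dist (r f) (r g) :=
          BoundedContinuousFunction.dist_coe_le_dist _
        rw [hr, hr, dist_eq_norm] at h2
        exact h2.trans h1.le
      · have hb : ∀ f : ((A hφ : Bodd → Bodd) '' Metric.closedBall 0 1),
            ‖((f : Bodd) : ℍ →ᵇ ℂ) z‖ ≤ ε / 4 := by
          rintro ⟨_, f, hf, rfl⟩
          have h1 : ‖(f : ℍ →ᵇ ℂ)‖ ≤ 1 := by
            rw [mem_closedBall_zero_iff] at hf; exact hf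
          have h2 := hM (f : ℍ →ᵇ ℂ) 1 (f : ℍ →ᵇ ℂ).continuous
            (fun w => ((f : ℍ →ᵇ ℂ).norm_coe_le_norm w).trans h1) f.2 z hz
          change ‖L φ (f : ℍ →ᵇ ℂ) z‖ ≤ ε / 4
          refine h2.trans ?_
          rw [not_le] at hzY
          rw [div_le_iff₀ z.im_pos]
          have h3 : 4 * M / ε < z.im := by linarith
          rw [div_lt_iff₀ hε] at h3
          linarith
        change ‖((f : Bodd) : ℍ →ᵇ ℂ) z - ((g : Bodd) : ℍ →ᵇ ℂ) z‖ ≤ ε / 2
        have h2 := norm_sub_le (((f : Bodd) : ℍ →ᵇ ℂ) z) (((g : Bodd) : ℍ →ᵇ ℂ) z)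
        have h3 := hb f
        have h4 := hb g
        linarith
    have e : dist (f : Bodd) (g : Bodd) = ‖((f : Bodd) : ℍ →ᵇ ℂ) - ((g : Bodd) : ℍ →ᵇ ℂ)‖ := by
      rw [dist_eq_norm]; rfl
    rw [e]
    linarith
  refine (isCompactOperator_iff_isCompact_closure_image_closedBall (A hφ).toLinearMap one_pos).2 ?_
  exact htb.closure.isCompact_of_isClosed isClosed_closure

end

end Pool.Agent.K4H20.OM
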