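import Pool.Agent.K4H20.OM.C

set_option autoImplicit false

/-! The fundamental domain of the modular group, its volume, and its boundary. -/

namespace Pool.Agent.K4H20.OM

open UpperHalfPlane MeasureTheory ModularGroup
open scoped MatrixGroups BoundedContinuousFunction Modular ENNReal Pointwise

noncomputable section

theorem vol_complex_re (c : ℝ) : volume {z : ℂ | z.re = c} = 0 := by
  have h := Complex.volume_preserving_equiv_real_prod.measure_preimage
    (s := {c} ×ˢ Set.univ) ((measurableSet_singleton c).prod MeasurableSet.univ).nullMeasurableSet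
  have e : Complex.measurableEquivRealProd ⁻¹' ({c} ×ˢ Set.univ) = {z : ℂ | z.re = c} := by
    ext z
    simp [Complex.measurableEquivRealProd]
  rw [e] at h
  rw [h, Measure.volume_eq_prod, Measure.prod_prod]
  simp

theorem volume_boundary : volume (𝒟 \ 𝒟ᵒ : Set ℍ) = 0 := by
  rw [volume_eq_lintegral]
  apply setLIntegral_measure_zero
  have hsub : ((↑) '' (𝒟 \ 𝒟ᵒ : Set ℍ) : Set ℂ) ⊆
      Metric.sphere (0 : ℂ) 1 ∪ ({z : ℂ | z.re = 1 / 2} ∪ {z : ℂ | z.re = -(1 / 2)}) := by
    rintro _ ⟨z, ⟨hz, hz'⟩, rfl⟩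
    by_contra hc
    simp only [Set.mem_union, not_or, Set.mem_ofPred_eq, mem_sphere_zero_iff_norm] at hc
    apply hz'
    refine ⟨lt_of_le_of_ne hz.1 ?_, lt_of_le_of_ne hz.2 ?_⟩
    · intro h
      apply hc.1
      rw [← Complex.sq_norm] at h
      have h0 := norm_nonneg (z : ℂ)
      nlinarith
    · intro h
      rcases abs_eq (by norm_num : (0 : ℝ) ≤ 1 / 2) |>.1 h with h1 | h1
      · exact hc.2.1 h1
      · exact hc.2.2 h1
  refine measure_mono_null hsub ?_
  rw [measure_union_null_iff, measure_union_null_iff]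
  exact ⟨Measure.addHaar_sphere _ _ _, vol_complex_re _, vol_complex_re _⟩

theorem volume_fd_lt_top : volume (𝒟 : Set ℍ) < ⊤ := by
  rw [volume_eq_lintegral]
  have hsub : ((↑) '' (𝒟 : Set ℍ) : Set ℂ) ⊆
      {z : ℂ | z.re ∈ Set.Icc (-(1 / 2) : ℝ) (1 / 2) ∧ z.im ∈ Set.Ici (1 / 2 : ℝ)} := by
    rintro _ ⟨z, hz, rfl⟩
    exact ⟨abs_le.1 hz.2, half_le_im hz⟩
  refine (lintegral_mono_set hsub).trans_lt ?_
  have hm : MeasurableSet {z : ℂ | z.re ∈ Set.Icc (-(1 / 2) : ℝ) (1 / 2) ∧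
      z.im ∈ Set.Ici (1 / 2 : ℝ)} :=
    (Complex.measurable_re measurableSet_Icc).inter (Complex.measurable_im measurableSet_Ici)
  rw [← lintegral_indicator hm]
  have e : (fun z : ℂ => Set.indicator {z : ℂ | z.re ∈ Set.Icc (-(1 / 2) : ℝ) (1 / 2) ∧
      z.im ∈ Set.Ici (1 / 2 : ℝ)} (fun z : ℂ => (((1 / ‖z.im‖₊) ^ 2 : NNReal) : ℝ≥0∞)) z) =
      fun z : ℂ => (fun p : ℝ × ℝ => (Set.Icc (-(1 / 2) : ℝ) (1 / 2)).indicator (fun _ => (1 : ℝ≥0∞)) p.1 *
        (Set.Ici (1 / 2 : ℝ)).indicator (fun y => (((1 / ‖y‖₊) ^ 2 : NNReal) : ℝ≥0∞)) p.2)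
        (Complex.measurableEquivRealProd z) := by
    ext z
    simp only [Complex.measurableEquivRealProd_apply]
    by_cases h1 : z.re ∈ Set.Icc (-(1 / 2) : ℝ) (1 / 2)
    · by_cases h2 : z.im ∈ Set.Ici (1 / 2 : ℝ)
      · have h3 : z ∈ {z : ℂ | z.re ∈ Set.Icc (-(1 / 2) : ℝ) (1 / 2) ∧
            z.im ∈ Set.Ici (1 / 2 : ℝ)} := ⟨h1, h2⟩
        rw [Set.indicator_of_mem h1, Set.indicator_of_mem h2, Set.indicator_of_mem h3,
          one_mul]
      · rw [Set.indicator_of_notMem h2, Set.indicator_of_notMem (fun h => h2 h.2), mul_zero]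
    · rw [Set.indicator_of_notMem h1, Set.indicator_of_notMem (fun h => h1 h.1), zero_mul]
  have e2 := Complex.volume_preserving_equiv_real_prod.lintegral_comp_emb
    Complex.measurableEquivRealProd.measurableEmbedding
    (fun p : ℝ × ℝ => (Set.Icc (-(1 / 2) : ℝ) (1 / 2)).indicator (fun _ => (1 : ℝ≥0∞)) p.1 *
        (Set.Ici (1 / 2 : ℝ)).indicator (fun y => (((1 / ‖y‖₊) ^ 2 : NNReal) : ℝ≥0∞)) p.2)
  rw [e, e2, Measure.volume_eq_prod,
    lintegral_prod_mul, lintegral_indicator measurableSet_Icc, lintegral_indicator measurableSet_Ici]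
  · refine ENNReal.mul_lt_top ?_ ?_
    · simp
    · have hint : IntegrableOn (fun y : ℝ => y ^ (-2 : ℝ)) (Set.Ici (1 / 2)) := by
        rw [integrableOn_Ici_iff_integrableOn_Ioi]
        exact integrableOn_Ioi_rpow_of_lt (by norm_num) (by norm_num)
      have h := hint.2
      rw [HasFiniteIntegral] at h
      refine lt_of_le_of_lt (le_of_eq ?_) h
      apply setLIntegral_congr_fun measurableSet_Ici
      intro y hy
      have hy0 : (0 : ℝ) < y := by
        have : (1 / 2 : ℝ) ≤ y := hy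
        linarith
      simp only [enorm_eq_nnnorm]
      congr 1
      apply NNReal.coe_injective
      push_cast
      rw [Real.norm_eq_abs, Real.norm_eq_abs, abs_of_pos hy0, Real.rpow_neg hy0.le,
        Real.rpow_two, abs_of_pos (by positivity)]
      simp
  · exact (measurable_const.indicator measurableSet_Icc).aemeasurable
  · refine (Measurable.indicator ?_ measurableSet_Ici).aemeasurable
    fun_prop

/-- The modular group as a group of permutations of the upper half-plane. -/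
abbrev PG : Subgroup (Equiv.Perm ℍ) := (MulAction.toPermHom SL(2, ℤ) ℍ).range

theorem PG_smul (g : PG) (z : ℍ) : g • z = (g : Equiv.Perm ℍ) z := rfl

theorem PG_exists (g : PG) : ∃ γ : SL(2, ℤ), ∀ z : ℍ, g • z = γ • z := by
  obtain ⟨γ, hγ⟩ := g.2
  refine ⟨γ, fun z => ?_⟩
  rw [PG_smul, ← hγ]
  rfl

instance : Countable SL(2, ℤ) := by
  have : Countable (Matrix (Fin 2) (Fin 2) ℤ) := by
    unfold Matrix
    infer_instance
  exact Subtype.countable

instance : Countable PG := by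
  have : Function.Surjective (MulAction.toPermHom SL(2, ℤ) ℍ).rangeRestrict :=
    MonoidHom.rangeRestrict_surjective _
  exact this.countable

theorem PG_mp (g : PG) : MeasurePreserving (fun z : ℍ => g • z) volume volume := by
  obtain ⟨γ, hγ⟩ := PG_exists g
  have : (fun z : ℍ => g • z) = fun z : ℍ => (γ : GL (Fin 2) ℝ) • z := by
    ext z
    rw [hγ, sl_moeb]
  rw [this]
  exact mp_smul _

instance : MeasurableConstSMul PG ℍ := ⟨fun g => (PG_mp g).measurable⟩

instance : SMulInvariantMeasure PG ℍ volume :=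
  ⟨fun g _ hs => (PG_mp g).measure_preimage hs.nullMeasurableSet⟩

theorem PG_disj {g : PG} (hg : g ≠ 1) : (g • (𝒟 : Set ℍ)) ∩ 𝒟 ⊆ 𝒟 \ 𝒟ᵒ := by
  rintro z ⟨⟨w, hw, hwz⟩, hz⟩
  refine ⟨hz, fun hz' => hg ?_⟩
  obtain ⟨γ, hγ⟩ := PG_exists g
  have h1 : γ⁻¹ • z = w := by
    rw [← hwz]
    change γ⁻¹ • (g • w) = w
    rw [hγ, inv_smul_smul]
  have h2 := eq_one_or_neg_one_of_mem_fdo_mem_fd (g := γ⁻¹) hz' (by rw [h1]; exact hw)
  have h3 : ∀ z : ℍ, γ • z = z := by
    intro z
    rcases h2 with h2 | h2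
    · rw [inv_eq_one] at h2; rw [h2, one_smul]
    · have : γ = -1 := by
        rw [inv_eq_iff_eq_inv] at h2
        rw [h2, inv_neg, inv_one]
      rw [this, SL_neg_smul, one_smul]
  apply Subtype.ext
  apply Equiv.ext
  intro z
  rw [← PG_smul, hγ, h3]
  rfl

theorem measurableSet_fd : MeasurableSet (𝒟 : Set ℍ) := isClosed_fd.measurableSet

theorem isFundamentalDomain_fd : IsFundamentalDomain PG (𝒟 : Set ℍ) volume := by
  refine IsFundamentalDomain.mk'' measurableSet_fd.nullMeasurableSet ?_ ?_ ?_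
  · refine Filter.Eventually.of_forall fun z => ?_
    obtain ⟨γ, hγ⟩ := exists_smul_mem_fd z
    exact ⟨⟨MulAction.toPermHom SL(2, ℤ) ℍ γ, γ, rfl⟩, hγ⟩
  · intro g hg
    exact measure_mono_null (PG_disj hg) volume_boundary
  · intro g
    exact (PG_mp g).quasiMeasurePreserving

end

end Pool.Agent.K4H20.OM
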