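import Pool.Agent.K4H20.OM.D1

set_option autoImplicit false

/-! Symmetry of the integral operators, and existence of a non-zero eigenvalue. -/

namespace Pool.Agent.K4H20.OM

open UpperHalfPlane MeasureTheory ModularGroup
open scoped MatrixGroups BoundedContinuousFunction Modular ENNReal Pointwise ComplexConjugate

noncomputable section

instance : MeasurableConstSMul PG (ℍ × ℍ) :=
  ⟨fun g => ((PG_mp g).prod (PG_mp g)).measurable⟩

theorem PG_mp2 (g : PG) : MeasurePreserving (fun p : ℍ × ℍ => g • p) (volume.prod volume)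
    (volume.prod volume) := (PG_mp g).prod (PG_mp g)

instance : SMulInvariantMeasure PG (ℍ × ℍ) (volume.prod volume) :=
  ⟨fun g _ hs => (PG_mp2 g).measure_preimage hs.nullMeasurableSet⟩

theorem fd_left : IsFundamentalDomain PG ((𝒟 : Set ℍ) ×ˢ (Set.univ : Set ℍ))
    (volume.prod volume) := by
  refine IsFundamentalDomain.mk'' (measurableSet_fd.prod MeasurableSet.univ).nullMeasurableSet
    ?_ ?_ (fun g => (PG_mp2 g).quasiMeasurePreserving)
  · refine Filter.Eventually.of_forall fun p => ?_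
    obtain ⟨γ, hγ⟩ := exists_smul_mem_fd p.1
    exact ⟨⟨MulAction.toPermHom SL(2, ℤ) ℍ γ, γ, rfl⟩, hγ, trivial⟩
  · intro g hg
    refine measure_mono_null (t := (𝒟 \ 𝒟ᵒ : Set ℍ) ×ˢ (Set.univ : Set ℍ)) ?_ ?_
    · rintro _ ⟨⟨p, hp, rfl⟩, hq⟩
      exact ⟨PG_disj hg ⟨⟨p.1, hp.1, rfl⟩, hq.1⟩, trivial⟩
    · rw [Measure.prod_prod, volume_boundary, zero_mul]

theorem fd_right : IsFundamentalDomain PG ((Set.univ : Set ℍ) ×ˢ (𝒟 : Set ℍ))
    (volume.prod volume) := by
  refine IsFundamentalDomain.mk'' (MeasurableSet.univ.prod measurableSet_fd).nullMeasurableSet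
    ?_ ?_ (fun g => (PG_mp2 g).quasiMeasurePreserving)
  · refine Filter.Eventually.of_forall fun p => ?_
    obtain ⟨γ, hγ⟩ := exists_smul_mem_fd p.2
    exact ⟨⟨MulAction.toPermHom SL(2, ℤ) ℍ γ, γ, rfl⟩, trivial, hγ⟩
  · intro g hg
    refine measure_mono_null (t := (Set.univ : Set ℍ) ×ˢ (𝒟 \ 𝒟ᵒ : Set ℍ)) ?_ ?_
    · rintro _ ⟨⟨p, hp, rfl⟩, hq⟩
      exact ⟨trivial, PG_disj hg ⟨⟨p.2, hp.2, rfl⟩, hq.2⟩⟩
    · rw [Measure.prod_prod, volume_boundary, mul_zero]

instance : IsFiniteMeasure ((volume : Measure ℍ).restrict 𝒟) :=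
  ⟨by rw [Measure.restrict_apply_univ]; exact volume_fd_lt_top⟩

/-- integrability of the kernel times bounded functions on `𝒟 × ℍ` -/
theorem integrable_left {φ : ℝ → ℝ} (hφ : Ker φ) (f g : ℍ →ᵇ ℂ) :
    Integrable (fun p : ℍ × ℍ => (φ (Real.cosh (dist p.1 p.2)) : ℂ) * f p.2 * conj (g p.1))
      ((volume.restrict 𝒟).prod volume) := by
  obtain ⟨M, hM0, hM⟩ := hφ.bdd
  obtain ⟨R, hR0, hR⟩ := hφ.supp
  have hcont : Continuous fun p : ℍ × ℍ =>
      (φ (Real.cosh (dist p.1 p.2)) : ℂ) * f p.2 * conj (g p.1) :=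
    ((kernel_cont hφ continuous_fst continuous_snd).mul (f.continuous.comp continuous_snd)).mul
      (Complex.continuous_conj.comp (g.continuous.comp continuous_fst))
  rw [integrable_prod_iff hcont.aestronglyMeasurable]
  refine ⟨Filter.Eventually.of_forall fun z => ?_, ?_⟩
  · have h0 : Integrable fun w : ℍ => (φ (Real.cosh (dist z w)) : ℂ) * f w * conj (g z) :=
      (integrable_kernel hφ f.continuous z).mul_const (conj (g z))
    exact h0
  · have hb : ∀ z : ℍ, ‖∫ w : ℍ, ((‖(φ (Real.cosh (dist z w)) : ℂ) * f w * conj (g z)‖ : ℝ) : ℂ)‖ ≤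
        (M * ‖f‖ * ‖g‖) * volume.real (Metric.closedBall I R) := by
      intro z
      refine norm_integral_ball (z := z) (fun w _ => ?_) (fun w hw => ?_)
      · rw [Complex.norm_real, Real.norm_eq_abs, abs_norm, norm_mul, norm_mul, Complex.norm_real,
          Real.norm_eq_abs, RCLike.norm_conj]
        exact mul_le_mul (mul_le_mul (hM _) (f.norm_coe_le_norm _) (norm_nonneg _) hM0)
          (g.norm_coe_le_norm _) (norm_nonneg _) (by positivity)
      · rw [Metric.mem_closedBall, not_le, dist_comm] at hw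
        rw [Ker.vanish hR (lt_of_lt_of_le hw (le_abs_self _))]
        simp
    refine Integrable.mono' (g := fun _ => (M * ‖f‖ * ‖g‖) * volume.real (Metric.closedBall I R))
      (integrable_const _) ?_ (Filter.Eventually.of_forall fun z => ?_)
    · exact hcont.norm.aestronglyMeasurable.integral_prod_right'
    · have := hb z
      rw [integral_complex_ofReal, Complex.norm_real] at this
      exact this

theorem integrable_right {φ : ℝ → ℝ} (hφ : Ker φ) (f g : ℍ →ᵇ ℂ) :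
    Integrable (fun p : ℍ × ℍ => (φ (Real.cosh (dist p.1 p.2)) : ℂ) * f p.2 * conj (g p.1))
      (volume.prod (volume.restrict 𝒟)) := by
  have h := (integrable_left hφ (star g) (star f)).swap
  refine h.congr (Filter.Eventually.of_forall fun p => ?_)
  simp only [Function.comp, Prod.fst_swap, Prod.snd_swap, dist_comm p.2 p.1,
    BoundedContinuousFunction.star_apply, RCLike.star_def, Complex.conj_conj]
  ring

/-- **Symmetry.** -/
theorem L_symm {φ : ℝ → ℝ} (hφ : Ker φ) {f g : ℍ →ᵇ ℂ} (hf : f ∈ Bodd) (hg : g ∈ Bodd) :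
    ∫ z in 𝒟, L φ f z * conj (g z) = ∫ w in 𝒟, f w * conj (L φ g w) := by
  have h1 : ∫ z in 𝒟, L φ f z * conj (g z) = ∫ p in (𝒟 : Set ℍ) ×ˢ (Set.univ : Set ℍ),
      (φ (Real.cosh (dist p.1 p.2)) : ℂ) * f p.2 * conj (g p.1) ∂(volume.prod volume) := by
    rw [← Measure.prod_restrict, Measure.restrict_univ, integral_prod _ (integrable_left hφ f g)]
    congr 1
    ext z
    change L φ f z * conj (g z) =
      ∫ w : ℍ, (φ (Real.cosh (dist z w)) : ℂ) * f w * conj (g z)
    rw [integral_mul_const]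
    rfl
  have h2 : ∫ w in 𝒟, f w * conj (L φ g w) = ∫ p in (Set.univ : Set ℍ) ×ˢ (𝒟 : Set ℍ),
      (φ (Real.cosh (dist p.1 p.2)) : ℂ) * f p.2 * conj (g p.1) ∂(volume.prod volume) := by
    rw [← Measure.prod_restrict, Measure.restrict_univ,
      integral_prod_symm _ (integrable_right hφ f g)]
    congr 1
    ext w
    change f w * conj (∫ z : ℍ, (φ (Real.cosh (dist w z)) : ℂ) * g z) =
      ∫ z : ℍ, (φ (Real.cosh (dist z w)) : ℂ) * f w * conj (g z)
    rw [← integral_conj, ← integral_const_mul]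
    congr 1
    ext z
    rw [map_mul, Complex.conj_ofReal, dist_comm z w]
    ring
  rw [h1, h2]
  refine fd_left.setIntegral_eq fd_right ?_
  intro g' p
  obtain ⟨γ, hγ⟩ := PG_exists g'
  have e1 : (g' • p).1 = γ • p.1 := hγ p.1
  have e2 : (g' • p).2 = γ • p.2 := hγ p.2
  rw [e1, e2, hf.1, hg.1, sl_moeb, sl_moeb, dist_gl]

/-- the `L²` norm on the fundamental domain -/
def T : (ℍ →ᵇ ℂ) →L[ℂ] Lp ℂ 2 ((volume : Measure ℍ).restrict 𝒟) :=
  BoundedContinuousFunction.toLp 2 ((volume : Measure ℍ).restrict 𝒟) ℂ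

theorem T_symm {φ : ℝ → ℝ} (hφ : Ker φ) (f g : Bodd) :
    inner ℂ (T (A hφ f : Bodd)) (T (g : ℍ →ᵇ ℂ)) = inner ℂ (T (f : ℍ →ᵇ ℂ)) (T (A hφ g : Bodd)) := by
  unfold T
  rw [BoundedContinuousFunction.inner_toLp, BoundedContinuousFunction.inner_toLp]
  have := (L_symm hφ g.2 f.2).symm
  simp only [A_apply]
  rw [this]

instance : (volume : Measure ℍ).IsOpenPosMeasure := by
  refine ⟨fun U hU hne h0 => ?_⟩
  have hopen : IsOpen ((↑) '' U : Set ℂ) := isOpenEmbedding_coe.isOpenMap U hU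
  rw [volume_eq_lintegral, lintegral_eq_zero_iff (by fun_prop),
    Filter.EventuallyEq, ae_restrict_iff' hopen.measurableSet] at h0
  have h1 : ∀ᵐ z : ℂ, z ∉ ((↑) '' U : Set ℂ) := by
    filter_upwards [h0] with z hz hzU
    have h2 := hz hzU
    obtain ⟨w, -, rfl⟩ := hzU
    have h3 : w.im ≠ 0 := w.im_ne_zero
    simp at h2
    exact h3 h2
  exact hopen.measure_ne_zero volume (hne.image _) (by simpa using measure_eq_zero_iff_ae_notMem.2 h1)

theorem T_injective {f : ℍ →ᵇ ℂ} (hf : f ∈ Bodd) (h : T f = 0) : f = 0 := by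
  have h1 : ∀ᵐ z ∂((volume : Measure ℍ).restrict 𝒟), f z = 0 := by
    have h2 := BoundedContinuousFunction.coeFn_toLp (E := ℂ) (p := 2)
      ((volume : Measure ℍ).restrict 𝒟) ℂ f
    have h3 : (T f : ℍ → ℂ) =ᵐ[(volume : Measure ℍ).restrict 𝒟] 0 := by
      rw [h]; exact Lp.coeFn_zero _ _ _
    filter_upwards [h2, h3] with z h2 h3
    rw [← h2]
    exact h3
  have hopen : IsOpen (𝒟ᵒ : Set ℍ) := isOpen_fdo
  have h4 : ∀ᵐ z ∂((volume : Measure ℍ).restrict 𝒟ᵒ), f z = 0 :=
    ae_mono (Measure.restrict_mono fdo_subset_fd le_rfl) h1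
  have h5 : Set.EqOn f (fun _ => 0) 𝒟ᵒ :=
    Measure.eqOn_open_of_ae_eq h4 hopen f.continuous.continuousOn continuousOn_const
  have h6 : Set.EqOn f (fun _ => 0) 𝒟 := by
    rw [fd_eq_closure_fdo]
    exact h5.closure f.continuous continuous_const
  ext z
  obtain ⟨γ, hγ⟩ := exists_smul_mem_fd z
  rw [← hf.1 γ z]
  exact h6 hγ

end

end Pool.Agent.K4H20.OM
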