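import Pool.Agent.K4H20.OM.D2

set_option autoImplicit false

/-! Existence of a non-zero eigenvalue. -/

namespace Pool.Agent.K4H20.OM

open UpperHalfPlane MeasureTheory ModularGroup
open scoped MatrixGroups BoundedContinuousFunction Modular ENNReal Pointwise ComplexConjugate

noncomputable section

/-- a log-convex sequence of positive numbers grows at least geometrically -/
theorem logconvex {a : ℕ → ℝ} (h0 : 0 < a 0) (h1 : 0 < a 1) 
    (h : ∀ n, a (n + 1) ^ 2 ≤ a n * a (n + 2)) (n : ℕ) : a 0 * (a 1 / a 0) ^ n ≤ a n := by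
  have key : ∀ n, 0 < a n ∧ a 1 / a 0 * a n ≤ a (n + 1) := by
    intro n
    induction n with
    | zero => exact ⟨h0, by field_simp; simp⟩
    | succ n ih =>
      have hr : 0 < a 1 / a 0 := by positivity
      have h2 : 0 < a (n + 1) := lt_of_lt_of_le (mul_pos hr ih.1) ih.2
      refine ⟨h2, ?_⟩
      have h3 := h n
      have h4 : a n * (a 1 / a 0 * a (n + 1)) ≤ a n * a (n + 2) := by nlinarith [ih.2]
      exact le_of_mul_le_mul_left h4 ih.1
  induction n with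
  | zero => simp
  | succ n ih =>
    have hr : 0 < a 1 / a 0 := by positivity
    calc a 0 * (a 1 / a 0) ^ (n + 1) = a 1 / a 0 * (a 0 * (a 1 / a 0) ^ n) := by ring
      _ ≤ a 1 / a 0 * a n := mul_le_mul_of_nonneg_left ih hr.le
      _ ≤ _ := (key n).2

theorem exists_eigen {φ : ℝ → ℝ} (hφ : Ker φ) {f : Bodd} (hf : A hφ f ≠ 0) :
    ∃ μ : ℂ, μ ≠ 0 ∧ ∃ g : Bodd, g ≠ 0 ∧ A hφ g = μ • g := by
  by_contra hcon
  push Not at hcon
  set S : Bodd →L[ℂ] Bodd := A hφ with hS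
  have hf0 : f ≠ 0 := by
    rintro rfl
    exact hf (map_zero _)
  have : Nontrivial Bodd := ⟨f, 0, hf0⟩
  have hspec : spectralRadius ℂ S = 0 := by
    rw [spectralRadius, ← bot_eq_zero, eq_bot_iff]
    refine iSup₂_le fun μ hμ => ?_
    by_cases h0 : μ = 0
    · simp [h0]
    · exfalso
      have h1 := (IsCompactOperator.hasEigenvalue_iff_mem_spectrum (A_compact hφ) h0).2 hμ
      obtain ⟨g, hg⟩ := h1.exists_hasEigenvector
      exact hcon μ h0 g hg.2 hg.apply_eq_smul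
  have hG := spectrum.pow_nnnorm_pow_one_div_tendsto_nhds_spectralRadius S
  rw [hspec] at hG
  let a : ℕ → ℝ := fun n => ‖T ((S ^ n) f : Bodd)‖
  have hsym : ∀ u v : Bodd, inner ℂ (T (S u : Bodd)) (T (v : ℍ →ᵇ ℂ)) =
      inner ℂ (T (u : ℍ →ᵇ ℂ)) (T (S v : Bodd)) := T_symm hφ
  have hpos : ∀ u : Bodd, u ≠ 0 → 0 < ‖T (u : ℍ →ᵇ ℂ)‖ := by
    intro u hu
    rw [norm_pos_iff]
    intro h
    exact hu (Subtype.ext (T_injective u.2 h))
  have hconv : ∀ n, a (n + 1) ^ 2 ≤ a n * a (n + 2) := by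
    intro n
    have e1 : (S ^ (n + 1)) f = S ((S ^ n) f) := by rw [pow_succ']; rfl
    have e2 : (S ^ (n + 2)) f = S ((S ^ (n + 1)) f) := by rw [pow_succ']; rfl
    have h1 := hsym ((S ^ n) f) ((S ^ (n + 1)) f)
    rw [← e1, ← e2, inner_self_eq_norm_sq_to_K] at h1
    have h2 := norm_inner_le_norm (𝕜 := ℂ) (T ((S ^ n) f : Bodd)) (T ((S ^ (n + 2)) f : Bodd))
    rw [← h1, norm_pow, RCLike.norm_ofReal, abs_norm] at h2
    exact h2
  have hgrow := logconvex (a := a) (hpos f hf0) (by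
    change 0 < ‖T ((S ^ 1) f : Bodd)‖
    rw [pow_one]
    exact hpos _ hf) hconv
  set r : ℝ := a 1 / a 0 with hr
  have ha0 : 0 < a 0 := hpos f hf0
  have ha1 : 0 < a 1 := by
    change 0 < ‖T ((S ^ 1) f : Bodd)‖
    rw [pow_one]
    exact hpos _ hf
  have hr0 : 0 < r := by positivity
  have hbound : ∀ n, a n ≤ ‖T‖ * ‖S ^ n‖ * ‖f‖ := by
    intro n
    have h1 := (T).le_opNorm (((S ^ n) f : Bodd) : ℍ →ᵇ ℂ)
    have h2 := (S ^ n).le_opNorm f
    have h3 : ‖(((S ^ n) f : Bodd) : ℍ →ᵇ ℂ)‖ = ‖(S ^ n) f‖ := rfl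
    rw [h3] at h1
    calc a n ≤ _ := h1
      _ ≤ ‖T‖ * (‖S ^ n‖ * ‖f‖) := mul_le_mul_of_nonneg_left h2 (norm_nonneg _)
      _ = _ := by ring
  set C : ℝ := ‖T‖ * ‖f‖ + 1 with hC
  have hC0 : 0 < C := by positivity
  have hev : ∀ᶠ n : ℕ in Filter.atTop, ‖S ^ n‖ ≤ (r / 2) ^ n := by
    have h1 : ∀ᶠ n : ℕ in Filter.atTop,
        ((‖S ^ n‖₊ : ℝ≥0∞) ^ (1 / n : ℝ)) < ENNReal.ofReal (r / 2) :=
      hG.eventually_lt_const (by simpa using hr0)
    filter_upwards [h1, Filter.eventually_gt_atTop 0] with n h1 hn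
    have hn' : (0 : ℝ) < n := by exact_mod_cast hn
    have h2 := (ENNReal.rpow_lt_rpow h1 hn').le
    rw [← ENNReal.rpow_mul, one_div_mul_cancel hn'.ne', ENNReal.rpow_one,
      ENNReal.rpow_natCast, ← ENNReal.ofReal_pow (by positivity)] at h2
    rw [← ENNReal.ofReal_coe_nnreal, ENNReal.ofReal_le_ofReal_iff (by positivity)] at h2
    exact h2
  have hlim : Filter.Tendsto (fun n : ℕ => C * (1 / 2 : ℝ) ^ n) Filter.atTop (nhds (C * 0)) :=
    (tendsto_pow_atTop_nhds_zero_of_lt_one (by norm_num) (by norm_num)).const_mul C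
  rw [mul_zero] at hlim
  obtain ⟨n, h1, h2⟩ := (hev.and (hlim.eventually_lt_const ha0)).exists
  have h3 := hgrow n
  have h4 := hbound n
  have h5 : ‖T‖ * ‖S ^ n‖ * ‖f‖ ≤ C * (r / 2) ^ n := by
    have h6 : ‖T‖ * ‖S ^ n‖ * ‖f‖ ≤ ‖T‖ * (r / 2) ^ n * ‖f‖ := by gcongr
    have h7 : 0 ≤ (r / 2) ^ n := by positivity
    rw [hC]
    nlinarith
  have h6 : C * (r / 2) ^ n = C * (1 / 2) ^ n * r ^ n := by
    rw [mul_assoc, ← mul_pow]
    congr 2
    ring
  have h7 : 0 < r ^ n := by positivity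
  nlinarith

end

end Pool.Agent.K4H20.OM
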