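import Pool.Agent.K4H20.OM.D3

set_option autoImplicit false

/-! A non-zero odd automorphic function, and a non-zero eigenfunction. -/

namespace Pool.Agent.K4H20.OM

open UpperHalfPlane MeasureTheory ModularGroup
open scoped MatrixGroups BoundedContinuousFunction Modular ENNReal Pointwise ComplexConjugate

noncomputable section

/-- conjugation by `J` on the modular group -/
def conjJ (γ : SL(2, ℤ)) : SL(2, ℤ) :=
  ⟨!![γ.1 0 0, -γ.1 0 1; -γ.1 1 0, γ.1 1 1], by
    have := γ.det_coe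
    rw [Matrix.det_fin_two] at this
    rw [Matrix.det_fin_two_of]
    linarith⟩

theorem J_smul_smul (γ : SL(2, ℤ)) (z : ℍ) : J • (γ • z) = conjJ γ • (J • z) := by
  rw [sl_moeb, sl_moeb, ← mul_smul, ← mul_smul]
  congr 1
  ext i j
  fin_cases i <;> fin_cases j <;> simp [J, conjJ, Matrix.mul_apply, Fin.sum_univ_two]

theorem conjJ_conjJ (γ : SL(2, ℤ)) : conjJ (conjJ γ) = γ := by
  ext i j
  fin_cases i <;> fin_cases j <;> simp [conjJ]

/-- The orbit of a point. -/
def orb (w : ℍ) : Set ℍ := Set.range fun γ : SL(2, ℤ) => γ • w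

theorem orb_nonempty (w : ℍ) : (orb w).Nonempty := ⟨_, 1, rfl⟩

theorem orb_smul (γ : SL(2, ℤ)) (w : ℍ) : (fun z : ℍ => γ • z) '' orb w = orb w := by
  ext z
  constructor
  · rintro ⟨_, ⟨δ, rfl⟩, rfl⟩
    exact ⟨γ * δ, mul_smul _ _ _⟩
  · rintro ⟨δ, rfl⟩
    exact ⟨(γ⁻¹ * δ) • w, ⟨_, rfl⟩, by simp [mul_smul]⟩

theorem orb_J (w : ℍ) : (fun z : ℍ => J • z) '' orb w = orb (J • w) := by
  ext z
  constructor
  · rintro ⟨_, ⟨δ, rfl⟩, rfl⟩
    exact ⟨conjJ δ, (J_smul_smul _ _).symm⟩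
  · rintro ⟨δ, rfl⟩
    exact ⟨conjJ δ • w, ⟨_, rfl⟩, by
      change J • conjJ δ • w = δ • J • w
      rw [J_smul_smul, conjJ_conjJ]⟩

theorem isometry_sl (γ : SL(2, ℤ)) : Isometry fun z : ℍ => γ • z :=
  Isometry.of_dist_eq fun z w => by rw [sl_moeb, sl_moeb, dist_gl]

theorem isometry_J : Isometry fun z : ℍ => J • z :=
  Isometry.of_dist_eq fun _ _ => dist_gl _ _ _

theorem infDist_sl (γ : SL(2, ℤ)) (z w : ℍ) :
    Metric.infDist (γ • z) (orb w) = Metric.infDist z (orb w) := by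
  conv_lhs => rw [← orb_smul γ w]
  exact Metric.infDist_image (isometry_sl γ)

theorem infDist_J (z w : ℍ) :
    Metric.infDist (J • z) (orb (J • w)) = Metric.infDist z (orb w) := by
  rw [← orb_J]
  exact Metric.infDist_image isometry_J

theorem J_J (z : ℍ) : J • J • z = z := by
  rw [← mul_smul, ← sq, J_sq, one_smul]

/-- The seed function. -/
def seed (w : ℍ) : ℍ → ℝ := fun z =>
  min 1 (Metric.infDist z (orb (J • w))) - min 1 (Metric.infDist z (orb w))

theorem seed_cont (w : ℍ) : Continuous (seed w) :=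
  (continuous_const.min (Metric.continuous_infDist_pt _)).sub
    (continuous_const.min (Metric.continuous_infDist_pt _))

theorem seed_sl (w : ℍ) (γ : SL(2, ℤ)) (z : ℍ) : seed w (γ • z) = seed w z := by
  unfold seed
  rw [infDist_sl, infDist_sl]

theorem seed_J (w z : ℍ) : seed w (J • z) = - seed w z := by
  unfold seed
  rw [infDist_J]
  have : Metric.infDist (J • z) (orb w) = Metric.infDist z (orb (J • w)) := by
    conv_lhs => rw [← J_J w]
    exact infDist_J _ _
  rw [this]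
  ring

theorem seed_bdd (w z : ℍ) : |seed w z| ≤ 1 := by
  have h1 : 0 ≤ min 1 (Metric.infDist z (orb (J • w))) := le_min zero_le_one Metric.infDist_nonneg
  have h2 : 0 ≤ min 1 (Metric.infDist z (orb w)) := le_min zero_le_one Metric.infDist_nonneg
  have h3 : min 1 (Metric.infDist z (orb (J • w))) ≤ 1 := min_le_left _ _
  have h4 : min 1 (Metric.infDist z (orb w)) ≤ 1 := min_le_left _ _
  unfold seed
  rw [abs_le]
  constructor <;> linarith

/-- the base point -/
def z₀ : ℍ := ⟨⟨1 / 4, 2⟩, by norm_num⟩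

theorem z₀_mem : z₀ ∈ 𝒟ᵒ := by
  refine ⟨?_, ?_⟩
  · change 1 < Complex.normSq ⟨1 / 4, 2⟩
    rw [Complex.normSq_mk]
    norm_num
  · change |(1 / 4 : ℝ)| < 1 / 2
    rw [abs_of_pos (by norm_num)]
    norm_num

theorem Jz₀_re : (J • z₀).re = -(1 / 4) := by
  have := congrArg Complex.re (coe_J_smul z₀)
  simpa [z₀] using this

theorem Jz₀_im : (J • z₀).im = 2 := by
  have := congrArg Complex.im (coe_J_smul z₀)
  simpa [z₀] using this

theorem Jz₀_mem : J • z₀ ∈ 𝒟ᵒ := by
  refine ⟨?_, ?_⟩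
  · rw [Complex.normSq_apply]
    change 1 < (J • z₀).re * (J • z₀).re + (J • z₀).im * (J • z₀).im
    rw [Jz₀_re, Jz₀_im]
    norm_num
  · rw [Jz₀_re, abs_neg, abs_of_pos (by norm_num)]
    norm_num

theorem seed_pos : 0 < seed z₀ z₀ := by
  have h1 : Metric.infDist z₀ (orb z₀) = 0 :=
    Metric.infDist_zero_of_mem ⟨1, one_smul _ _⟩
  have h2 : 0 < Metric.infDist z₀ (orb (J • z₀)) := by
    rw [← Metric.infDist_pos_iff_notMem_closure (orb_nonempty _)]
    intro hc
    have hU : (𝒟ᵒ \ {J • z₀} : Set ℍ) ∈ nhds z₀ := by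
      refine (isOpen_fdo.sdiff isClosed_singleton).mem_nhds ⟨z₀_mem, ?_⟩
      intro h
      have := congrArg UpperHalfPlane.re (Set.mem_singleton_iff.1 h)
      rw [Jz₀_re] at this
      have h3 : z₀.re = 1 / 4 := rfl
      rw [h3] at this
      norm_num at this
    obtain ⟨z, hz, γ, hγ⟩ := mem_closure_iff_nhds.1 hc _ hU
    have hγ' : γ • J • z₀ = z := hγ
    apply hz.2
    rw [Set.mem_singleton_iff, ← hγ']
    exact (eq_smul_self_of_mem_fdo_mem_fdo Jz₀_mem (by rw [hγ']; exact hz.1)).symm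
  unfold seed
  rw [h1]
  have : 0 < min 1 (Metric.infDist z₀ (orb (J • z₀))) := lt_min one_pos h2
  rw [min_eq_right (zero_le_one' ℝ)]
  linarith

/-- the seed as a bounded continuous function -/
def seedB : ℍ →ᵇ ℂ := BoundedContinuousFunction.ofNormedAddCommGroup (fun z => (seed z₀ z : ℂ))
  (Complex.continuous_ofReal.comp (seed_cont _)) 1 (fun z => by
    rw [Complex.norm_real, Real.norm_eq_abs]
    exact seed_bdd _ _)

theorem seedB_mem : seedB ∈ Bodd := by
  refine ⟨fun γ z => ?_, fun z => ?_⟩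
  · change (seed z₀ (γ • z) : ℂ) = seed z₀ z
    rw [seed_sl]
  · change (seed z₀ (J • z) : ℂ) = - (seed z₀ z : ℂ)
    rw [seed_J]
    push_cast
    ring

theorem exists_ker : ∃ (φ : ℝ → ℝ) (hφ : Ker φ), A hφ ⟨seedB, seedB_mem⟩ ≠ 0 := by
  have hpos := seed_pos
  obtain ⟨r, hr0, hr⟩ := Metric.eventually_nhds_iff.1
    ((seed_cont z₀).continuousAt.eventually_const_lt hpos)
  have hc : 1 < Real.cosh r := by
    rw [Real.one_lt_cosh]
    exact hr0.ne'
  let b : ContDiffBump (1 : ℝ) := ⟨(Real.cosh r - 1) / 2, Real.cosh r - 1, by linarith, by linarith⟩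
  have hzero : ∀ x, Real.cosh r ≤ x → b x = 0 := by
    intro x hx
    apply b.zero_of_le_dist
    rw [Real.dist_eq, abs_of_nonneg (by linarith)]
    change Real.cosh r - 1 ≤ x - 1
    linarith
  have hb : Ker b := ⟨b.contDiff, Real.cosh r, by linarith, fun x hx => hzero x hx.le⟩
  refine ⟨b, hb, fun h => ?_⟩
  have h1 : L b (seedB : ℍ → ℂ) z₀ = 0 := by
    have := congrArg (fun u : Bodd => (u : ℍ →ᵇ ℂ) z₀) h
    exact this
  have h2 : L b (seedB : ℍ → ℂ) z₀ = ((∫ w : ℍ, b (Real.cosh (dist z₀ w)) * seed z₀ w : ℝ) : ℂ) := by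
    rw [← integral_complex_ofReal]
    unfold L
    congr 1
    ext w
    rw [Complex.ofReal_mul]
    rfl
  have hcont : Continuous fun w : ℍ => b (Real.cosh (dist z₀ w)) * seed z₀ w :=
    (hb.comp_smooth.continuous.comp (continuous_const.dist continuous_id)).mul (seed_cont _)
  have h3 : 0 < ∫ w : ℍ, b (Real.cosh (dist z₀ w)) * seed z₀ w := by
    refine hcont.integral_pos_of_hasCompactSupport_nonneg_nonzero ?_ ?_ (x := z₀) ?_
    · refine HasCompactSupport.of_support_subset_isCompact (isCompact_closedBall z₀ r) ?_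
      intro w hw
      by_contra hcc
      apply hw
      rw [Metric.mem_closedBall, not_le, dist_comm] at hcc
      change b (Real.cosh (dist z₀ w)) * seed z₀ w = 0
      rw [hzero, zero_mul]
      rw [Real.cosh_le_cosh, abs_of_pos hr0, abs_of_nonneg dist_nonneg]
      exact hcc.le
    · intro w
      by_cases hw : dist w z₀ < r
      · exact mul_nonneg b.nonneg (hr hw).le
      · have : b (Real.cosh (dist z₀ w)) = 0 := by
          apply hzero
          rw [Real.cosh_le_cosh, abs_of_pos hr0, abs_of_nonneg dist_nonneg, dist_comm]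
          exact not_lt.1 hw
        change 0 ≤ b (Real.cosh (dist z₀ w)) * seed z₀ w
        rw [this, zero_mul]
    · rw [dist_self, Real.cosh_zero]
      have : b 1 = 1 := b.one_of_mem_closedBall (Metric.mem_closedBall_self (by
        change 0 ≤ (Real.cosh r - 1) / 2
        linarith))
      rw [this, one_mul]
      exact hpos.ne'
  rw [h2] at h1
  exact h3.ne' (by exact_mod_cast h1)

theorem exists_eigenfunction : ∃ (φ : ℝ → ℝ) (hφ : Ker φ) (μ : ℂ), μ ≠ 0 ∧
    ∃ g : Bodd, g ≠ 0 ∧ A hφ g = μ • g := by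
  obtain ⟨φ, hφ, h⟩ := exists_ker
  obtain ⟨μ, h0, g, hg⟩ := exists_eigen hφ h
  exact ⟨φ, hφ, μ, h0, g, hg⟩

end

end Pool.Agent.K4H20.OM
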