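import Pool.Agent.K4H20.OM.E

set_option autoImplicit false

/-! Common eigenvectors of commuting families; finite-dimensionality of eigenspaces. -/

namespace Pool.Agent.K4H20.OM

open UpperHalfPlane MeasureTheory ModularGroup Module
open scoped MatrixGroups BoundedContinuousFunction Modular

noncomputable section

theorem exists_common {E ι : Type*} [AddCommGroup E] [Module ℂ E] (F : ι → End ℂ E)
    (hcomm : ∀ i j, Commute (F i) (F j)) (V : Submodule ℂ E) [FiniteDimensional ℂ V]
    (hV : V ≠ ⊥) (hinv : ∀ i, ∀ v ∈ V, F i v ∈ V) :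
    ∃ v ∈ V, v ≠ 0 ∧ ∀ i, ∃ μ : ℂ, F i v = μ • v := by
  classical
  have hex : ∃ n : ℕ, ∃ W : Submodule ℂ E, W ≤ V ∧ W ≠ ⊥ ∧ (∀ i, ∀ v ∈ W, F i v ∈ W) ∧
      finrank ℂ W = n := ⟨_, V, le_rfl, hV, hinv, rfl⟩
  obtain ⟨W, hWV, hW0, hWinv, hWn⟩ := Nat.find_spec hex
  have hmin : ∀ U : Submodule ℂ E, U ≤ W → U ≠ ⊥ → (∀ i, ∀ v ∈ U, F i v ∈ U) → U = W := by
    intro U hU h0 hUinv
    have h1 : Nat.find hex ≤ finrank ℂ U := Nat.find_min' hex ⟨U, hU.trans hWV, h0, hUinv, rfl⟩
    have : FiniteDimensional ℂ W := Submodule.finiteDimensional_of_le hWV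
    exact Submodule.eq_of_le_of_finrank_le hU (by rw [hWn]; exact h1)
  have : FiniteDimensional ℂ W := Submodule.finiteDimensional_of_le hWV
  have : Nontrivial W := Submodule.nontrivial_iff_ne_bot.2 hW0
  have key : ∀ i, ∃ μ : ℂ, ∀ w ∈ W, F i w = μ • w := by
    intro i
    obtain ⟨μ, hμ⟩ := Module.End.exists_eigenvalue ((F i).restrict (hWinv i))
    obtain ⟨w, hw⟩ := hμ.exists_hasEigenvector
    refine ⟨μ, ?_⟩
    have h1 : W ⊓ End.eigenspace (F i) μ = W := by
      apply hmin _ inf_le_left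
      · intro hbot
        have h2 : (w : E) ∈ W ⊓ End.eigenspace (F i) μ := by
          refine ⟨w.2, ?_⟩
          change (w : E) ∈ End.eigenspace (F i) μ
          rw [End.mem_eigenspace_iff]
          exact congrArg Subtype.val hw.apply_eq_smul
        rw [hbot, Submodule.mem_bot] at h2
        exact hw.2 (Subtype.ext h2)
      · rintro j v ⟨h2, h3⟩
        refine ⟨hWinv j v h2, ?_⟩
        have h3' : F i v = μ • v := End.mem_eigenspace_iff.1 h3
        change F j v ∈ End.eigenspace (F i) μ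
        rw [End.mem_eigenspace_iff]
        have h4 := LinearMap.congr_fun (hcomm i j).eq v
        rw [Module.End.mul_apply, Module.End.mul_apply, h3', map_smul] at h4
        exact h4
    intro w hw
    rw [← h1] at hw
    exact End.mem_eigenspace_iff.1 hw.2
  obtain ⟨w, hw⟩ := exists_ne (0 : W)
  refine ⟨w, hWV w.2, fun h => hw (Subtype.ext h), fun i => ?_⟩
  obtain ⟨μ, hμ⟩ := key i
  exact ⟨μ, hμ w w.2⟩

theorem finite_eigenspace {X : Type*} [NormedAddCommGroup X] [NormedSpace ℂ X] [CompleteSpace X]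
    (S : X →L[ℂ] X) (hS : IsCompactOperator S) {μ : ℂ} (hμ : μ ≠ 0) :
    FiniteDimensional ℂ (End.eigenspace (S : End ℂ X) μ) := by
  set V := End.eigenspace (S : End ℂ X) μ with hVdef
  have hmem : ∀ v, v ∈ V ↔ S v = μ • v := fun v => End.mem_eigenspace_iff
  have hclosed : IsClosed (V : Set X) := by
    have : (V : Set X) = {v | S v = μ • v} := by ext v; exact hmem v
    rw [this]
    exact isClosed_eq S.continuous (continuous_const_smul μ)
  have hinv : ∀ v ∈ V, (S : X →ₗ[ℂ] X) v ∈ V := by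
    intro v hv
    have h1 := (hmem v).1 hv
    change S v ∈ V
    rw [h1]
    exact V.smul_mem μ hv
  have h1 : IsCompactOperator ((S : X →ₗ[ℂ] X).restrict hinv) :=
    IsCompactOperator.restrict hS hinv hclosed
  have h2 : IsCompactOperator (id : V → V) := by
    have h3 := h1.smul μ⁻¹
    have h5 : (id : V → V) = μ⁻¹ • ⇑((S : X →ₗ[ℂ] X).restrict hinv) := by
      funext v
      apply Subtype.ext
      have h4 : S v = μ • (v : X) := (hmem v).1 v.2
      change (v : X) = μ⁻¹ • S v
      rw [h4, smul_smul, inv_mul_cancel₀ hμ, one_smul]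
    rw [h5]
    exact h3
  exact FiniteDimensional.of_isCompactOperator_id h2

end

end Pool.Agent.K4H20.OM
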