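import Pool.Agent.K4H20.OM.F1

set_option autoImplicit false

/-! Affine maps and Hecke operators. -/

namespace Pool.Agent.K4H20.OM

open UpperHalfPlane MeasureTheory ModularGroup
open scoped MatrixGroups BoundedContinuousFunction Modular

noncomputable section

/-- affine maps as matrices -/
def af (t x : ℝ) (ht : 0 < t) : GL (Fin 2) ℝ :=
  Matrix.GeneralLinearGroup.mkOfDetNeZero !![t, x; 0, 1] (by simp; exact ht.ne')

/-- affine maps on points -/
def pt (t x : ℝ) (z : ℍ) : ℍ := ofComplex (t * (z : ℂ) + x)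

theorem coe_pt {t : ℝ} (ht : 0 < t) (x : ℝ) (z : ℍ) : (pt t x z : ℂ) = t * (z : ℂ) + x := by
  have : 0 < ((t : ℂ) * (z : ℂ) + x).im := by
    simp
    exact mul_pos ht z.im_pos
  rw [pt, ofComplex_apply_of_im_pos this]

theorem pt_eq {t : ℝ} (ht : 0 < t) (x : ℝ) (z : ℍ) : pt t x z = af t x ht • z := by
  apply UpperHalfPlane.ext
  have hdet : 0 < (af t x ht).det.val := by
    rw [Matrix.GeneralLinearGroup.val_det_apply]
    simp [af, Matrix.GeneralLinearGroup.mkOfDetNeZero]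
    exact ht
  rw [coe_pt ht, coe_smul_of_det_pos hdet]
  simp [num, denom, af, Matrix.GeneralLinearGroup.mkOfDetNeZero]

theorem pt_cont {t : ℝ} (ht : 0 < t) (x : ℝ) : Continuous (pt t x) := by
  have : pt t x = fun z => af t x ht • z := funext fun z => pt_eq ht x z
  rw [this]
  exact continuous_const_smul _

theorem pt_pt {t s : ℝ} (ht : 0 < t) (hs : 0 < s) (x y : ℝ) (z : ℍ) :
    pt t x (pt s y z) = pt (t * s) (t * y + x) z := by
  apply UpperHalfPlane.ext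
  rw [coe_pt ht, coe_pt hs, coe_pt (mul_pos ht hs)]
  push_cast
  ring

theorem J_pt {t : ℝ} (ht : 0 < t) (x : ℝ) (z : ℍ) : pt t x (J • z) = J • pt t (-x) z := by
  apply UpperHalfPlane.ext
  rw [coe_pt ht, coe_J_smul, coe_J_smul, coe_pt ht]
  simp
  ring

theorem L_pt (φ : ℝ → ℝ) (f : ℍ → ℂ) {t : ℝ} (ht : 0 < t) (x : ℝ) (z : ℍ) :
    L φ (fun w => f (pt t x w)) z = L φ f (pt t x z) := by
  rw [pt_eq ht, L_smul]
  congr 1
  ext w
  rw [pt_eq ht]

/-- invariance in coordinates -/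
theorem inv_of {f : ℍ → ℂ} (hf : ∀ (γ : SL(2, ℤ)) (z : ℍ), f (γ • z) = f z) (a b c d : ℤ)
    (h : a * d - b * c = 1) {z w : ℍ} (hw : (w : ℂ) * (c * z + d) = a * z + b) : f w = f z := by
  let γ : SL(2, ℤ) := ⟨!![a, b; c, d], by rw [Matrix.det_fin_two_of, h]⟩
  have : γ • z = w := by
    apply UpperHalfPlane.ext
    rw [coe_specialLinearGroup_apply]
    have h0 : ((c : ℂ) * z + d) ≠ 0 := by
      have := denom_ne_zero (γ : GL (Fin 2) ℝ) z
      simpa [denom, γ] using this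
    have h1 : ((γ 0 0 : ℤ) : ℂ) = a := rfl
    simp only [γ, algebraMap_int_eq, eq_intCast,
      Matrix.of_apply, Matrix.cons_val', Matrix.cons_val_zero, Matrix.cons_val_one,
      Matrix.cons_val_fin_one, Complex.ofReal_intCast]
    rw [div_eq_iff h0, hw]
  rw [← this, hf]

theorem sl_inv_of {h : ℍ → ℂ} (hS : ∀ z, h (ModularGroup.S • z) = h z)
    (hT : ∀ z, h (ModularGroup.T • z) = h z) :
    ∀ (γ : SL(2, ℤ)) (z : ℍ), h (γ • z) = h z := by
  intro γ
  have hγ : γ ∈ Subgroup.closure {ModularGroup.S, ModularGroup.T} := by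
    rw [SpecialLinearGroup.SL2Z_generators]; trivial
  induction hγ using Subgroup.closure_induction with
  | mem x hx =>
    rcases hx with rfl | hx
    · exact hS
    · rw [Set.mem_singleton_iff.1 hx]; exact hT
  | one => intro z; rw [one_smul]
  | mul x y _ _ hx hy => intro z; rw [mul_smul, hx, hy]
  | inv x _ hx => intro z; rw [← hx (x⁻¹ • z), smul_inv_smul]

theorem inv_add {f : ℍ → ℂ} (hf : ∀ (γ : SL(2, ℤ)) (z : ℍ), f (γ • z) = f z) {t : ℝ}
    (ht : 0 < t) (x : ℝ) (n : ℤ) (z : ℍ) : f (pt t (x + n) z) = f (pt t x z) := by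
  refine inv_of hf 1 n 0 1 (by ring) ?_
  rw [coe_pt ht, coe_pt ht]
  push_cast
  ring

/-- the Hecke operator (not normalised) -/
def hk (p : ℕ) [NeZero p] (f : ℍ → ℂ) (z : ℍ) : ℂ :=
  f (pt p 0 z) + ∑ b : ZMod p, f (pt (1 / p) (b.val / p) z)

theorem val_period {f : ℍ → ℂ} (hf : ∀ (γ : SL(2, ℤ)) (z : ℍ), f (γ • z) = f z) {p : ℕ}
    [NeZero p] {t : ℝ} (ht : 0 < t) (n : ℤ) (z : ℍ) :
    f (pt t ((n : ZMod p).val / p) z) = f (pt t (n / p) z) := by
  have hp : (p : ℝ) ≠ 0 := by exact_mod_cast NeZero.ne p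
  have h1 : (((n : ZMod p).val : ℤ) : ZMod p) = (n : ZMod p) := by
    push_cast
    exact ZMod.natCast_zmod_val _
  rw [ZMod.intCast_eq_intCast_iff_dvd_sub] at h1
  obtain ⟨k, hk⟩ := h1
  have h2 : (n : ℝ) / p = ((n : ZMod p).val : ℝ) / p + (k : ℤ) := by
    have : (n : ℝ) - (((n : ZMod p).val : ℤ) : ℝ) = p * k := by exact_mod_cast hk
    push_cast at this
    field_simp
    linarith
  rw [h2, inv_add hf ht]

theorem hk_T {f : ℍ → ℂ} (hf : ∀ (γ : SL(2, ℤ)) (z : ℍ), f (γ • z) = f z) (p : ℕ) [NeZero p]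
    (z : ℍ) : hk p f (ModularGroup.T • z) = hk p f z := by
  have hp : (0 : ℝ) < p := by exact_mod_cast Nat.pos_of_ne_zero (NeZero.ne p)
  have hTz : ((ModularGroup.T • z : ℍ) : ℂ) = z + 1 := by
    rw [modular_T_smul]; simp [add_comm]
  unfold hk
  congr 1
  · have h1 : pt p 0 (ModularGroup.T • z) = pt p (0 + (p : ℤ)) z := by
      apply UpperHalfPlane.ext
      rw [coe_pt hp, coe_pt hp, hTz]
      push_cast
      ring
    rw [h1, inv_add hf hp]
  · rw [← Equiv.sum_comp (Equiv.addRight (1 : ZMod p))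
      (fun b : ZMod p => f (pt (1 / p) (b.val / p) z))]
    refine Finset.sum_congr rfl fun b _ => ?_
    have h1 : pt (1 / p) (b.val / p) (ModularGroup.T • z) =
        pt (1 / p) (((b.val : ℤ) + 1 : ℤ) / p) z := by
      apply UpperHalfPlane.ext
      rw [coe_pt (by positivity), coe_pt (by positivity), hTz]
      push_cast
      field_simp
      ring
    rw [h1, ← val_period (p := p) hf (by positivity)]
    simp

theorem hk_S {f : ℍ → ℂ} (hf : ∀ (γ : SL(2, ℤ)) (z : ℍ), f (γ • z) = f z) (p : ℕ)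
    [hp' : Fact p.Prime] (z : ℍ) : hk p f (ModularGroup.S • z) = hk p f z := by
  have hp : (0 : ℝ) < p := by exact_mod_cast hp'.out.pos
  have hz0 : (z : ℂ) ≠ 0 := z.ne_zero
  have hpc : (p : ℂ) ≠ 0 := by exact_mod_cast hp'.out.ne_zero
  have hSz : ((ModularGroup.S • z : ℍ) : ℂ) = -1 / z := by
    rw [modular_S_smul]; simp [neg_div]
  let ι : ZMod p ≃ ZMod p :=
    { toFun := fun b => -b⁻¹
      invFun := fun b => -b⁻¹
      left_inv := fun b => by simp [inv_neg]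
      right_inv := fun b => by simp [inv_neg] }
  have hsum : ∑ b : ZMod p, f (pt (1 / p) (b.val / p) z) =
      f (pt (1 / p) (((0 : ZMod p)).val / p) z) +
      ∑ b ∈ Finset.univ.erase (0 : ZMod p), f (pt (1 / p) ((ι b).val / p) z) := by
    rw [← Equiv.sum_comp ι (fun b : ZMod p => f (pt (1 / p) (b.val / p) z)),
      ← Finset.add_sum_erase _ _ (Finset.mem_univ (0 : ZMod p))]
    congr 3
    simp [ι]
  have hsum2 : ∑ b : ZMod p, f (pt (1 / p) (b.val / p) (ModularGroup.S • z)) =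
      f (pt (1 / p) (((0 : ZMod p)).val / p) (ModularGroup.S • z)) +
      ∑ b ∈ Finset.univ.erase (0 : ZMod p), f (pt (1 / p) (b.val / p) (ModularGroup.S • z)) :=
    (Finset.add_sum_erase _ _ (Finset.mem_univ (0 : ZMod p))).symm
  unfold hk
  rw [hsum, hsum2]
  have e1 : f (pt p 0 (ModularGroup.S • z)) = f (pt (1 / p) (((0 : ZMod p)).val / p) z) := by
    refine inv_of hf 0 (-1) 1 0 (by ring) ?_
    rw [coe_pt hp, coe_pt (by positivity), hSz, ZMod.val_zero]
    push_cast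
    field_simp
    simp
    ring
  have e2 : f (pt (1 / p) (((0 : ZMod p)).val / p) (ModularGroup.S • z)) = f (pt p 0 z) := by
    refine inv_of hf 0 (-1) 1 0 (by ring) ?_
    rw [coe_pt hp, coe_pt (by positivity), hSz, ZMod.val_zero]
    push_cast
    field_simp
    simp
  have e3 : ∀ b ∈ Finset.univ.erase (0 : ZMod p),
      f (pt (1 / p) (b.val / p) (ModularGroup.S • z)) = f (pt (1 / p) ((ι b).val / p) z) := by
    intro b hb
    have hb0 : b ≠ 0 := (Finset.mem_erase.1 hb).1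
    have h1 : (((b.val : ℤ) * ((ι b).val : ℤ) + 1 : ℤ) : ZMod p) = 0 := by
      push_cast
      rw [ZMod.natCast_zmod_val, ZMod.natCast_zmod_val]
      change b * (-b⁻¹) + 1 = 0
      rw [mul_neg, mul_inv_cancel₀ hb0]
      ring
    rw [ZMod.intCast_zmod_eq_zero_iff_dvd] at h1
    obtain ⟨k, hk⟩ := h1
    have hk' : ((b.val : ℂ)) * ((ι b).val : ℂ) + 1 = p * k := by exact_mod_cast hk
    refine inv_of hf (b.val) (-k) p (-((ι b).val : ℤ)) ?_ ?_
    · linarith
    · rw [coe_pt (by positivity), coe_pt (by positivity), hSz]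
      push_cast
      field_simp
      linear_combination (-(z : ℂ)) * hk'
  rw [e1, e2, Finset.sum_congr rfl e3]
  ring

theorem hk_J {f : ℍ → ℂ} (hf : OddAut f) (p : ℕ) [NeZero p] (z : ℍ) :
    hk p f (J • z) = - hk p f z := by
  have hp : (0 : ℝ) < p := by exact_mod_cast Nat.pos_of_ne_zero (NeZero.ne p)
  unfold hk
  rw [J_pt hp, hf.2, neg_zero, neg_add]
  congr 1
  rw [← Equiv.sum_comp (Equiv.neg (ZMod p))
      (fun b : ZMod p => f (pt (1 / p) (b.val / p) z)), ← Finset.sum_neg_distrib]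
  refine Finset.sum_congr rfl fun b _ => ?_
  rw [J_pt (by positivity), hf.2]
  congr 1
  have h1 : -((b.val : ℝ) / p) = ((-(b.val : ℤ) : ℤ) : ℝ) / p := by
    push_cast
    ring
  rw [h1, ← val_period (p := p) hf.1 (by positivity)]
  simp

theorem hk_oddAut {f : ℍ → ℂ} (hf : OddAut f) (p : ℕ) [Fact p.Prime] : OddAut (hk p f) :=
  ⟨sl_inv_of (hk_S hf.1 p) (hk_T hf.1 p), hk_J hf p⟩

theorem hk_continuous {f : ℍ → ℂ} (hf : Continuous f) (p : ℕ) [NeZero p] :
    Continuous (hk p f) := by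
  have hp : (0 : ℝ) < p := by exact_mod_cast Nat.pos_of_ne_zero (NeZero.ne p)
  unfold hk
  exact (hf.comp (pt_cont hp _)).add
    (continuous_finsetSum _ fun b _ => hf.comp (pt_cont (by positivity) _))

theorem hk_bound {f : ℍ → ℂ} {C : ℝ} (hf : ∀ z, ‖f z‖ ≤ C) (p : ℕ) [NeZero p] (z : ℍ) :
    ‖hk p f z‖ ≤ (p + 1) * C := by
  unfold hk
  refine (norm_add_le _ _).trans ?_
  have h1 : ‖∑ b : ZMod p, f (pt (1 / p) (b.val / p) z)‖ ≤ ∑ _b : ZMod p, C :=
    norm_sum_le_of_le _ fun b _ => hf _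
  rw [Finset.sum_const, Finset.card_univ, ZMod.card, nsmul_eq_mul] at h1
  have h2 := hf (pt p 0 z)
  linarith

/-- The Hecke operator on odd functions. -/
def Hk (p : ℕ) [Fact p.Prime] : Bodd →ₗ[ℂ] Bodd where
  toFun f := ⟨BoundedContinuousFunction.ofNormedAddCommGroup (hk p (f : ℍ →ᵇ ℂ))
      (hk_continuous (f : ℍ →ᵇ ℂ).continuous p) ((p + 1) * ‖(f : ℍ →ᵇ ℂ)‖)
      (hk_bound (fun w => (f : ℍ →ᵇ ℂ).norm_coe_le_norm w) p),
    hk_oddAut f.2 p⟩
  map_add' f g := by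
    apply Subtype.ext
    ext z
    change hk p (fun z => (f : ℍ →ᵇ ℂ) z + (g : ℍ →ᵇ ℂ) z) z =
      hk p (f : ℍ →ᵇ ℂ) z + hk p (g : ℍ →ᵇ ℂ) z
    unfold hk
    rw [Finset.sum_add_distrib]
    ring
  map_smul' c f := by
    apply Subtype.ext
    ext z
    change hk p (fun z => c * (f : ℍ →ᵇ ℂ) z) z = c * hk p (f : ℍ →ᵇ ℂ) z
    unfold hk
    rw [mul_add, Finset.mul_sum]

@[simp] theorem Hk_apply (p : ℕ) [Fact p.Prime] (f : Bodd) (z : ℍ) :
    ((Hk p f : Bodd) : ℍ →ᵇ ℂ) z = hk p (f : ℍ →ᵇ ℂ) z := rfl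

theorem Hk_comm_A {φ : ℝ → ℝ} (hφ : Ker φ) (p : ℕ) [Fact p.Prime] (f : Bodd) :
    A hφ (Hk p f) = Hk p (A hφ f) := by
  apply Subtype.ext
  ext z
  change L φ (hk p (f : ℍ →ᵇ ℂ)) z = hk p (L φ (f : ℍ →ᵇ ℂ)) z
  have hp : (0 : ℝ) < p := by exact_mod_cast Nat.pos_of_ne_zero (NeZero.ne p)
  have hc := (f : ℍ →ᵇ ℂ).continuous
  have hI : ∀ {t : ℝ} (_ : 0 < t) (x : ℝ), Integrable fun w : ℍ =>
      (φ (Real.cosh (dist z w)) : ℂ) * (f : ℍ →ᵇ ℂ) (pt t x w) := fun ht x =>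
    integrable_kernel hφ (hc.comp (pt_cont ht x)) z
  have h1 : L φ (hk p (f : ℍ →ᵇ ℂ)) z = L φ (fun w => (f : ℍ →ᵇ ℂ) (pt p 0 w)) z +
      ∑ b : ZMod p, L φ (fun w => (f : ℍ →ᵇ ℂ) (pt (1 / p) (b.val / p) w)) z := by
    unfold L hk
    rw [← integral_finsetSum _ (fun b _ => hI (by positivity) _),
      ← integral_add (hI hp 0) (integrable_finsetSum _ (fun b _ => hI (by positivity) _))]
    congr 1
    ext w
    rw [mul_add, Finset.mul_sum]
  rw [h1, L_pt _ _ hp]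
  unfold hk
  congr 1
  refine Finset.sum_congr rfl fun b _ => ?_
  rw [L_pt _ _ (by positivity)]

end

end Pool.Agent.K4H20.OM
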