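import Pool.Agent.K4H20.OM.F2

set_option autoImplicit false

/-! Hecke operators commute; joint eigenfunctions. -/

namespace Pool.Agent.K4H20.OM

open UpperHalfPlane MeasureTheory ModularGroup
open scoped MatrixGroups BoundedContinuousFunction Modular

noncomputable section

theorem sumZ (p : ℕ) [NeZero p] (h : ℕ → ℂ) :
    ∑ b : ZMod p, h b.val = ∑ b ∈ Finset.range p, h b := by
  obtain ⟨n, rfl⟩ := Nat.exists_eq_succ_of_ne_zero (NeZero.ne p)
  exact Fin.sum_univ_eq_sum_range h (n + 1)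

theorem blk (p q : ℕ) (h : ℕ → ℂ) :
    ∑ c ∈ Finset.range q, ∑ b ∈ Finset.range p, h (b + p * c) =
      ∑ n ∈ Finset.range (p * q), h n := by
  induction q with
  | zero => simp
  | succ q ih =>
    rw [Finset.sum_range_succ, ih, mul_add, mul_one, Finset.sum_range_add]
    congr 1
    refine Finset.sum_congr rfl fun b _ => ?_
    rw [add_comm]

theorem scale_sum {f : ℍ → ℂ} (hf : ∀ (γ : SL(2, ℤ)) (z : ℍ), f (γ • z) = f z) {p q : ℕ}
    [hp : Fact p.Prime] [hq : Fact q.Prime] (hpq : p ≠ q) {t : ℝ} (ht : 0 < t) (z : ℍ) :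
    ∑ b : ZMod p, f (pt t (q * (b.val / p)) z) = ∑ b : ZMod p, f (pt t (b.val / p) z) := by
  have hu : IsUnit (q : ZMod p) := by
    rw [ZMod.isUnit_iff_coprime]
    exact (Nat.coprime_primes hq.out hp.out).2 (Ne.symm hpq)
  obtain ⟨u, hu⟩ := hu
  rw [← Equiv.sum_comp (Units.mulLeft u) (fun b : ZMod p => f (pt t (b.val / p) z))]
  refine Finset.sum_congr rfl fun b _ => ?_
  have h1 : (q : ℝ) * (b.val / p) = ((q * b.val : ℤ) : ℝ) / p := by
    push_cast
    ring
  rw [h1, ← val_period (p := p) hf ht]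
  congr 3
  simp [hu]

theorem hk_hk {f : ℍ → ℂ} (hf : ∀ (γ : SL(2, ℤ)) (z : ℍ), f (γ • z) = f z) {p q : ℕ}
    [hp : Fact p.Prime] [hq : Fact q.Prime] (hpq : p ≠ q) (z : ℍ) :
    hk p (hk q f) z = f (pt (p * q) 0 z) + ∑ c : ZMod q, f (pt (p / q) (c.val / q) z) +
      ∑ b : ZMod p, f (pt (q / p) (b.val / p) z) +
      ∑ n ∈ Finset.range (p * q), f (pt (1 / (p * q)) (n / (p * q)) z) := by
  have hp0 : (0 : ℝ) < p := by exact_mod_cast hp.out.pos
  have hq0 : (0 : ℝ) < q := by exact_mod_cast hq.out.pos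
  have e0 : hk q f (pt p 0 z) = f (pt (p * q) 0 z) +
      ∑ c : ZMod q, f (pt (p / q) (c.val / q) z) := by
    unfold hk
    rw [pt_pt hq0 hp0, mul_comm (q : ℝ) p, mul_zero, zero_add]
    congr 1
    refine Finset.sum_congr rfl fun c _ => ?_
    rw [pt_pt (by positivity) hp0, mul_zero, zero_add, one_div_mul_eq_div]
  have e1 : ∑ b : ZMod p, hk q f (pt (1 / p) (b.val / p) z) =
      ∑ b : ZMod p, f (pt (q / p) (q * (b.val / p)) z) +
      ∑ b : ZMod p, ∑ c : ZMod q, f (pt (1 / (p * q)) (((b.val + p * c.val : ℕ) : ℝ) / (p * q)) z) := by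
    unfold hk
    rw [← Finset.sum_add_distrib]
    refine Finset.sum_congr rfl fun b _ => ?_
    congr 1
    · rw [pt_pt hq0 (by positivity), add_zero, mul_one_div]
    · refine Finset.sum_congr rfl fun c _ => ?_
      rw [pt_pt (by positivity) (by positivity)]
      congr 2
      · field_simp
      · push_cast
        field_simp
  have e2 : ∑ b : ZMod p, ∑ c : ZMod q,
      f (pt (1 / (p * q)) (((b.val + p * c.val : ℕ) : ℝ) / (p * q)) z) =
      ∑ n ∈ Finset.range (p * q), f (pt (1 / (p * q)) (n / (p * q)) z) := by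
    rw [← blk p q (fun n : ℕ => f (pt (1 / (p * q)) (n / (p * q)) z)), Finset.sum_comm]
    rw [sumZ q (fun c => ∑ b : ZMod p,
      f (pt (1 / (p * q)) (((b.val + p * c : ℕ) : ℝ) / (p * q)) z))]
    refine Finset.sum_congr rfl fun c _ => ?_
    exact sumZ p (fun b => f (pt (1 / (p * q)) (((b + p * c : ℕ) : ℝ) / (p * q)) z))
  rw [hk, e0, e1, scale_sum hf hpq (by positivity), e2]
  ring

theorem Hk_comm (p q : ℕ) [hp : Fact p.Prime] [hq : Fact q.Prime] : Commute (Hk p) (Hk q) := by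
  by_cases hpq : p = q
  · subst hpq
    exact Commute.refl _
  apply LinearMap.ext
  intro f
  apply Subtype.ext
  ext z
  change hk p (hk q (f : ℍ →ᵇ ℂ)) z = hk q (hk p (f : ℍ →ᵇ ℂ)) z
  rw [hk_hk f.2.1 hpq, hk_hk f.2.1 (Ne.symm hpq), mul_comm (q : ℝ) p, mul_comm q p]
  ring

/-- **Joint eigenfunctions.** There is a non-zero bounded continuous odd automorphic function
which is an eigenfunction of all point-pair invariant operators and of all Hecke operators, with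
a non-zero eigenvalue for one of the former. -/
theorem exists_joint : ∃ f : Bodd, f ≠ 0 ∧ (∀ {φ : ℝ → ℝ} (hφ : Ker φ), ∃ μ : ℂ, A hφ f = μ • f) ∧
    (∀ (p : ℕ) [Fact p.Prime], ∃ μ : ℂ, Hk p f = μ • f) ∧
    ∃ (φ : ℝ → ℝ) (hφ : Ker φ) (μ : ℂ), μ ≠ 0 ∧ A hφ f = μ • f := by
  obtain ⟨φ, hφ, μ, hμ, g, hg0, hg⟩ := exists_eigenfunction
  have hfin := finite_eigenspace (A hφ) (A_compact hφ) hμ
  set V := Module.End.eigenspace (A hφ : Module.End ℂ Bodd) μ with hVdef
  have hmem : ∀ v, v ∈ V ↔ A hφ v = μ • v := fun v => Module.End.mem_eigenspace_iff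
  let F : (({ψ : ℝ → ℝ // Ker ψ}) ⊕ ({p : ℕ // p.Prime})) → Module.End ℂ Bodd := fun i =>
    match i with
    | Sum.inl ψ => (A ψ.2 : Bodd →ₗ[ℂ] Bodd)
    | Sum.inr p => haveI := Fact.mk p.2; Hk p.1
  have hAA : ∀ {ψ χ : ℝ → ℝ} (hψ : Ker ψ) (hχ : Ker χ) (v : Bodd), A hψ (A hχ v) = A hχ (A hψ v) := by
    intro ψ χ hψ hχ v
    apply Subtype.ext
    ext z
    exact L_comm hψ hχ (v : ℍ →ᵇ ℂ).continuous z
  have hcomm : ∀ i j, Commute (F i) (F j) := by
    rintro (ψ | p) (χ | q)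
    · exact LinearMap.ext fun v => hAA ψ.2 χ.2 v
    · have := Fact.mk q.2
      exact LinearMap.ext fun v => Hk_comm_A ψ.2 q.1 v
    · have := Fact.mk p.2
      exact LinearMap.ext fun v => (Hk_comm_A χ.2 p.1 v).symm
    · have := Fact.mk q.2
      have := Fact.mk p.2
      exact Hk_comm p.1 q.1
  have hinv : ∀ i, ∀ v ∈ V, F i v ∈ V := by
    intro i v hv
    have h1 := LinearMap.congr_fun (hcomm (Sum.inl ⟨φ, hφ⟩) i).eq v
    rw [Module.End.mul_apply, Module.End.mul_apply] at h1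
    have h2 : F (Sum.inl ⟨φ, hφ⟩) v = μ • v := (hmem v).1 hv
    rw [h2, map_smul] at h1
    exact (hmem _).2 h1
  have hV0 : V ≠ ⊥ := by
    intro h
    have : g ∈ V := (hmem g).2 hg
    rw [h, Submodule.mem_bot] at this
    exact hg0 this
  obtain ⟨v, hv, hv0, hF⟩ := exists_common F hcomm V hV0 hinv
  refine ⟨v, hv0, fun {ψ} hψ => hF (Sum.inl ⟨ψ, hψ⟩), fun p hp => hF (Sum.inr ⟨p, hp.out⟩),
    φ, hφ, μ, hμ, (hmem v).1 hv⟩

end

end Pool.Agent.K4H20.OM
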