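import Pool.Agent.K4H20.OM.F3

set_option autoImplicit false

/-! Differentiation under the integral sign. -/

namespace Pool.Agent.K4H20.OM

open UpperHalfPlane MeasureTheory
open scoped MatrixGroups BoundedContinuousFunction

noncomputable section

/-- the open upper half-plane as a set -/
def UH : Set ℂ := {z | 0 < z.im}

theorem isOpen_UH : IsOpen UH := isOpen_lt continuous_const Complex.continuous_im

theorem coe_mem (w : ℍ) : (w : ℂ) ∈ UH := w.im_pos

/-- admissible kernels -/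
structure Adm (G : ℂ × ℂ → ℝ) : Prop where
  smooth : ContDiffOn ℝ (⊤ : ℕ∞) G (UH ×ˢ UH)
  supp : ∀ z₀ ∈ UH, ∃ r > 0, ∃ S : Set ℍ, IsCompact S ∧ Metric.closedBall z₀ r ⊆ UH ∧
    ∀ z ∈ Metric.closedBall z₀ r, ∀ w : ℍ, w ∉ S → G (z, w) = 0

/-- directional derivative in the first variable -/
def dir (e : ℂ) (G : ℂ × ℂ → ℝ) : ℂ × ℂ → ℝ := fun p => fderiv ℝ G p (e, 0)

theorem Adm.diff {G : ℂ × ℂ → ℝ} (h : Adm G) {z w : ℂ} (hz : z ∈ UH) (hw : w ∈ UH) :
    HasFDerivAt (fun z' => G (z', w)) ((fderiv ℝ G (z, w)).comp (ContinuousLinearMap.inl ℝ ℂ ℂ)) z := by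
  have h1 : DifferentiableAt ℝ G (z, w) :=
    (h.smooth.differentiableOn (by simp)).differentiableAt
      ((isOpen_UH.prod isOpen_UH).mem_nhds ⟨hz, hw⟩)
  have h2 : HasFDerivAt (fun z' : ℂ => (z', w)) (ContinuousLinearMap.inl ℝ ℂ ℂ) z :=
    hasFDerivAt_prodMk_left z w
  exact HasFDerivAt.comp z h1.hasFDerivAt h2

theorem Adm.dir {G : ℂ × ℂ → ℝ} (h : Adm G) (e : ℂ) : Adm (dir e G) where
  smooth := by
    have h1 := h.smooth.fderiv_of_isOpen (isOpen_UH.prod isOpen_UH) (m := (⊤ : ℕ∞)) (by simp)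
    exact h1.clm_apply contDiffOn_const
  supp := by
    intro z₀ hz₀
    obtain ⟨r, hr, S, hS, hsub, h0⟩ := h.supp z₀ hz₀
    refine ⟨r / 2, by positivity, S, hS,
      (Metric.closedBall_subset_closedBall (by linarith)).trans hsub, fun z hz w hw => ?_⟩
    have hz' : z ∈ Metric.ball z₀ r := by
      rw [Metric.mem_ball]
      rw [Metric.mem_closedBall] at hz
      linarith
    have h1 := h.diff (hsub (Metric.ball_subset_closedBall hz')) (coe_mem w)
    have h2 : (fun z' => G (z', (w : ℂ))) =ᶠ[nhds z] fun _ => 0 := by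
      filter_upwards [Metric.isOpen_ball.mem_nhds hz'] with z' hz'
      exact h0 z' (Metric.ball_subset_closedBall hz') w hw
    have h3 := h1.unique ((hasFDerivAt_const (0 : ℝ) z).congr_of_eventuallyEq h2)
    have h4 := congrArg (fun T : ℂ →L[ℝ] ℝ => T e) h3
    exact h4

/-- the integral transform attached to an admissible kernel -/
def FG (f : ℍ → ℂ) (G : ℂ × ℂ → ℝ) (z : ℂ) : ℂ := ∫ w : ℍ, (G (z, (w : ℂ)) : ℂ) * f w

theorem Adm.cont {G : ℂ × ℂ → ℝ} (h : Adm G) {f : ℍ → ℂ} (hf : Continuous f) {z : ℂ}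
    (hz : z ∈ UH) : Continuous fun w : ℍ => (G (z, (w : ℂ)) : ℂ) * f w := by
  have h1 : Continuous fun w : ℍ => G (z, (w : ℂ)) := by
    rw [continuous_iff_continuousAt]
    intro w
    have h2 : ContinuousAt G (z, (w : ℂ)) := h.smooth.continuousOn.continuousAt
      ((isOpen_UH.prod isOpen_UH).mem_nhds ⟨hz, coe_mem w⟩)
    exact ContinuousAt.comp (f := fun w : ℍ => (z, (w : ℂ))) h2
      (continuous_const.prodMk continuous_coe).continuousAt
  exact (Complex.continuous_ofReal.comp h1).mul hf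

theorem Adm.integrable {G : ℂ × ℂ → ℝ} (h : Adm G) {f : ℍ → ℂ} (hf : Continuous f) {z : ℂ}
    (hz : z ∈ UH) : Integrable fun w : ℍ => (G (z, (w : ℂ)) : ℂ) * f w := by
  obtain ⟨r, hr, S, hS, hsub, h0⟩ := h.supp z hz
  apply (h.cont hf hz).integrable_of_hasCompactSupport
  refine HasCompactSupport.of_support_subset_isCompact hS ?_
  intro w hw
  by_contra hc
  apply hw
  change (G (z, (w : ℂ)) : ℂ) * f w = 0
  rw [h0 z (Metric.mem_closedBall_self hr.le) w hc]
  simp

theorem FG_hasFDerivAt {G : ℂ × ℂ → ℝ} (h : Adm G) {f : ℍ → ℂ} (hf : Continuous f) {z₀ : ℂ}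
    (hz₀ : z₀ ∈ UH) :
    HasFDerivAt (FG f G) (Complex.reCLM.smulRight (FG f (dir 1 G) z₀) +
      Complex.imCLM.smulRight (FG f (dir Complex.I G) z₀)) z₀ := by
  obtain ⟨r, hr, S, hS, hsub, h0⟩ := h.supp z₀ hz₀
  obtain ⟨r1, hr1, S1, hS1, hsub1, h01⟩ := (h.dir 1).supp z₀ hz₀
  obtain ⟨r2, hr2, S2, hS2, hsub2, h02⟩ := (h.dir Complex.I).supp z₀ hz₀
  set ρ := min r (min r1 r2) with hρ
  have hρ0 : 0 < ρ := by positivity
  have hb : Metric.closedBall z₀ ρ ⊆ Metric.closedBall z₀ r :=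
    Metric.closedBall_subset_closedBall (min_le_left _ _)
  have hb1 : Metric.closedBall z₀ ρ ⊆ Metric.closedBall z₀ r1 :=
    Metric.closedBall_subset_closedBall ((min_le_right _ _).trans (min_le_left _ _))
  have hb2 : Metric.closedBall z₀ ρ ⊆ Metric.closedBall z₀ r2 :=
    Metric.closedBall_subset_closedBall ((min_le_right _ _).trans (min_le_right _ _))
  let K : Set ℍ := S ∪ (S1 ∪ S2)
  have hK : IsCompact K := hS.union (hS1.union hS2)
  -- bound on the product of the ball and K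
  have hbd : ∀ {H : ℂ × ℂ → ℝ}, Adm H → ∃ M : ℝ, 0 ≤ M ∧ ∀ z ∈ Metric.closedBall z₀ ρ, ∀ w ∈ K,
      ‖(H (z, (w : ℂ)) : ℂ) * f w‖ ≤ M := by
    intro H hH
    have hcomp : IsCompact (Metric.closedBall z₀ ρ ×ˢ K) := (isCompact_closedBall _ _).prod hK
    have hcont : ContinuousOn (fun p : ℂ × ℍ => (H (p.1, (p.2 : ℂ)) : ℂ) * f p.2)
        (Metric.closedBall z₀ ρ ×ˢ K) := by
      refine ContinuousOn.mul ?_ (hf.comp continuous_snd).continuousOn
      refine Complex.continuous_ofReal.comp_continuousOn ?_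
      refine hH.smooth.continuousOn.comp (f := fun p : ℂ × ℍ => (p.1, (p.2 : ℂ))) ?_ ?_
      · exact (continuous_fst.prodMk (continuous_coe.comp continuous_snd)).continuousOn
      · intro p hp
        exact ⟨hsub (hb hp.1), coe_mem _⟩
    obtain ⟨M, hM⟩ := hcomp.exists_bound_of_continuousOn hcont
    exact ⟨max M 0, le_max_right _ _, fun z hz w hw => (hM (z, w) ⟨hz, hw⟩).trans (le_max_left _ _)⟩
  obtain ⟨M1, hM10, hM1⟩ := hbd (h.dir 1)
  obtain ⟨M2, hM20, hM2⟩ := hbd (h.dir Complex.I)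
  let F' : ℂ → ℍ → ℂ →L[ℝ] ℂ := fun z w =>
    Complex.reCLM.smulRight ((dir 1 G (z, (w : ℂ)) : ℂ) * f w) +
      Complex.imCLM.smulRight ((dir Complex.I G (z, (w : ℂ)) : ℂ) * f w)
  have hlin : ∀ (z : ℂ) (w : ℂ) (v : ℂ), fderiv ℝ G (z, w) (v, 0) =
      v.re * dir 1 G (z, w) + v.im * dir Complex.I G (z, w) := by
    intro z w v
    unfold dir
    have : ((v, 0) : ℂ × ℂ) = v.re • ((1 : ℂ), (0 : ℂ)) + v.im • (Complex.I, (0 : ℂ)) := by
      apply Prod.ext
      · apply Complex.ext <;> simp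
      · simp
    rw [this, map_add, map_smul, map_smul]
    simp
  have hD : ∀ᵐ w : ℍ, ∀ z ∈ Metric.closedBall z₀ ρ,
      HasFDerivAt (fun z' => (G (z', (w : ℂ)) : ℂ) * f w) (F' z w) z := by
    refine Filter.Eventually.of_forall fun w z hz => ?_
    have h1 := h.diff (hsub (hb hz)) (coe_mem w)
    have h2 := (Complex.ofRealCLM.hasFDerivAt.comp z h1).mul_const (f w)
    refine HasFDerivAt.congr_fderiv h2 (Eq.symm ?_)
    apply ContinuousLinearMap.ext
    intro v
    simp only [F', add_apply, ContinuousLinearMap.smulRight_apply,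
      Complex.reCLM_apply, Complex.imCLM_apply, smul_apply,
      ContinuousLinearMap.comp_apply, ContinuousLinearMap.inl_apply, Complex.ofRealCLM_apply,
      hlin z w v, Complex.real_smul, smul_eq_mul]
    push_cast
    ring
  have hsupp : ∀ z ∈ Metric.closedBall z₀ ρ, ∀ w, w ∉ K → F' z w = 0 := by
    intro z hz w hw
    have hw1 : w ∉ S1 := fun h => hw (Or.inr (Or.inl h))
    have hw2 : w ∉ S2 := fun h => hw (Or.inr (Or.inr h))
    simp only [F']
    rw [h01 z (hb1 hz) w hw1, h02 z (hb2 hz) w hw2]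
    apply ContinuousLinearMap.ext
    intro v
    simp
  have hbound : ∀ᵐ w : ℍ, ∀ z ∈ Metric.closedBall z₀ ρ,
      ‖F' z w‖ ≤ K.indicator (fun _ => M1 + M2) w := by
    refine Filter.Eventually.of_forall fun w z hz => ?_
    by_cases hw : w ∈ K
    · rw [Set.indicator_of_mem hw]
      refine (norm_add_le _ _).trans (add_le_add ?_ ?_)
      · rw [ContinuousLinearMap.norm_smulRight_apply, Complex.reCLM_norm, one_mul]
        exact hM1 z hz w hw
      · rw [ContinuousLinearMap.norm_smulRight_apply, Complex.imCLM_norm, one_mul]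
        exact hM2 z hz w hw
    · rw [Set.indicator_of_notMem hw, hsupp z hz w hw, norm_zero]
  have hcont' : Continuous (F' z₀) := by
    have h1 := (h.dir 1).cont hf hz₀
    have h2 := (h.dir Complex.I).cont hf hz₀
    exact ((ContinuousLinearMap.smulRightL ℝ ℂ ℂ Complex.reCLM).continuous.comp h1).add
      ((ContinuousLinearMap.smulRightL ℝ ℂ ℂ Complex.imCLM).continuous.comp h2)
  have hbi : Integrable (K.indicator (fun _ : ℍ => M1 + M2)) := by
    rw [integrable_indicator_iff hK.measurableSet]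
    exact integrableOn_const hK.measure_lt_top.ne
  have hmain := hasFDerivAt_integral_of_dominated_of_fderiv_le
    (F := fun z (w : ℍ) => (G (z, (w : ℂ)) : ℂ) * f w) (F' := F') (x₀ := z₀)
    (s := Metric.closedBall z₀ ρ) (μ := (volume : Measure ℍ))
    (bound := K.indicator (fun _ => M1 + M2))
    (Metric.closedBall_mem_nhds z₀ hρ0)
    (by
      filter_upwards [isOpen_UH.mem_nhds hz₀] with z hz
      exact (h.cont hf hz).aestronglyMeasurable)
    (h.integrable hf hz₀) hcont'.aestronglyMeasurable hbound hbi hD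
  have hF'int : Integrable (F' z₀) := by
    refine Integrable.mono' hbi hcont'.aestronglyMeasurable ?_
    filter_upwards [hbound] with w hw
    exact hw z₀ (Metric.mem_closedBall_self hρ0.le)
  refine HasFDerivAt.congr_fderiv hmain (Eq.symm ?_)
  apply ContinuousLinearMap.ext
  intro v
  rw [ContinuousLinearMap.integral_apply hF'int]
  simp only [F', add_apply, ContinuousLinearMap.smulRight_apply,
      Complex.reCLM_apply, Complex.imCLM_apply]
  have i1 : Integrable fun w : ℍ => v.re • ((dir 1 G (z₀, (w : ℂ)) : ℂ) * f w) :=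
    ((h.dir 1).integrable hf hz₀).smul v.re
  have i2 : Integrable fun w : ℍ => v.im • ((dir Complex.I G (z₀, (w : ℂ)) : ℂ) * f w) :=
    ((h.dir Complex.I).integrable hf hz₀).smul v.im
  rw [integral_add i1 i2, integral_smul, integral_smul]
  rfl

theorem FG_contDiffOn {f : ℍ → ℂ} (hf : Continuous f) (n : ℕ) :
    ∀ {G : ℂ × ℂ → ℝ}, Adm G → ContDiffOn ℝ n (FG f G) UH := by
  induction n with
  | zero =>
    intro G h
    rw [Nat.cast_zero, contDiffOn_zero]
    exact fun z hz => (FG_hasFDerivAt h hf hz).continuousAt.continuousWithinAt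
  | succ n ih =>
    intro G h
    push_cast
    rw [contDiffOn_succ_iff_hasFDerivWithinAt_of_uniqueDiffOn isOpen_UH.uniqueDiffOn]
    refine ⟨by simp, fun z => Complex.reCLM.smulRight (FG f (dir 1 G) z) +
      Complex.imCLM.smulRight (FG f (dir Complex.I G) z), ?_, ?_⟩
    · exact ((ContinuousLinearMap.smulRightL ℝ ℂ ℂ Complex.reCLM).contDiff.comp_contDiffOn
        (ih (h.dir 1))).add ((ContinuousLinearMap.smulRightL ℝ ℂ ℂ Complex.imCLM).contDiff.comp_contDiffOn
        (ih (h.dir Complex.I)))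
    · exact fun z hz => (FG_hasFDerivAt h hf hz).hasFDerivWithinAt

end

end Pool.Agent.K4H20.OM
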