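import Pool.Agent.K4H20.OM.G1

set_option autoImplicit false

/-! The Laplacian of the kernel. -/

namespace Pool.Agent.K4H20.OM

open UpperHalfPlane MeasureTheory
open scoped MatrixGroups BoundedContinuousFunction Laplacian

noncomputable section

/-- `cosh` of the hyperbolic distance -/
def cc (p : ℂ × ℂ) : ℝ :=
  ((p.1.re - p.2.re) ^ 2 + p.1.im ^ 2 + p.2.im ^ 2) / (2 * p.1.im * p.2.im)

/-- the kernel -/
def kk (φ : ℝ → ℝ) (p : ℂ × ℂ) : ℝ := φ (cc p)

theorem kk_coe (φ : ℝ → ℝ) (z w : ℍ) : kk φ ((z : ℂ), (w : ℂ)) = φ (Real.cosh (dist z w)) := by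
  rw [cosh_dist']
  rfl

theorem FG_coe (φ : ℝ → ℝ) (f : ℍ → ℂ) (z : ℍ) : FG f (kk φ) z = L φ f z := by
  unfold FG L
  congr 1
  ext w
  rw [kk_coe]

theorem cc_smooth : ContDiffOn ℝ (⊤ : ℕ∞) cc (UH ×ˢ UH) := by
  unfold cc
  refine ContDiffOn.div ?_ ?_ ?_
  · apply ContDiff.contDiffOn
    have h1 : ContDiff ℝ (⊤ : ℕ∞) (fun p : ℂ × ℂ => p.1.re) := Complex.reCLM.contDiff.comp contDiff_fst
    have h2 : ContDiff ℝ (⊤ : ℕ∞) (fun p : ℂ × ℂ => p.2.re) := Complex.reCLM.contDiff.comp contDiff_snd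
    have h3 : ContDiff ℝ (⊤ : ℕ∞) (fun p : ℂ × ℂ => p.1.im) := Complex.imCLM.contDiff.comp contDiff_fst
    have h4 : ContDiff ℝ (⊤ : ℕ∞) (fun p : ℂ × ℂ => p.2.im) := Complex.imCLM.contDiff.comp contDiff_snd
    exact (((h1.sub h2).pow 2).add (h3.pow 2)).add (h4.pow 2)
  · apply ContDiff.contDiffOn
    have h3 : ContDiff ℝ (⊤ : ℕ∞) (fun p : ℂ × ℂ => p.1.im) := Complex.imCLM.contDiff.comp contDiff_fst
    have h4 : ContDiff ℝ (⊤ : ℕ∞) (fun p : ℂ × ℂ => p.2.im) := Complex.imCLM.contDiff.comp contDiff_snd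
    exact (contDiff_const.mul h3).mul h4
  · rintro ⟨z, w⟩ ⟨hz, hw⟩
    have h1 : 0 < z.im := hz
    have h2 : 0 < w.im := hw
    positivity

theorem kk_adm {φ : ℝ → ℝ} (hφ : Ker φ) : Adm (kk φ) where
  smooth := hφ.smooth.comp_contDiffOn cc_smooth
  supp := by
    intro z₀ hz₀
    obtain ⟨R, hR0, hR⟩ := hφ.supp
    let z₁ : ℍ := ⟨z₀, hz₀⟩
    have hnh : {z : ℂ | z ∈ UH ∧ dist (ofComplex z) z₁ < 1} ∈ nhds z₀ := by
      refine Filter.inter_mem (isOpen_UH.mem_nhds hz₀) ?_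
      have hc : ContinuousAt (fun z : ℂ => (ofComplex z : ℍ)) z₀ :=
        (contMDiffAt_ofComplex (n := 0) hz₀).continuousAt
      have h1 : Filter.Tendsto (fun z : ℂ => dist (ofComplex z) z₁) (nhds z₀) (nhds (dist (ofComplex z₀) z₁)) :=
        (hc.dist continuousAt_const)
      have h2 : dist (ofComplex z₀) z₁ < 1 := by
        rw [ofComplex_apply_of_im_pos hz₀]
        change dist z₁ z₁ < 1
        rw [dist_self]
        exact one_pos
      exact h1.eventually_lt_const h2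
    obtain ⟨r, hr, hsub⟩ := Metric.nhds_basis_closedBall.mem_iff.1 hnh
    refine ⟨r, hr, Metric.closedBall z₁ (R + 1), isCompact_closedBall _ _,
      fun z hz => (hsub hz).1, fun z hz w hw => ?_⟩
    have hz' := hsub hz
    have e : z = ((⟨z, hz'.1⟩ : ℍ) : ℂ) := rfl
    have h1 : dist (⟨z, hz'.1⟩ : ℍ) z₁ < 1 := by
      have := hz'.2
      rwa [ofComplex_apply_of_im_pos hz'.1] at this
    rw [e, kk_coe]
    rw [Metric.mem_closedBall, not_le] at hw
    have h2 := dist_triangle w (⟨z, hz'.1⟩ : ℍ) z₁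
    have h3 := dist_comm w (⟨z, hz'.1⟩ : ℍ)
    apply Ker.vanish hR
    refine lt_of_lt_of_le ?_ (le_abs_self _)
    linarith

theorem Adm.dir_eq {G : ℂ × ℂ → ℝ} (h : Adm G) {z w e : ℂ} (hz : z ∈ UH) (hw : w ∈ UH) {d : ℝ}
    (hd : HasDerivAt (fun t : ℝ => G (z + t * e, w)) d 0) :
    Pool.Agent.K4H20.OM.dir e G (z, w) = d := by
  have h1 : DifferentiableAt ℝ G (z, w) :=
    (h.smooth.differentiableOn (by simp)).differentiableAt
      ((isOpen_UH.prod isOpen_UH).mem_nhds ⟨hz, hw⟩)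
  have h2 : HasDerivAt (fun t : ℝ => ((z + t * e, w) : ℂ × ℂ)) (e, 0) 0 := by
    refine HasDerivAt.prodMk ?_ (hasDerivAt_const _ _)
    have h3 : HasDerivAt (fun t : ℝ => (t : ℂ)) 1 0 := Complex.ofRealCLM.hasDerivAt
    have := (h3.mul_const e).const_add z
    simpa using this
  have h4 : HasFDerivAt G (fderiv ℝ G (z, w)) ((fun t : ℝ => ((z + t * e, w) : ℂ × ℂ)) 0) := by
    simpa using h1.hasFDerivAt
  have h5 := h4.comp_hasDerivAt (0 : ℝ) h2
  exact h5.unique hd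

theorem dir1_kk {φ : ℝ → ℝ} (hφ : Ker φ) {z w : ℂ} (hz : z ∈ UH) (hw : w ∈ UH) :
    dir 1 (kk φ) (z, w) = deriv φ (cc (z, w)) * ((z.re - w.re) / (z.im * w.im)) := by
  apply (kk_adm hφ).dir_eq hz hw
  have hz' : 0 < z.im := hz
  have hw' : 0 < w.im := hw
  have h1 : HasDerivAt (fun t : ℝ => cc (z + t * 1, w)) ((z.re - w.re) / (z.im * w.im)) 0 := by
    have e : (fun t : ℝ => cc (z + t * 1, w)) = fun t : ℝ =>
        ((z.re + t - w.re) ^ 2 + z.im ^ 2 + w.im ^ 2) / (2 * z.im * w.im) := by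
      funext t
      simp [cc]
    rw [e]
    have h2 : HasDerivAt (fun t : ℝ => z.re + t - w.re) 1 0 :=
      ((hasDerivAt_id (0 : ℝ)).const_add z.re).sub_const w.re
    have h3 := ((((h2.pow 2).add_const (z.im ^ 2)).add_const (w.im ^ 2)).div_const
      (2 * z.im * w.im))
    refine h3.congr_deriv ?_
    simp
    field_simp
  have h2 : HasDerivAt φ (deriv φ (cc (z, w))) ((fun t : ℝ => cc (z + t * 1, w)) 0) := by
    have := (hφ.smooth.differentiable (by simp) (cc (z, w))).hasDerivAt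
    simpa using this
  exact h2.comp (0 : ℝ) h1

theorem dirI_kk {φ : ℝ → ℝ} (hφ : Ker φ) {z w : ℂ} (hz : z ∈ UH) (hw : w ∈ UH) :
    dir Complex.I (kk φ) (z, w) = deriv φ (cc (z, w)) *
      ((z.im ^ 2 - (z.re - w.re) ^ 2 - w.im ^ 2) / (2 * z.im ^ 2 * w.im)) := by
  apply (kk_adm hφ).dir_eq hz hw
  have hz' : 0 < z.im := hz
  have hw' : 0 < w.im := hw
  have h1 : HasDerivAt (fun t : ℝ => cc (z + t * Complex.I, w))
      ((z.im ^ 2 - (z.re - w.re) ^ 2 - w.im ^ 2) / (2 * z.im ^ 2 * w.im)) 0 := by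
    have e : (fun t : ℝ => cc (z + t * Complex.I, w)) = fun t : ℝ =>
        ((z.re - w.re) ^ 2 + (z.im + t) ^ 2 + w.im ^ 2) / (2 * (z.im + t) * w.im) := by
      funext t
      simp [cc]
    rw [e]
    have h2 : HasDerivAt (fun t : ℝ => z.im + t) 1 0 := (hasDerivAt_id (0 : ℝ)).const_add z.im
    have h3 := ((((h2.pow 2).const_add ((z.re - w.re) ^ 2)).add_const (w.im ^ 2))).div
      ((h2.const_mul 2).mul_const w.im) (by simp; exact ⟨hz'.ne', hw'.ne'⟩)
    refine h3.congr_deriv ?_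
    simp
    field_simp
    ring
  have h2 : HasDerivAt φ (deriv φ (cc (z, w))) ((fun t : ℝ => cc (z + t * Complex.I, w)) 0) := by
    have := (hφ.smooth.differentiable (by simp) (cc (z, w))).hasDerivAt
    simpa using this
  exact h2.comp (0 : ℝ) h1

/-- derivative of an admissible kernel -/
theorem Ker.deriv {φ : ℝ → ℝ} (hφ : Ker φ) : Ker (deriv φ) where
  smooth := by
    have := hφ.smooth
    rw [show ((⊤ : ℕ∞) : WithTop ℕ∞) = (⊤ : ℕ∞) + 1 from rfl, contDiff_succ_iff_deriv] at this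
    exact this.2.2
  supp := by
    obtain ⟨R, hR0, hR⟩ := hφ.supp
    refine ⟨R, hR0, fun x hx => ?_⟩
    have : φ =ᶠ[nhds x] fun _ => 0 := by
      filter_upwards [isOpen_Ioi.mem_nhds hx] with y hy
      exact hR y hy
    rw [this.deriv_eq]
    simp

/-- the radial part of the Laplacian -/
def DD (φ : ℝ → ℝ) (c : ℝ) : ℝ := (c ^ 2 - 1) * deriv (deriv φ) c + 2 * c * deriv φ c

theorem DD_ker {φ : ℝ → ℝ} (hφ : Ker φ) : Ker (DD φ) where
  smooth := ((((contDiff_id.pow 2).sub contDiff_const).mul hφ.deriv.deriv.smooth)).add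
    ((contDiff_const.mul contDiff_id).mul hφ.deriv.smooth)
  supp := by
    obtain ⟨R, hR0, hR⟩ := hφ.deriv.supp
    obtain ⟨S, hS0, hS⟩ := hφ.deriv.deriv.supp
    refine ⟨max R S, by positivity, fun x hx => ?_⟩
    unfold DD
    rw [hR x ((le_max_left _ _).trans_lt hx), hS x ((le_max_right _ _).trans_lt hx)]
    simp

theorem Adm.dir2_eq {G : ℂ × ℂ → ℝ} (h : Adm G) {z w e : ℂ} (hz : z ∈ UH) (hw : w ∈ UH)
    {H : ℂ → ℝ} (hH : ∀ z ∈ UH, Pool.Agent.K4H20.OM.dir e G (z, w) = H z) {d : ℝ}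
    (hd : HasDerivAt (fun t : ℝ => H (z + t * e)) d 0) :
    Pool.Agent.K4H20.OM.dir e (Pool.Agent.K4H20.OM.dir e G) (z, w) = d := by
  apply (h.dir e).dir_eq hz hw
  apply hd.congr_of_eventuallyEq
  have hc : Continuous fun t : ℝ => z + t * e := by fun_prop
  have : ∀ᶠ t : ℝ in nhds 0, z + t * e ∈ UH :=
    hc.continuousAt.eventually_mem (isOpen_UH.mem_nhds (by simpa using hz))
  filter_upwards [this] with t ht
  exact hH _ ht

theorem cc_deriv1 {z w : ℂ} (hz : z ∈ UH) (hw : w ∈ UH) :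
    HasDerivAt (fun t : ℝ => cc (z + t * 1, w)) ((z.re - w.re) / (z.im * w.im)) 0 := by
  have hz' : 0 < z.im := hz
  have hw' : 0 < w.im := hw
  have e : (fun t : ℝ => cc (z + t * 1, w)) = fun t : ℝ =>
      ((z.re + t - w.re) ^ 2 + z.im ^ 2 + w.im ^ 2) / (2 * z.im * w.im) := by
    funext t
    simp [cc]
  rw [e]
  have h2 : HasDerivAt (fun t : ℝ => z.re + t - w.re) 1 0 :=
    ((hasDerivAt_id (0 : ℝ)).const_add z.re).sub_const w.re
  have h3 := ((((h2.pow 2).add_const (z.im ^ 2)).add_const (w.im ^ 2)).div_const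
    (2 * z.im * w.im))
  refine h3.congr_deriv ?_
  simp
  field_simp

theorem cc_derivI {z w : ℂ} (hz : z ∈ UH) (hw : w ∈ UH) :
    HasDerivAt (fun t : ℝ => cc (z + t * Complex.I, w))
      ((z.im ^ 2 - (z.re - w.re) ^ 2 - w.im ^ 2) / (2 * z.im ^ 2 * w.im)) 0 := by
  have hz' : 0 < z.im := hz
  have hw' : 0 < w.im := hw
  have e : (fun t : ℝ => cc (z + t * Complex.I, w)) = fun t : ℝ =>
      ((z.re - w.re) ^ 2 + (z.im + t) ^ 2 + w.im ^ 2) / (2 * (z.im + t) * w.im) := by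
    funext t
    simp [cc]
  rw [e]
  have h2 : HasDerivAt (fun t : ℝ => z.im + t) 1 0 := (hasDerivAt_id (0 : ℝ)).const_add z.im
  have h3 := ((((h2.pow 2).const_add ((z.re - w.re) ^ 2)).add_const (w.im ^ 2))).div
    ((h2.const_mul 2).mul_const w.im) (by simp; exact ⟨hz'.ne', hw'.ne'⟩)
  refine h3.congr_deriv ?_
  simp
  field_simp
  ring

theorem dir11_kk {φ : ℝ → ℝ} (hφ : Ker φ) {z w : ℂ} (hz : z ∈ UH) (hw : w ∈ UH) :
    dir 1 (dir 1 (kk φ)) (z, w) = deriv (deriv φ) (cc (z, w)) * ((z.re - w.re) / (z.im * w.im)) ^ 2 +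
      deriv φ (cc (z, w)) * (1 / (z.im * w.im)) := by
  have hz' : 0 < z.im := hz
  have hw' : 0 < w.im := hw
  apply (kk_adm hφ).dir2_eq hz hw (fun z hz => dir1_kk hφ hz hw)
  have h1 := cc_deriv1 hz hw
  have h2 : HasDerivAt (deriv φ) (deriv (deriv φ) (cc (z, w)))
      ((fun t : ℝ => cc (z + t * 1, w)) 0) := by
    have := (hφ.deriv.smooth.differentiable (by simp) (cc (z, w))).hasDerivAt
    simpa using this
  have h3 := h2.comp (0 : ℝ) h1
  have h4 : HasDerivAt (fun t : ℝ => ((z + t * 1).re - w.re) / ((z + t * 1).im * w.im))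
      (1 / (z.im * w.im)) 0 := by
    have h5 : HasDerivAt (fun t : ℝ => (z.re + t - w.re) / (z.im * w.im)) (1 / (z.im * w.im)) 0 :=
      (((hasDerivAt_id (0 : ℝ)).const_add z.re).sub_const w.re).div_const _
    simpa using h5
  refine (h3.mul h4).congr_deriv ?_
  simp
  ring

theorem dirII_kk {φ : ℝ → ℝ} (hφ : Ker φ) {z w : ℂ} (hz : z ∈ UH) (hw : w ∈ UH) :
    dir Complex.I (dir Complex.I (kk φ)) (z, w) = deriv (deriv φ) (cc (z, w)) *
      ((z.im ^ 2 - (z.re - w.re) ^ 2 - w.im ^ 2) / (2 * z.im ^ 2 * w.im)) ^ 2 +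
      deriv φ (cc (z, w)) * (((z.re - w.re) ^ 2 + w.im ^ 2) / (z.im ^ 3 * w.im)) := by
  have hz' : 0 < z.im := hz
  have hw' : 0 < w.im := hw
  apply (kk_adm hφ).dir2_eq hz hw (fun z hz => dirI_kk hφ hz hw)
  have h1 := cc_derivI hz hw
  have h2 : HasDerivAt (deriv φ) (deriv (deriv φ) (cc (z, w)))
      ((fun t : ℝ => cc (z + t * Complex.I, w)) 0) := by
    have := (hφ.deriv.smooth.differentiable (by simp) (cc (z, w))).hasDerivAt
    simpa using this
  have h3 := h2.comp (0 : ℝ) h1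
  have h4 : HasDerivAt (fun t : ℝ => ((z + t * Complex.I).im ^ 2 -
      ((z + t * Complex.I).re - w.re) ^ 2 - w.im ^ 2) / (2 * (z + t * Complex.I).im ^ 2 * w.im))
      (((z.re - w.re) ^ 2 + w.im ^ 2) / (z.im ^ 3 * w.im)) 0 := by
    have e : (fun t : ℝ => ((z + t * Complex.I).im ^ 2 -
      ((z + t * Complex.I).re - w.re) ^ 2 - w.im ^ 2) / (2 * (z + t * Complex.I).im ^ 2 * w.im)) =
      fun t : ℝ => ((z.im + t) ^ 2 - (z.re - w.re) ^ 2 - w.im ^ 2) / (2 * (z.im + t) ^ 2 * w.im) := by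
      funext t
      simp
    rw [e]
    have h5 : HasDerivAt (fun t : ℝ => z.im + t) 1 0 := (hasDerivAt_id (0 : ℝ)).const_add z.im
    have h6 := (((h5.pow 2).sub_const ((z.re - w.re) ^ 2)).sub_const (w.im ^ 2)).div
      (((h5.pow 2).const_mul 2).mul_const w.im) (by simp; exact ⟨hz'.ne', hw'.ne'⟩)
    refine h6.congr_deriv ?_
    simp
    field_simp
    ring
  refine (h3.mul h4).congr_deriv ?_
  simp
  ring

theorem lap_kk {φ : ℝ → ℝ} (hφ : Ker φ) {z w : ℂ} (hz : z ∈ UH) (hw : w ∈ UH) :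
    z.im ^ 2 * (dir 1 (dir 1 (kk φ)) (z, w) + dir Complex.I (dir Complex.I (kk φ)) (z, w)) =
      kk (DD φ) (z, w) := by
  have hz' : 0 < z.im := hz
  have hw' : 0 < w.im := hw
  rw [dir11_kk hφ hz hw, dirII_kk hφ hz hw]
  unfold kk DD
  have e : cc (z, w) = ((z.re - w.re) ^ 2 + z.im ^ 2 + w.im ^ 2) / (2 * z.im * w.im) := rfl
  have h1 : z.im ^ 2 * (((z.re - w.re) / (z.im * w.im)) ^ 2 +
      ((z.im ^ 2 - (z.re - w.re) ^ 2 - w.im ^ 2) / (2 * z.im ^ 2 * w.im)) ^ 2) =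
      cc (z, w) ^ 2 - 1 := by
    rw [e]
    field_simp
    ring
  have h2 : z.im ^ 2 * (1 / (z.im * w.im) + ((z.re - w.re) ^ 2 + w.im ^ 2) / (z.im ^ 3 * w.im)) =
      2 * cc (z, w) := by
    rw [e]
    field_simp
    ring
  rw [← h1, ← h2]
  ring

/-- the Laplacian under the integral sign -/
theorem laplacian_FG {G : ℂ × ℂ → ℝ} (h : Adm G) {f : ℍ → ℂ} (hf : Continuous f) {z : ℂ}
    (hz : z ∈ UH) : Δ (FG f G) z = FG f (dir 1 (dir 1 G)) z +
      FG f (dir Complex.I (dir Complex.I G)) z := by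
  rw [InnerProductSpace.laplacian_eq_iteratedFDeriv_complexPlane]
  simp only [iteratedFDeriv_two_apply]
  have h1 : fderiv ℝ (FG f G) =ᶠ[nhds z] fun z => Complex.reCLM.smulRight (FG f (dir 1 G) z) +
      Complex.imCLM.smulRight (FG f (dir Complex.I G) z) := by
    filter_upwards [isOpen_UH.mem_nhds hz] with z hz
    exact (FG_hasFDerivAt h hf hz).fderiv
  have h2 := (ContinuousLinearMap.smulRightL ℝ ℂ ℂ Complex.reCLM).hasFDerivAt.comp z
    (FG_hasFDerivAt (h.dir 1) hf hz)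
  have h3 := (ContinuousLinearMap.smulRightL ℝ ℂ ℂ Complex.imCLM).hasFDerivAt.comp z
    (FG_hasFDerivAt (h.dir Complex.I) hf hz)
  have h4 := (h2.add h3).congr_of_eventuallyEq h1
  rw [h4.fderiv]
  simp

theorem FG_laplace {φ : ℝ → ℝ} (hφ : Ker φ) {f : ℍ → ℂ} (hf : Continuous f) (z : ℍ) :
    ((z.im : ℂ)) ^ 2 * Δ (FG f (kk φ)) z = L (DD φ) f z := by
  rw [laplacian_FG (kk_adm hφ) hf (coe_mem z), ← FG_coe]
  unfold FG
  rw [← integral_add (((kk_adm hφ).dir 1).dir 1 |>.integrable hf (coe_mem z))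
    (((kk_adm hφ).dir Complex.I).dir Complex.I |>.integrable hf (coe_mem z)),
    ← integral_const_mul]
  congr 1
  ext w
  rw [← lap_kk hφ (coe_mem z) (coe_mem w)]
  push_cast
  rw [coe_im]
  ring

end

end Pool.Agent.K4H20.OM
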