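import Pool.Agent.K4H20.OM.G2

set_option autoImplicit false

/-! Eigenfunctions of the integral operators are smooth eigenfunctions of the Laplacian. -/

namespace Pool.Agent.K4H20.OM

open UpperHalfPlane MeasureTheory
open scoped MatrixGroups BoundedContinuousFunction Laplacian

noncomputable section

/-- a function on the upper half-plane as a function of a complex variable -/
def ext (u : ℍ → ℂ) : ℂ → ℂ := fun z => u (ofComplex z)

theorem ext_coe (u : ℍ → ℂ) (z : ℍ) : ext u z = u z := by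
  unfold ext
  rw [ofComplex_apply]

theorem eigen_eq {φ : ℝ → ℝ} {u : ℍ → ℂ} {μ : ℂ} (hμ : μ ≠ 0) (h : ∀ z, L φ u z = μ * u z) {z : ℂ}
    (hz : z ∈ UH) : ext u z = μ⁻¹ * FG u (kk φ) z := by
  have e : z = ((⟨z, hz⟩ : ℍ) : ℂ) := rfl
  rw [e, ext_coe, FG_coe, h, inv_mul_cancel_left₀ hμ]

theorem eigen_smooth {φ : ℝ → ℝ} (hφ : Ker φ) {u : ℍ → ℂ} (hu : Continuous u) {μ : ℂ}
    (hμ : μ ≠ 0) (h : ∀ z, L φ u z = μ * u z) : ContDiffOn ℝ (⊤ : ℕ∞) (ext u) UH := by
  have h1 : ContDiffOn ℝ (⊤ : ℕ∞) (fun z => μ⁻¹ * FG u (kk φ) z) UH := by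
    refine contDiffOn_const.mul ?_
    rw [contDiffOn_infty]
    exact fun n => FG_contDiffOn hu n (kk_adm hφ)
  exact h1.congr fun z hz => eigen_eq hμ h hz

theorem eigen_lap {φ : ℝ → ℝ} (hφ : Ker φ) {u : ℍ → ℂ} (hu : Continuous u) {μ μ' : ℂ}
    (hμ : μ ≠ 0) (h : ∀ z, L φ u z = μ * u z) (h' : ∀ z, L (DD φ) u z = μ' * u z) (z : ℍ) :
    (z.im : ℂ) ^ 2 * Δ (ext u) z = μ' / μ * u z := by
  have h1 : ext u =ᶠ[nhds (z : ℂ)] μ⁻¹ • FG u (kk φ) := by
    filter_upwards [isOpen_UH.mem_nhds (coe_mem z)] with w hw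
    exact eigen_eq hμ h hw
  have h2 := (InnerProductSpace.laplacian_congr_nhds h1).eq_of_nhds
  have h4 : Δ (μ⁻¹ • FG u (kk φ)) (z : ℂ) = μ⁻¹ * Δ (FG u (kk φ)) z := by
    rw [laplacian_FG (kk_adm hφ) hu (coe_mem z)]
    have h5 : μ⁻¹ • FG u (kk φ) = FG (fun w => μ⁻¹ * u w) (kk φ) := by
      funext w
      simp only [Pi.smul_apply, FG, smul_eq_mul]
      rw [← integral_const_mul]
      congr 1
      funext v
      ring
    have hc : Continuous fun w => μ⁻¹ * u w := continuous_const.mul hu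
    rw [h5, laplacian_FG (kk_adm hφ) hc (coe_mem z)]
    unfold FG
    rw [mul_add, ← integral_const_mul, ← integral_const_mul]
    congr 2 <;>
    · funext v
      ring
  rw [h2, h4, mul_left_comm, FG_laplace hφ hu, h']
  field_simp

end

end Pool.Agent.K4H20.OM
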