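import Mathlib

set_option autoImplicit false

/-! The Bessel function `K` of complex order. -/

namespace Pool.Agent.K4H20.OM

open MeasureTheory

noncomputable section

theorem cosh_ge (r : ℝ) : 1 + r ^ 2 / 4 ≤ Real.cosh r := by
  have key : ∀ x : ℝ, 0 ≤ x → 1 + x ^ 2 / 4 ≤ Real.cosh x := by
    intro x hx
    have h3 := Real.add_one_le_exp (-x)
    have h4 := Real.quadratic_le_exp_of_nonneg hx
    rw [Real.cosh_eq]
    linarith
  have := key |r| (abs_nonneg r)
  rwa [sq_abs, Real.cosh_abs] at this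

theorem cosh_le_exp_abs (r : ℝ) : Real.cosh r ≤ Real.exp |r| := by
  rw [← Real.cosh_abs, Real.cosh_eq]
  have : Real.exp (-|r|) ≤ Real.exp |r| := Real.exp_le_exp.2 (by linarith [abs_nonneg r])
  linarith

/-- the integrand -/
def Ek (k : ℕ) (ν : ℂ) (y : ℝ) (r : ℝ) : ℂ :=
  (Real.cosh r : ℂ) ^ k * Complex.exp (-(y : ℂ) * Real.cosh r + ν * r)

/-- the integrals -/
def KK (k : ℕ) (ν : ℂ) (y : ℝ) : ℂ := ∫ r : ℝ, Ek k ν y r

/-- the dominating function -/
def Dk (k : ℕ) (b y : ℝ) (r : ℝ) : ℝ :=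
  Real.exp ((k + b) * |r|) * Real.exp (-y * Real.cosh r)

theorem Ek_cont (k : ℕ) (ν : ℂ) (y : ℝ) : Continuous (Ek k ν y) := by
  unfold Ek
  fun_prop

theorem Dk_cont (k : ℕ) (b y : ℝ) : Continuous (Dk k b y) := by
  unfold Dk
  fun_prop

theorem Dk_integrable (k : ℕ) (b : ℝ) {y : ℝ} (hy : 0 < y) : Integrable (Dk k b y) := by
  have h1 : Integrable fun r : ℝ => Real.exp (2 * (k + b) ^ 2 / y) * Real.exp (-(y / 8) * r ^ 2) :=
    (integrable_exp_neg_mul_sq (by positivity)).const_mul _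
  refine h1.mono' (Dk_cont k b y).aestronglyMeasurable (Filter.Eventually.of_forall fun r => ?_)
  rw [Real.norm_eq_abs, abs_of_nonneg (by unfold Dk; positivity)]
  unfold Dk
  rw [← Real.exp_add, ← Real.exp_add]
  apply Real.exp_le_exp.2
  have h2 := cosh_ge r
  have h3 : (k + b) * |r| ≤ 2 * (k + b) ^ 2 / y + y / 8 * r ^ 2 := by
    have h4 : 0 ≤ (4 * (k + b) - y * |r|) ^ 2 / (8 * y) := by positivity
    have h5 : (4 * (k + b) - y * |r|) ^ 2 / (8 * y) =
        2 * (k + b) ^ 2 / y + y / 8 * |r| ^ 2 - (k + b) * |r| := by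
      field_simp
      ring
    rw [h5, sq_abs] at h4
    linarith
  nlinarith

theorem Ek_norm_le (k : ℕ) (ν : ℂ) {y₀ y : ℝ} (hy : y₀ ≤ y) (r : ℝ) :
    ‖Ek k ν y r‖ ≤ Dk k |ν.re| y₀ r := by
  unfold Ek Dk
  rw [norm_mul, norm_pow, Complex.norm_real, Real.norm_eq_abs, abs_of_pos (Real.cosh_pos r),
    Complex.norm_exp]
  have h1 : (-(y : ℂ) * Real.cosh r + ν * r).re = -y * Real.cosh r + ν.re * r := by
    rw [← Complex.ofReal_neg, ← Complex.ofReal_mul]
    simp
  rw [h1, Real.exp_add, add_mul, Real.exp_add]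
  have h2 : Real.cosh r ^ k ≤ Real.exp (k * |r|) := by
    rw [Real.exp_nat_mul]
    exact pow_le_pow_left₀ (Real.cosh_pos r).le (cosh_le_exp_abs r) k
  have h3 : Real.exp (ν.re * r) ≤ Real.exp (|ν.re| * |r|) := by
    apply Real.exp_le_exp.2
    rw [← abs_mul]
    exact le_abs_self _
  have h4 : Real.exp (-y * Real.cosh r) ≤ Real.exp (-y₀ * Real.cosh r) := by
    apply Real.exp_le_exp.2
    nlinarith [Real.cosh_pos r]
  calc Real.cosh r ^ k * (Real.exp (-y * Real.cosh r) * Real.exp (ν.re * r))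
      ≤ Real.exp (k * |r|) * (Real.exp (-y₀ * Real.cosh r) * Real.exp (|ν.re| * |r|)) := by
        gcongr
    _ = _ := by ring

theorem Ek_integrable (k : ℕ) (ν : ℂ) {y : ℝ} (hy : 0 < y) : Integrable (Ek k ν y) :=
  (Dk_integrable k |ν.re| hy).mono' (Ek_cont k ν y).aestronglyMeasurable
    (Filter.Eventually.of_forall fun r => Ek_norm_le k ν le_rfl r)

theorem KK_hasDerivAt (k : ℕ) (ν : ℂ) {y : ℝ} (hy : 0 < y) :
    HasDerivAt (KK k ν) (-KK (k + 1) ν y) y := by
  have h := hasDerivAt_integral_of_dominated_loc_of_deriv_le (F := fun y r => Ek k ν y r)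
    (F' := fun y r => -Ek (k + 1) ν y r) (x₀ := y) (s := Set.Ioi (y / 2)) (μ := volume)
    (bound := Dk (k + 1) |ν.re| (y / 2)) (Ioi_mem_nhds (by linarith))
    (Filter.Eventually.of_forall fun y => (Ek_cont k ν y).aestronglyMeasurable)
    (Ek_integrable k ν hy) (Ek_cont (k + 1) ν y).neg.aestronglyMeasurable
    (Filter.Eventually.of_forall fun r x hx => by
      rw [norm_neg]
      have := Ek_norm_le (k + 1) ν (y₀ := y / 2) (y := x) (le_of_lt hx) r
      exact_mod_cast this)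
    (by exact_mod_cast Dk_integrable (k + 1) |ν.re| (y := y / 2) (by linarith))
    (Filter.Eventually.of_forall fun r x hx => by
      unfold Ek
      have h1 : HasDerivAt (fun y : ℝ => -(y : ℂ) * Real.cosh r + ν * r) (-1 * Real.cosh r) x :=
        ((Complex.ofRealCLM.hasDerivAt.neg).mul_const _).add_const _
      have h2 := (h1.cexp).const_mul ((Real.cosh r : ℂ) ^ k)
      refine h2.congr_deriv ?_
      ring)
  have h2 := h.2
  rw [integral_neg] at h2
  exact h2

theorem KK_ode (ν : ℂ) {y : ℝ} (hy : 0 < y) :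
    (y : ℂ) ^ 2 * KK 2 ν y - y * KK 1 ν y - ((y : ℂ) ^ 2 + ν ^ 2) * KK 0 ν y = 0 := by
  let f : ℝ → ℂ := fun r => (-(y : ℂ) * Real.sinh r - ν) *
    Complex.exp (-(y : ℂ) * Real.cosh r + ν * r)
  let f' : ℝ → ℂ := fun r => (y : ℂ) ^ 2 * Ek 2 ν y r - y * Ek 1 ν y r -
    ((y : ℂ) ^ 2 + ν ^ 2) * Ek 0 ν y r
  have hf' : Integrable f' := (((Ek_integrable 2 ν hy).const_mul _).sub
    ((Ek_integrable 1 ν hy).const_mul _)).sub ((Ek_integrable 0 ν hy).const_mul _)
  have hf : Integrable f := by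
    refine ((Dk_integrable 1 |ν.re| hy).const_mul (|y| + ‖ν‖)).mono'
      (by fun_prop) (Filter.Eventually.of_forall fun r => ?_)
    have h1 := Ek_norm_le 1 ν (le_refl y) r
    unfold Ek at h1
    rw [pow_one, norm_mul, Complex.norm_real, Real.norm_eq_abs, abs_of_pos (Real.cosh_pos r)] at h1
    change ‖(-(y : ℂ) * Real.sinh r - ν) * Complex.exp (-(y : ℂ) * Real.cosh r + ν * r)‖ ≤ _
    rw [norm_mul]
    have h2 : ‖-(y : ℂ) * Real.sinh r - ν‖ ≤ (|y| + ‖ν‖) * Real.cosh r := by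
      refine (norm_sub_le _ _).trans ?_
      rw [norm_mul, norm_neg, Complex.norm_real, Complex.norm_real, Real.norm_eq_abs,
        Real.norm_eq_abs, add_mul]
      have h3 : |Real.sinh r| ≤ Real.cosh r := by
        rw [abs_le]
        constructor
        · have := Real.exp_pos r
          rw [Real.sinh_eq, Real.cosh_eq]
          linarith
        · exact (Real.sinh_lt_cosh r).le
      have h4 : 1 ≤ Real.cosh r := Real.one_le_cosh r
      have h5 := norm_nonneg ν
      have h6 := abs_nonneg y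
      nlinarith
    have h7 := norm_nonneg (Complex.exp (-(y : ℂ) * Real.cosh r + ν * r))
    have h8 : 0 ≤ |y| + ‖ν‖ := by positivity
    calc _ ≤ (|y| + ‖ν‖) * Real.cosh r * ‖Complex.exp (-(y : ℂ) * Real.cosh r + ν * r)‖ :=
          mul_le_mul_of_nonneg_right h2 h7
      _ = (|y| + ‖ν‖) * (Real.cosh r * ‖Complex.exp (-(y : ℂ) * Real.cosh r + ν * r)‖) := by ring
      _ ≤ _ := mul_le_mul_of_nonneg_left h1 h8
  have hd : ∀ r, HasDerivAt f (f' r) r := by
    intro r
    have h1 : HasDerivAt (fun r : ℝ => -(y : ℂ) * (Real.sinh r : ℂ) - ν)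
        (-(y : ℂ) * Real.cosh r) r :=
      ((Real.hasDerivAt_sinh r).ofReal_comp.const_mul _).sub_const _
    have h2 : HasDerivAt (fun r : ℝ => -(y : ℂ) * (Real.cosh r : ℂ) + ν * (r : ℂ))
        (-(y : ℂ) * Real.sinh r + ν * 1) r :=
      ((Real.hasDerivAt_cosh r).ofReal_comp.const_mul _).add
        ((hasDerivAt_id r).ofReal_comp.const_mul ν)
    refine (h1.mul h2.cexp).congr_deriv ?_
    have h3 : (Real.sinh r : ℂ) ^ 2 = (Real.cosh r : ℂ) ^ 2 - 1 := by
      have := Real.sinh_sq r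
      exact_mod_cast this
    simp only [f', Ek]
    linear_combination ((y : ℂ) ^ 2 * Complex.exp (-(y : ℂ) * Real.cosh r + ν * r)) * h3
  have h := integral_eq_zero_of_hasDerivAt_of_integrable hd hf' hf
  have h2 : ∫ r, f' r = (y : ℂ) ^ 2 * KK 2 ν y - y * KK 1 ν y -
      ((y : ℂ) ^ 2 + ν ^ 2) * KK 0 ν y := by
    simp only [f', KK]
    rw [integral_sub, integral_sub, integral_const_mul, integral_const_mul, integral_const_mul]
    · exact (Ek_integrable 2 ν hy).const_mul _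
    · exact (Ek_integrable 1 ν hy).const_mul _
    · exact ((Ek_integrable 2 ν hy).const_mul _).sub ((Ek_integrable 1 ν hy).const_mul _)
    · exact (Ek_integrable 0 ν hy).const_mul _
  rw [← h2, h]

/-- exponential decay -/
theorem KK_decay (k : ℕ) (ν : ℂ) : ∃ C : ℝ, 0 ≤ C ∧ ∀ y : ℝ, 1 ≤ y →
    ‖KK k ν y‖ ≤ C * Real.exp (-y) := by
  refine ⟨Real.exp 1 * ∫ r, Dk k |ν.re| 1 r, ?_, fun y hy => ?_⟩
  · refine mul_nonneg (Real.exp_pos 1).le (integral_nonneg fun r => ?_)
    unfold Dk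
    positivity
  · have h1 : ‖KK k ν y‖ ≤ ∫ r, Real.exp (1 - y) * Dk k |ν.re| 1 r := by
      refine norm_integral_le_of_norm_le ((Dk_integrable k |ν.re| one_pos).const_mul _)
        (Filter.Eventually.of_forall fun r => ?_)
      refine (Ek_norm_le k ν (le_refl y) r).trans ?_
      unfold Dk
      have h2 : Real.exp (-y * Real.cosh r) ≤ Real.exp (1 - y) * Real.exp (-1 * Real.cosh r) := by
        rw [← Real.exp_add]
        apply Real.exp_le_exp.2
        nlinarith [Real.one_le_cosh r]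
      calc _ ≤ Real.exp ((k + |ν.re|) * |r|) *
            (Real.exp (1 - y) * Real.exp (-1 * Real.cosh r)) :=
            mul_le_mul_of_nonneg_left h2 (Real.exp_pos _).le
        _ = _ := by ring
    rw [integral_const_mul, show (1 : ℝ) - y = 1 + -y by ring, Real.exp_add] at h1
    calc _ ≤ _ := h1
      _ = _ := by ring

end

end Pool.Agent.K4H20.OM
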