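import Pool.Agent.K4H20.OM.H1

set_option autoImplicit false

/-! The Mellin transform of the Bessel function. -/

namespace Pool.Agent.K4H20.OM

open MeasureTheory Set

noncomputable section

theorem exp_aux (u : ℝ) (s : ℂ) (f : ℝ → ℂ) :
    |Real.exp u| • (((Real.exp u : ℝ) : ℂ) ^ (s - 1) • f (Real.exp u)) =
      Complex.exp (s * u) * f (Real.exp u) := by
  rw [abs_of_pos (Real.exp_pos u), smul_eq_mul, Complex.real_smul, ← mul_assoc]
  congr 1
  have h0 : ((Real.exp u : ℝ) : ℂ) ≠ 0 := by exact_mod_cast (Real.exp_pos u).ne'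
  have h1 : ((Real.exp u : ℝ) : ℂ) * ((Real.exp u : ℝ) : ℂ) ^ (s - 1) =
      ((Real.exp u : ℝ) : ℂ) ^ s := by
    rw [Complex.cpow_sub _ _ h0, Complex.cpow_one, mul_div_cancel₀ _ h0]
  rw [h1, Complex.cpow_def_of_ne_zero h0, ← Complex.ofReal_log (Real.exp_pos u).le, Real.log_exp,
    mul_comm]

theorem image_exp : Real.exp '' univ = Ioi 0 := by
  rw [Set.image_univ, Real.range_exp]

theorem mellin_exp (f : ℝ → ℂ) (s : ℂ) :
    mellin f s = ∫ u : ℝ, Complex.exp (s * u) * f (Real.exp u) := by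
  rw [mellin, ← image_exp, integral_image_eq_integral_abs_deriv_smul MeasurableSet.univ
    (fun x _ => (Real.hasDerivAt_exp x).hasDerivWithinAt) Real.exp_injective.injOn]
  simp only [exp_aux, Measure.restrict_univ]

theorem mellinConvergent_exp (f : ℝ → ℂ) (s : ℂ) :
    MellinConvergent f s ↔ Integrable fun u : ℝ => Complex.exp (s * u) * f (Real.exp u) := by
  rw [MellinConvergent, ← image_exp, integrableOn_image_iff_integrableOn_abs_deriv_smul
    MeasurableSet.univ (fun x _ => (Real.hasDerivAt_exp x).hasDerivWithinAt)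
    Real.exp_injective.injOn, integrableOn_univ]
  simp only [exp_aux]

/-- the Gamma integrand in logarithmic coordinates -/
def gI (α : ℂ) (p : ℝ) : ℂ := Complex.exp (α * p) * Real.exp (-Real.exp p)

theorem gI_integrable {α : ℂ} (hα : 0 < α.re) : Integrable (gI α) := by
  have h1 : MellinConvergent (fun x : ℝ => ((Real.exp (-x) : ℝ) : ℂ)) α := by
    have := Complex.GammaIntegral_convergent hα
    rw [MellinConvergent]
    refine this.congr_fun (fun x _ => ?_) measurableSet_Ioi
    simp only [smul_eq_mul]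
    rw [mul_comm]
  exact (mellinConvergent_exp _ _).1 h1

theorem gI_integral {α : ℂ} (hα : 0 < α.re) : ∫ p, gI α p = Complex.Gamma α := by
  have h1 := mellin_exp (fun x : ℝ => ((Real.exp (-x) : ℝ) : ℂ)) α
  rw [Complex.Gamma_eq_integral hα, Complex.GammaIntegral_eq_mellin, h1]
  rfl

open scoped Convolution

theorem conv_eq (α β : ℂ) (X : ℝ) :
    (convolution (gI α) (gI β) (ContinuousLinearMap.mul ℂ ℂ) volume) (2 * X) =
      Complex.exp ((α + β) * X) * KK 0 (α - β) (2 * Real.exp X) := by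
  rw [convolution]
  simp only [ContinuousLinearMap.mul_apply']
  rw [← integral_add_left_eq_self (fun t : ℝ => gI α t * gI β (2 * X - t)) X, KK,
    ← integral_const_mul]
  congr 1
  funext r
  unfold gI Ek
  rw [pow_zero, one_mul]
  have e1 : 2 * X - (X + r) = X - r := by ring
  rw [e1]
  have h1 : Real.exp (X + r) + Real.exp (X - r) = 2 * Real.exp X * Real.cosh r := by
    rw [Real.cosh_eq, Real.exp_add, sub_eq_add_neg, Real.exp_add]
    ring
  have h2 : ((Real.exp (X + r) : ℝ) : ℂ) + ((Real.exp (X - r) : ℝ) : ℂ) =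
      2 * ((Real.exp X : ℝ) : ℂ) * ((Real.cosh r : ℝ) : ℂ) := by exact_mod_cast congrArg (fun x : ℝ => (x : ℂ)) h1
  rw [Complex.ofReal_exp (-Real.exp (X + r)), Complex.ofReal_exp (-Real.exp (X - r)),
    ← Complex.exp_add, ← Complex.exp_add, ← Complex.exp_add, ← Complex.exp_add]
  congr 1
  push_cast at h2 ⊢
  linear_combination -h2

theorem KK_mellin_aux {α β : ℂ} (hα : 0 < α.re) (hβ : 0 < β.re) :
    (Integrable fun X : ℝ => Complex.exp ((α + β) * X) * KK 0 (α - β) (2 * Real.exp X)) ∧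
    2 * ∫ X : ℝ, Complex.exp ((α + β) * X) * KK 0 (α - β) (2 * Real.exp X) =
      Complex.Gamma α * Complex.Gamma β := by
  have hI := (gI_integrable hα).integrable_convolution (ContinuousLinearMap.mul ℂ ℂ)
    (gI_integrable hβ)
  have hi := integral_convolution (ContinuousLinearMap.mul ℂ ℂ) (gI_integrable hα)
    (gI_integrable hβ)
  constructor
  · have := hI.comp_mul_left' (two_ne_zero (α := ℝ))
    refine this.congr (Filter.Eventually.of_forall fun X => ?_)
    exact conv_eq α β X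
  · have h1 := Measure.integral_comp_mul_left
      (convolution (gI α) (gI β) (ContinuousLinearMap.mul ℂ ℂ) volume) (2 : ℝ)
    simp only [conv_eq] at h1
    rw [h1, hi, gI_integral hα, gI_integral hβ]
    simp

theorem KK_mellin {s ν : ℂ} (h : |ν.re| < s.re) :
    MellinConvergent (KK 0 ν) s ∧
    mellin (KK 0 ν) s = 2 ^ (s - 1) * (Complex.Gamma ((s + ν) / 2) * Complex.Gamma ((s - ν) / 2)) := by
  rw [abs_lt] at h
  have hα : 0 < ((s + ν) / 2).re := by simp; linarith
  have hβ : 0 < ((s - ν) / 2).re := by simp; linarith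
  obtain ⟨h1, h2⟩ := KK_mellin_aux hα hβ
  have e1 : (s + ν) / 2 + (s - ν) / 2 = s := by ring
  have e2 : (s + ν) / 2 - (s - ν) / 2 = ν := by ring
  rw [e1, e2] at h1 h2
  have key : ∀ u : ℝ, Complex.exp (s * u) * KK 0 ν (Real.exp u) =
      2 ^ s * (Complex.exp (s * (u - Real.log 2 : ℝ)) * KK 0 ν (2 * Real.exp (u - Real.log 2))) := by
    intro u
    have h3 : 2 * Real.exp (u - Real.log 2) = Real.exp u := by
      rw [Real.exp_sub, Real.exp_log two_pos]
      ring
    rw [h3, ← mul_assoc]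
    congr 1
    have h4 : Complex.log 2 = ((Real.log 2 : ℝ) : ℂ) := by
      rw [Complex.ofReal_log (by norm_num)]
      norm_num
    rw [Complex.cpow_def_of_ne_zero two_ne_zero, ← Complex.exp_add, h4]
    congr 1
    push_cast
    ring
  constructor
  · rw [mellinConvergent_exp]
    simp_rw [key]
    exact (h1.comp_sub_right (Real.log 2)).const_mul _
  · rw [mellin_exp]
    simp_rw [key]
    rw [integral_const_mul, integral_sub_right_eq_self (fun u : ℝ => Complex.exp (s * (u : ℝ)) *
      KK 0 ν (2 * Real.exp u)), ← h2, Complex.cpow_sub _ _ two_ne_zero, Complex.cpow_one]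
    ring

theorem KK_ne_zero (ν : ℂ) : ∃ y : ℝ, 0 < y ∧ KK 0 ν y ≠ 0 := by
  by_contra hcon
  push Not at hcon
  have h1 := (KK_mellin (s := ((|ν.re| + 1 : ℝ) : ℂ)) (ν := ν) (by simp)).2
  have h2 : mellin (KK 0 ν) ((|ν.re| + 1 : ℝ) : ℂ) = 0 := by
    rw [mellin]
    apply setIntegral_eq_zero_of_forall_eq_zero
    intro t ht
    rw [hcon t ht, smul_zero]
  rw [h2] at h1
  have h3 := abs_lt.1 (show |ν.re| < |ν.re| + 1 by linarith)
  have h4 : Complex.Gamma ((((|ν.re| + 1 : ℝ) : ℂ) + ν) / 2) ≠ 0 := by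
    apply Complex.Gamma_ne_zero_of_re_pos
    simp
    linarith
  have h5 : Complex.Gamma ((((|ν.re| + 1 : ℝ) : ℂ) - ν) / 2) ≠ 0 := by
    apply Complex.Gamma_ne_zero_of_re_pos
    simp
    linarith
  have h6 : (2 : ℂ) ^ (((|ν.re| + 1 : ℝ) : ℂ) - 1) ≠ 0 := by
    rw [Complex.cpow_def_of_ne_zero two_ne_zero]
    exact Complex.exp_ne_zero _
  exact mul_ne_zero h6 (mul_ne_zero h4 h5) h1.symm

end

end Pool.Agent.K4H20.OM
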