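import Pool.Agent.K4H20.OM.H2

set_option autoImplicit false

/-! Uniqueness of the bounded solution of the Whittaker equation. -/

namespace Pool.Agent.K4H20.OM

open MeasureTheory Set

noncomputable section

/-- the decaying solution -/
def kB (ν : ℂ) (y : ℝ) : ℂ := (Real.sqrt y : ℂ) * KK 0 ν (2 * Real.pi * y)

/-- its derivative -/
def kB1 (ν : ℂ) (y : ℝ) : ℂ := ((1 / (2 * Real.sqrt y) : ℝ) : ℂ) * KK 0 ν (2 * Real.pi * y) -
  2 * Real.pi * (Real.sqrt y : ℂ) * KK 1 ν (2 * Real.pi * y)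

theorem KK_comp_deriv (k : ℕ) (ν : ℂ) {y : ℝ} (hy : 0 < y) :
    HasDerivAt (fun y : ℝ => KK k ν (2 * Real.pi * y))
      (-(2 * Real.pi) * KK (k + 1) ν (2 * Real.pi * y)) y := by
  have hp := Real.pi_pos
  have h1 := KK_hasDerivAt k ν (y := 2 * Real.pi * y) (by positivity)
  have h2 : HasDerivAt (fun y : ℝ => 2 * Real.pi * y) (2 * Real.pi) y := by
    simpa using (hasDerivAt_id y).const_mul (2 * Real.pi)
  have h3 := h1.scomp y h2
  refine h3.congr_deriv ?_
  rw [Complex.real_smul]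
  push_cast
  ring

theorem sqrt_deriv {y : ℝ} (hy : 0 < y) :
    HasDerivAt (fun y : ℝ => ((Real.sqrt y : ℝ) : ℂ)) ((1 / (2 * Real.sqrt y) : ℝ) : ℂ) y :=
  (Real.hasDerivAt_sqrt hy.ne').ofReal_comp

theorem kB_deriv (ν : ℂ) {y : ℝ} (hy : 0 < y) : HasDerivAt (kB ν) (kB1 ν y) y := by
  refine ((sqrt_deriv hy).mul (KK_comp_deriv 0 ν hy)).congr_deriv ?_
  unfold kB1
  ring

theorem kB1_deriv (ν : ℂ) {y : ℝ} (hy : 0 < y) : HasDerivAt (kB1 ν)
    ((4 * Real.pi ^ 2 + (ν ^ 2 - 1 / 4) / (y : ℂ) ^ 2) * kB ν y) y := by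
  have hp := Real.pi_pos
  have hs : 0 < Real.sqrt y := Real.sqrt_pos.2 hy
  have h1 : HasDerivAt (fun y : ℝ => ((1 / (2 * Real.sqrt y) : ℝ) : ℂ))
      ((-(1 / (4 * y * Real.sqrt y)) : ℝ) : ℂ) y := by
    have h2 : HasDerivAt (fun y : ℝ => 1 / (2 * Real.sqrt y)) (-(1 / (4 * y * Real.sqrt y))) y := by
      have h3 := ((Real.hasDerivAt_sqrt hy.ne').const_mul 2).inv (by positivity)
      simp only [one_div]
      refine h3.congr_deriv ?_
      have h4 : Real.sqrt y ^ 2 = y := Real.sq_sqrt hy.le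
      field_simp
      rw [h4]
      ring
    exact h2.ofReal_comp
  have h2 := (h1.mul (KK_comp_deriv 0 ν hy)).sub
    (((sqrt_deriv hy).const_mul (2 * (Real.pi : ℂ))).mul (KK_comp_deriv 1 ν hy))
  refine h2.congr_deriv ?_
  have h3 := KK_ode ν (y := 2 * Real.pi * y) (by positivity)
  have hyc : (y : ℂ) ≠ 0 := by exact_mod_cast hy.ne'
  have hsc : (Real.sqrt y : ℂ) ≠ 0 := by exact_mod_cast hs.ne'
  have hpc : (Real.pi : ℂ) ≠ 0 := by exact_mod_cast hp.ne'
  have h4 : (Real.sqrt y : ℂ) ^ 2 = y := by exact_mod_cast Real.sq_sqrt hy.le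
  unfold kB
  simp only [zero_add, one_add_one_eq_two]
  generalize KK 0 ν (2 * Real.pi * y) = a at *
  generalize KK 1 ν (2 * Real.pi * y) = b at *
  generalize KK 2 ν (2 * Real.pi * y) = c at *
  push_cast at h3 ⊢
  set s : ℂ := (Real.sqrt y : ℂ) with hsdef
  rw [← h4] at h3 ⊢
  field_simp
  field_simp at h3
  linear_combination 4 * h3

theorem kB_decay (ν : ℂ) : ∃ C : ℝ, 0 ≤ C ∧ ∀ y : ℝ, 1 ≤ y →
    ‖kB ν y‖ ≤ C * (y * Real.exp (-y)) ∧ ‖kB1 ν y‖ ≤ C * (y * Real.exp (-y)) := by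
  obtain ⟨C0, hC0, h0⟩ := KK_decay 0 ν
  obtain ⟨C1, hC1, h1⟩ := KK_decay 1 ν
  have hp := Real.pi_pos
  have hp3 := Real.pi_gt_three
  refine ⟨C0 + 2 * Real.pi * C1, by positivity, fun y hy => ?_⟩
  have hy0 : 0 < y := by linarith
  have h2 : 1 ≤ 2 * Real.pi * y := by nlinarith
  have h3 := h0 _ h2
  have h4 := h1 _ h2
  have h5 : Real.exp (-(2 * Real.pi * y)) ≤ Real.exp (-y) := Real.exp_le_exp.2 (by nlinarith)
  have h6 : Real.sqrt y ≤ y := by
    rw [Real.sqrt_le_left hy0.le]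
    nlinarith
  have h7 : 1 ≤ Real.sqrt y := by
    rw [Real.one_le_sqrt]
    exact hy
  have h8 : 0 ≤ Real.exp (-y) := (Real.exp_pos _).le
  have h9 : ‖KK 0 ν (2 * Real.pi * y)‖ ≤ C0 * Real.exp (-y) :=
    h3.trans (mul_le_mul_of_nonneg_left h5 hC0)
  have h10 : ‖KK 1 ν (2 * Real.pi * y)‖ ≤ C1 * Real.exp (-y) :=
    h4.trans (mul_le_mul_of_nonneg_left h5 hC1)
  constructor
  · unfold kB
    rw [norm_mul, Complex.norm_real, Real.norm_eq_abs, abs_of_nonneg (Real.sqrt_nonneg _)]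
    calc _ ≤ y * (C0 * Real.exp (-y)) := mul_le_mul h6 h9 (norm_nonneg _) hy0.le
      _ ≤ _ := by
        have : 0 ≤ 2 * Real.pi * C1 * (y * Real.exp (-y)) := by positivity
        nlinarith
  · unfold kB1
    refine (norm_sub_le _ _).trans ?_
    rw [norm_mul, norm_mul, norm_mul, norm_mul, Complex.norm_real, Complex.norm_real,
      Complex.norm_real, Real.norm_eq_abs, Real.norm_eq_abs, Real.norm_eq_abs,
      abs_of_nonneg (Real.sqrt_nonneg _), abs_of_pos hp,
      abs_of_nonneg (show 0 ≤ 1 / (2 * Real.sqrt y) by positivity), Complex.norm_ofNat]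
    have h11 : 1 / (2 * Real.sqrt y) ≤ y := by
      rw [div_le_iff₀ (by positivity)]
      nlinarith
    calc _ ≤ y * (C0 * Real.exp (-y)) + 2 * Real.pi * y * (C1 * Real.exp (-y)) := by
          gcongr
      _ = _ := by ring

/-- the potential -/
def qpot (κ : ℂ) (y : ℝ) : ℂ := 4 * Real.pi ^ 2 + κ / (y : ℂ) ^ 2

theorem whit_unique {κ ν : ℂ} (hν : ν ^ 2 = κ + 1 / 4) {w w1 : ℝ → ℂ}
    (h1 : ∀ y, 0 < y → HasDerivAt w (w1 y) y)
    (h2 : ∀ y, 0 < y → HasDerivAt w1 (qpot κ y * w y) y) {B : ℝ} (hB : ∀ y, 0 < y → ‖w y‖ ≤ B) :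
    ∃ c : ℂ, ∀ y, 0 < y → w y = c * kB ν y := by
  have hp := Real.pi_pos
  have hk1 : ∀ y, 0 < y → HasDerivAt (kB ν) (kB1 ν y) y := fun y hy => kB_deriv ν hy
  have hk2 : ∀ y, 0 < y → HasDerivAt (kB1 ν) (qpot κ y * kB ν y) y := fun y hy => by
    have := kB1_deriv ν hy
    rw [hν] at this
    refine this.congr_deriv ?_
    unfold qpot
    ring
  -- the Wronskian
  let W : ℝ → ℂ := fun y => w y * kB1 ν y - w1 y * kB ν y
  have hW : ∀ y, 0 < y → HasDerivAt W 0 y := fun y hy => by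
    refine (((h1 y hy).mul (hk2 y hy)).sub ((h2 y hy).mul (hk1 y hy))).congr_deriv ?_
    ring
  have hWconst : ∀ x y, 0 < x → 0 < y → W x = W y := by
    intro x y hx hy
    exact isOpen_Ioi.is_const_of_deriv_eq_zero isPreconnected_Ioi
      (fun z hz => (hW z hz).differentiableAt.differentiableWithinAt)
      (fun z hz => (hW z hz).deriv) hx hy
  have hB0 : 0 ≤ B := (norm_nonneg _).trans (hB 1 one_pos)
  set A : ℝ := ‖w1 1‖ + (4 * Real.pi ^ 2 + ‖κ‖) * B with hA
  have hA0 : 0 ≤ A := by positivity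
  have hw1 : ∀ y, 1 ≤ y → ‖w1 y‖ ≤ A * y := by
    intro y hy
    have h3 : ∀ x ∈ Icc 1 y, HasDerivWithinAt w1 (qpot κ x * w x) (Icc 1 y) x := fun x hx =>
      (h2 x (by linarith [hx.1])).hasDerivWithinAt
    have h4 : ∀ x ∈ Ico 1 y, ‖qpot κ x * w x‖ ≤ (4 * Real.pi ^ 2 + ‖κ‖) * B := by
      intro x hx
      rw [norm_mul]
      refine mul_le_mul ?_ (hB x (by linarith [hx.1])) (norm_nonneg _) (by positivity)
      unfold qpot
      refine (norm_add_le _ _).trans (add_le_add ?_ ?_)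
      · rw [norm_mul, norm_pow, Complex.norm_real, Complex.norm_ofNat, Real.norm_eq_abs,
          abs_of_pos hp]
      · rw [norm_div, norm_pow, Complex.norm_real, Real.norm_eq_abs]
        apply div_le_self (norm_nonneg _)
        have : 1 ≤ |x| := hx.1.trans (le_abs_self _)
        nlinarith
    have h5 := norm_image_sub_le_of_norm_deriv_le_segment' h3 h4 y ⟨hy, le_rfl⟩
    have h6 : ‖w1 y‖ ≤ ‖w1 1‖ + ‖w1 y - w1 1‖ := by
      have := norm_add_le (w1 1) (w1 y - w1 1)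
      simpa using this
    have h7 : 0 ≤ (4 * Real.pi ^ 2 + ‖κ‖) * B := by positivity
    have h8 := norm_nonneg (w1 1)
    rw [hA]
    nlinarith
  obtain ⟨C, hC0, hC⟩ := kB_decay ν
  have hWle : ∀ y, 1 ≤ y → ‖W y‖ ≤ (A + B) * C * (y ^ 2 * Real.exp (-y)) := by
    intro y hy
    obtain ⟨h3, h4⟩ := hC y hy
    have h5 := hB y (by linarith)
    have h6 := hw1 y hy
    have h7 : 0 ≤ Real.exp (-y) := (Real.exp_pos _).le
    have hy0 : 0 ≤ y := by linarith
    refine (norm_sub_le _ _).trans ?_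
    rw [norm_mul, norm_mul]
    calc _ ≤ B * (C * (y * Real.exp (-y))) + A * y * (C * (y * Real.exp (-y))) := by
          gcongr
      _ ≤ _ := by
          have h8 : 0 ≤ B * C * (y * Real.exp (-y)) * (y - 1) :=
            mul_nonneg (by positivity) (by linarith)
          nlinarith
  have hW0 : ∀ y, 0 < y → W y = 0 := by
    intro y hy
    have hlim : Filter.Tendsto (fun t : ℝ => (A + B) * C * (t ^ 2 * Real.exp (-t)))
        Filter.atTop (nhds ((A + B) * C * 0)) :=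
      (Real.tendsto_pow_mul_exp_neg_atTop_nhds_zero 2).const_mul _
    rw [mul_zero] at hlim
    have h3 : ‖W y‖ ≤ 0 := by
      refine ge_of_tendsto hlim ?_
      filter_upwards [Filter.eventually_ge_atTop 1] with t ht
      rw [hWconst y t hy (by linarith)]
      exact hWle t ht
    exact norm_le_zero_iff.1 h3
  obtain ⟨y0, hy0, hK0⟩ := KK_ne_zero ν
  set y₁ := y0 / (2 * Real.pi) with hy₁
  have hy₁pos : 0 < y₁ := by positivity
  have hkne : kB ν y₁ ≠ 0 := by
    unfold kB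
    have e : 2 * Real.pi * y₁ = y0 := by rw [hy₁]; field_simp
    rw [e]
    refine mul_ne_zero ?_ hK0
    have := Real.sqrt_pos.2 hy₁pos
    exact_mod_cast this.ne'
  set c := w y₁ / kB ν y₁ with hc
  refine ⟨c, fun y hy => ?_⟩
  -- uniqueness on an interval
  let a : ℝ := min y y₁ / 2
  let b : ℝ := max y y₁ + 1
  have ha : 0 < a := by positivity
  let v : ℝ → ℂ × ℂ → ℂ × ℂ := fun t p => (p.2, qpot κ t * p.1)
  let Q : ℝ := 4 * Real.pi ^ 2 + ‖κ‖ / a ^ 2 + 1
  have hQ : 0 ≤ Q := by positivity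
  have hLip : ∀ t ∈ Ioo a b, LipschitzOnWith (⟨Q, hQ⟩ : NNReal) (v t) univ := by
    intro t ht
    rw [lipschitzOnWith_univ]
    refine LipschitzWith.of_dist_le_mul fun p q => ?_
    change dist (p.2, qpot κ t * p.1) (q.2, qpot κ t * q.1) ≤ Q * dist p q
    have h3 : ‖qpot κ t‖ ≤ Q - 1 := by
      change _ ≤ 4 * Real.pi ^ 2 + ‖κ‖ / a ^ 2 + 1 - 1
      rw [add_sub_cancel_right]
      unfold qpot
      refine (norm_add_le _ _).trans (add_le_add ?_ ?_)
      · rw [norm_mul, norm_pow, Complex.norm_real, Complex.norm_ofNat, Real.norm_eq_abs,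
          abs_of_pos hp]
      · rw [norm_div, norm_pow, Complex.norm_real, Real.norm_eq_abs]
        have h4 : a ≤ |t| := ht.1.le.trans (le_abs_self _)
        gcongr
    have h1Q : 1 ≤ Q := by
      change 1 ≤ 4 * Real.pi ^ 2 + ‖κ‖ / a ^ 2 + 1
      have : 0 ≤ 4 * Real.pi ^ 2 + ‖κ‖ / a ^ 2 := by positivity
      linarith
    rw [Prod.dist_eq]
    apply max_le
    · have h4 : dist p.2 q.2 ≤ dist p q := by rw [Prod.dist_eq]; exact le_max_right _ _
      have h5 : 0 ≤ dist p q := dist_nonneg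
      change dist p.2 q.2 ≤ _
      nlinarith
    · have h4 : dist p.1 q.1 ≤ dist p q := by rw [Prod.dist_eq]; exact le_max_left _ _
      have h5 : 0 ≤ dist p q := dist_nonneg
      change dist (qpot κ t * p.1) (qpot κ t * q.1) ≤ _
      rw [dist_eq_norm, ← mul_sub, norm_mul, ← dist_eq_norm]
      have h6 := norm_nonneg (qpot κ t)
      have h7 : 0 ≤ dist p.1 q.1 := dist_nonneg
      nlinarith
  have hmem : ∀ t ∈ Ioo a b, 0 < t := fun t ht => ha.trans ht.1
  have hy₁mem : y₁ ∈ Ioo a b := by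
    constructor
    · have := min_le_right y y₁
      change min y y₁ / 2 < y₁
      linarith
    · have := le_max_right y y₁
      change y₁ < max y y₁ + 1
      linarith
  have hymem : y ∈ Ioo a b := by
    constructor
    · have := min_le_left y y₁
      change min y y₁ / 2 < y
      linarith
    · have := le_max_left y y₁
      change y < max y y₁ + 1
      linarith
  have heq := ODE_solution_unique_of_mem_Ioo (v := v) (s := fun _ => univ)
    (f := fun t => (w t, w1 t)) (g := fun t => (c * kB ν t, c * kB1 ν t)) (t₀ := y₁) hLip hy₁mem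
    (fun t ht => ⟨(h1 t (hmem t ht)).prodMk (h2 t (hmem t ht)), trivial⟩)
    (fun t ht => ⟨by
      have := ((hk1 t (hmem t ht)).const_mul c).prodMk ((hk2 t (hmem t ht)).const_mul c)
      refine this.congr_deriv ?_
      change (c * kB1 ν t, c * (qpot κ t * kB ν t)) = (c * kB1 ν t, qpot κ t * (c * kB ν t))
      rw [mul_left_comm], trivial⟩)
    (by
      have h3 := hW0 y₁ hy₁pos
      have h4 : c * kB ν y₁ = w y₁ := by rw [hc, div_mul_cancel₀ _ hkne]
      have h5 : w1 y₁ = c * kB1 ν y₁ := by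
        have h6 : w y₁ * kB1 ν y₁ - w1 y₁ * kB ν y₁ = 0 := h3
        rw [← h4] at h6
        have h7 : (c * kB1 ν y₁ - w1 y₁) * kB ν y₁ = 0 := by linear_combination h6
        rcases mul_eq_zero.1 h7 with h8 | h8
        · exact (sub_eq_zero.1 h8).symm
        · exact absurd h8 hkne
      change (w y₁, w1 y₁) = (c * kB ν y₁, c * kB1 ν y₁)
      rw [h4, h5])
  exact congrArg Prod.fst (heq hymem)

end

end Pool.Agent.K4H20.OM
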