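import Pool.Agent.K4H20.OM.G3
import Pool.Agent.K4H20.OM.H3

set_option autoImplicit false

/-! Fourier coefficients of automorphic eigenfunctions. -/

namespace Pool.Agent.K4H20.OM

open UpperHalfPlane MeasureTheory
open scoped MatrixGroups BoundedContinuousFunction Laplacian

noncomputable section

/-- the additive character -/
def ee (x : ℝ) : ℂ := Complex.exp (2 * Real.pi * Complex.I * x)

theorem ee_add (x y : ℝ) : ee (x + y) = ee x * ee y := by
  unfold ee
  rw [← Complex.exp_add]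
  congr 1
  push_cast
  ring

theorem ee_int (n : ℤ) : ee n = 1 := by
  unfold ee
  have : (2 * (Real.pi : ℂ) * Complex.I * ((n : ℝ) : ℂ)) = n * (2 * Real.pi * Complex.I) := by
    push_cast
    ring
  rw [this, Complex.exp_int_mul_two_pi_mul_I]

theorem ee_zero : ee 0 = 1 := by
  unfold ee
  simp

theorem norm_ee (x : ℝ) : ‖ee x‖ = 1 := by
  unfold ee
  rw [Complex.norm_exp]
  simp

theorem ee_cont : Continuous ee := by
  unfold ee
  fun_prop

/-- the Fourier coefficients, as functions on the upper half-plane -/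
def fc (f : ℍ → ℂ) (n : ℤ) (z : ℍ) : ℂ := ∫ t in (0 : ℝ)..1, f (pt 1 t z) * ee (-(n * t))

theorem pt_cont2 : Continuous fun p : ℍ × ℝ => pt 1 p.2 p.1 := by
  rw [isOpenEmbedding_coe.isEmbedding.continuous_iff]
  have : (UpperHalfPlane.coe ∘ fun p : ℍ × ℝ => pt 1 p.2 p.1) = fun p : ℍ × ℝ => (p.1 : ℂ) + p.2 := by
    funext p
    simp only [Function.comp]
    rw [coe_pt one_pos]
    simp
  rw [this]
  fun_prop

theorem fc_cont {f : ℍ → ℂ} (hf : Continuous f) (n : ℤ) : Continuous (fc f n) := by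
  unfold fc
  apply intervalIntegral.continuous_parametric_intervalIntegral_of_continuous'
  have h1 : Continuous fun p : ℍ × ℝ => f (pt 1 p.2 p.1) := hf.comp pt_cont2
  have h2 : Continuous fun p : ℍ × ℝ => ee (-(n * p.2)) := ee_cont.comp (by fun_prop)
  exact h1.mul h2

theorem fc_bound {f : ℍ → ℂ} {B : ℝ} (hB : ∀ z, ‖f z‖ ≤ B) (n : ℤ) (z : ℍ) : ‖fc f n z‖ ≤ B := by
  unfold fc
  have := intervalIntegral.norm_integral_le_of_norm_le_const (a := (0 : ℝ)) (b := 1)
    (f := fun t : ℝ => f (pt 1 t z) * ee (-(n * t))) (C := B) (fun t _ => by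
      rw [norm_mul, norm_ee, mul_one]
      exact hB _)
  simpa using this

theorem fc_pt {f : ℍ → ℂ} (hf : ∀ (γ : SL(2, ℤ)) (z : ℍ), f (γ • z) = f z) (n : ℤ) (s : ℝ) (z : ℍ) :
    fc f n (pt 1 s z) = ee (n * s) * fc f n z := by
  unfold fc
  have h1 : ∀ t : ℝ, f (pt 1 t (pt 1 s z)) * ee (-(n * t)) =
      ee (n * s) * (f (pt 1 (t + s) z) * ee (-(n * (t + s)))) := by
    intro t
    rw [pt_pt one_pos one_pos, mul_one, one_mul, add_comm s t]
    have : ee (-(n * t)) = ee (n * s) * ee (-(n * (t + s))) := by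
      rw [← ee_add]
      congr 1
      ring
    rw [this]
    ring
  simp_rw [h1]
  rw [intervalIntegral.integral_const_mul]
  congr 1
  rw [intervalIntegral.integral_comp_add_right (fun t : ℝ => f (pt 1 t z) * ee (-(n * t)))]
  have hper : Function.Periodic (fun t : ℝ => f (pt 1 t z) * ee (-(n * t))) 1 := by
    intro t
    have h2 := inv_add hf one_pos t 1 z
    push_cast at h2
    have h3 : ee (-(n * (t + 1))) = ee (-(n * t)) := by
      have : -((n : ℝ) * (t + 1)) = -(n * t) + ((-n : ℤ) : ℝ) := by push_cast; ring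
      rw [this, ee_add, ee_int, mul_one]
    simp only [h2, h3]
  have := hper.intervalIntegral_add_eq s 0
  rw [zero_add, add_comm]
  rw [zero_add] at this
  exact this

theorem L_fc {φ : ℝ → ℝ} (hφ : Ker φ) {f : ℍ → ℂ} (hf : Continuous f) {B : ℝ}
    (hB : ∀ z, ‖f z‖ ≤ B) {μ : ℂ} (hμ : ∀ z, L φ f z = μ * f z) (n : ℤ) (z : ℍ) :
    L φ (fc f n) z = μ * fc f n z := by
  have e1 : L φ (fc f n) z = ∫ w : ℍ, ∫ t in Set.Ioc (0 : ℝ) 1,
      (φ (Real.cosh (dist z w)) : ℂ) * (f (pt 1 t w) * ee (-(n * t))) := by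
    unfold L fc
    congr 1
    funext w
    rw [intervalIntegral.integral_of_le zero_le_one, integral_const_mul]
  rw [e1, integral_integral_swap]
  · have e2 : ∀ t : ℝ, ∫ w : ℍ, (φ (Real.cosh (dist z w)) : ℂ) * (f (pt 1 t w) * ee (-(n * t))) =
        μ * (f (pt 1 t z) * ee (-(n * t))) := by
      intro t
      have h1 := L_pt φ f one_pos t z
      rw [hμ] at h1
      rw [← mul_assoc, ← h1]
      unfold L
      rw [← integral_mul_const]
      congr 1
      funext w
      ring
    simp_rw [e2]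
    rw [integral_const_mul, fc, intervalIntegral.integral_of_le zero_le_one]
  · have hφi : Integrable fun w : ℍ => ‖(φ (Real.cosh (dist z w)) : ℂ) * (1 : ℂ)‖ :=
      (integrable_kernel hφ (f := fun _ => (1 : ℂ)) continuous_const z).norm
    have h1 : Integrable (fun _ : ℝ => B) (volume.restrict (Set.Ioc (0 : ℝ) 1)) :=
      integrable_const _
    have h2 := hφi.mul_prod h1
    refine h2.mono' ?_ (Filter.Eventually.of_forall fun p => ?_)
    · apply Continuous.aestronglyMeasurable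
      have h3 : Continuous fun p : ℍ × ℝ => f (pt 1 p.2 p.1) := hf.comp pt_cont2
      have h4 : Continuous fun p : ℍ × ℝ => ee (-(n * p.2)) := ee_cont.comp (by fun_prop)
      exact (kernel_cont hφ continuous_const continuous_fst).mul (h3.mul h4)
    · obtain ⟨w, t⟩ := p
      simp only [Function.uncurry, norm_mul, norm_ee, mul_one]
      exact mul_le_mul_of_nonneg_left (hB _) (norm_nonneg _)

/-- The Fourier coefficient as a function of the height. -/
def Wc (f : ℍ → ℂ) (n : ℤ) (y : ℝ) : ℂ := ext (fc f n) (y * Complex.I)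

theorem yI_mem {y : ℝ} (hy : 0 < y) : (y * Complex.I : ℂ) ∈ UH := by
  change 0 < (y * Complex.I : ℂ).im
  simpa using hy

theorem Wc_bound {f : ℍ → ℂ} {B : ℝ} (hB : ∀ z, ‖f z‖ ≤ B) (n : ℤ) (y : ℝ) : ‖Wc f n y‖ ≤ B :=
  fc_bound hB n _

theorem Wc_ode {φ : ℝ → ℝ} (hφ : Ker φ) {f : ℍ → ℂ} (hf : Continuous f) {B : ℝ}
    (hB : ∀ z, ‖f z‖ ≤ B) (hinv : ∀ (γ : SL(2, ℤ)) (z : ℍ), f (γ • z) = f z) {μ μ' : ℂ}
    (hμ0 : μ ≠ 0) (hμ : ∀ z, L φ f z = μ * f z) (hμ' : ∀ z, L (DD φ) f z = μ' * f z) (n : ℤ) :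
    ∃ w1 : ℝ → ℂ, (∀ y : ℝ, 0 < y → HasDerivAt (Wc f n) (w1 y) y) ∧
      ∀ y : ℝ, 0 < y → HasDerivAt w1 ((4 * Real.pi ^ 2 * n ^ 2 + μ' / μ / (y : ℂ) ^ 2) * Wc f n y) y := by
  set U : ℂ → ℂ := ext (fc f n) with hU
  have hUs : ContDiffOn ℝ (⊤ : ℕ∞) U UH :=
    eigen_smooth hφ (fc_cont hf n) hμ0 (L_fc hφ hf hB hμ n)
  have hU1 : ∀ z ∈ UH, HasFDerivAt U (fderiv ℝ U z) z := fun z hz =>
    ((hUs.differentiableOn (by simp)).differentiableAt (isOpen_UH.mem_nhds hz)).hasFDerivAt
  have hU2 : ∀ z ∈ UH, HasFDerivAt (fderiv ℝ U) (fderiv ℝ (fderiv ℝ U) z) z := fun z hz => by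
    have h1 := hUs.fderiv_of_isOpen isOpen_UH (m := (⊤ : ℕ∞)) (by simp)
    exact ((h1.differentiableOn (by simp)).differentiableAt (isOpen_UH.mem_nhds hz)).hasFDerivAt
  have hlap := eigen_lap hφ (fc_cont hf n) hμ0 (L_fc hφ hf hB hμ n)
    (L_fc (DD_ker hφ) hf hB hμ' n)
  have hcurve : ∀ y : ℝ, HasDerivAt (fun y : ℝ => (y * Complex.I : ℂ)) Complex.I y := fun y => by
    have h1 : HasDerivAt (fun t : ℝ => (t : ℂ)) 1 y := Complex.ofRealCLM.hasDerivAt
    simpa using h1.mul_const Complex.I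
  refine ⟨fun y => fderiv ℝ U (y * Complex.I) Complex.I, fun y hy => ?_, fun y hy => ?_⟩
  · exact (hU1 _ (yI_mem hy)).comp_hasDerivAt y (hcurve y)
  · have h1 := (hU2 _ (yI_mem hy)).comp_hasDerivAt y (hcurve y)
    have h2 : HasDerivAt (fun y : ℝ => fderiv ℝ U (y * Complex.I) Complex.I)
        (fderiv ℝ (fderiv ℝ U) (y * Complex.I) Complex.I Complex.I) y := by
      have h3 := (ContinuousLinearMap.apply ℝ ℂ Complex.I).hasFDerivAt.comp_hasDerivAt y h1
      exact h3
    refine h2.congr_deriv ?_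
    -- the horizontal second derivative
    have hline : ∀ s : ℝ, HasDerivAt (fun s : ℝ => (y * Complex.I + s : ℂ)) 1 s := fun s => by
      have h1 : HasDerivAt (fun t : ℝ => (t : ℂ)) 1 s := Complex.ofRealCLM.hasDerivAt
      simpa using h1.const_add (y * Complex.I : ℂ)
    have hmem : ∀ s : ℝ, (y * Complex.I + s : ℂ) ∈ UH := fun s => by
      change 0 < (y * Complex.I + s : ℂ).im
      simpa using hy
    have htrans : ∀ s : ℝ, U (y * Complex.I + s) = ee (n * s) * U (y * Complex.I) := by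
      intro s
      have e1 : (y * Complex.I + s : ℂ) = ((pt 1 s ⟨y * Complex.I, yI_mem hy⟩ : ℍ) : ℂ) := by
        rw [coe_pt one_pos]
        simp
      have e2 : (y * Complex.I : ℂ) = ((⟨y * Complex.I, yI_mem hy⟩ : ℍ) : ℂ) := rfl
      rw [e1, hU, ext_coe, fc_pt hinv]
      conv_rhs => rw [e2, ext_coe]
    have hee : ∀ s : ℝ, HasDerivAt (fun s : ℝ => ee (n * s)) (2 * Real.pi * Complex.I * n * ee (n * s)) s := by
      intro s
      unfold ee
      have h1 : HasDerivAt (fun t : ℝ => (t : ℂ)) 1 s := Complex.ofRealCLM.hasDerivAt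
      have h2 : HasDerivAt (fun s : ℝ => (2 * Real.pi * Complex.I * ((n * s : ℝ) : ℂ) : ℂ))
          (2 * Real.pi * Complex.I * n) s := by
        have h3 := h1.const_mul (2 * Real.pi * Complex.I * n : ℂ)
        rw [mul_one] at h3
        refine h3.congr_of_eventuallyEq (Filter.Eventually.of_forall fun t => ?_)
        simp only
        push_cast
        ring
      refine h2.cexp.congr_deriv ?_
      ring
    have hg1 : ∀ s : ℝ, fderiv ℝ U (y * Complex.I + s) 1 =
        2 * Real.pi * Complex.I * n * ee (n * s) * U (y * Complex.I) := by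
      intro s
      have h3 := (hU1 _ (hmem s)).comp_hasDerivAt s (hline s)
      have h4 : HasDerivAt (fun s : ℝ => U (y * Complex.I + s))
          (2 * Real.pi * Complex.I * n * ee (n * s) * U (y * Complex.I)) s := by
        have h5 := (hee s).mul_const (U (y * Complex.I))
        refine h5.congr_of_eventuallyEq (Filter.Eventually.of_forall fun t => ?_)
        exact htrans t
      exact h3.unique h4
    have hg2 : fderiv ℝ (fderiv ℝ U) (y * Complex.I) 1 1 =
        (2 * Real.pi * Complex.I * n) ^ 2 * U (y * Complex.I) := by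
      have h3 : HasFDerivAt (fderiv ℝ U) (fderiv ℝ (fderiv ℝ U) (y * Complex.I))
          (y * Complex.I + ((0 : ℝ) : ℂ)) := by
        simpa using hU2 _ (yI_mem hy)
      have h4 := h3.comp_hasDerivAt (0 : ℝ) (hline 0)
      have h5 := (ContinuousLinearMap.apply ℝ ℂ (1 : ℂ)).hasFDerivAt.comp_hasDerivAt (0 : ℝ) h4
      have h6 : HasDerivAt (fun s : ℝ => fderiv ℝ U (y * Complex.I + s) 1)
          (2 * Real.pi * Complex.I * n * (2 * Real.pi * Complex.I * n * ee (n * (0 : ℝ))) *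
            U (y * Complex.I)) 0 := by
        have h7 := ((hee 0).const_mul (2 * Real.pi * Complex.I * n)).mul_const (U (y * Complex.I))
        refine h7.congr_of_eventuallyEq (Filter.Eventually.of_forall fun t => ?_)
        exact hg1 t
      have h8 : fderiv ℝ (fderiv ℝ U) (y * Complex.I) 1 1 = _ := HasDerivAt.unique h5 h6
      rw [h8, mul_zero, ee_zero]
      ring
    have h3 := hlap ⟨y * Complex.I, yI_mem hy⟩
    have h4 : Δ (ext (fc f n)) (y * Complex.I) = fderiv ℝ (fderiv ℝ U) (y * Complex.I) 1 1 +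
        fderiv ℝ (fderiv ℝ U) (y * Complex.I) Complex.I Complex.I := by
      rw [InnerProductSpace.laplacian_eq_iteratedFDeriv_complexPlane]
      simp only [iteratedFDeriv_two_apply]
      rfl
    have h5 : (((⟨y * Complex.I, yI_mem hy⟩ : ℍ).im : ℝ) : ℂ) = y := by
      have : (⟨y * Complex.I, yI_mem hy⟩ : ℍ).im = y := by
        change (y * Complex.I : ℂ).im = y
        simp
      rw [this]
    have h6 : fc f n ⟨y * Complex.I, yI_mem hy⟩ = U (y * Complex.I) := by
      have e2 : (y * Complex.I : ℂ) = ((⟨y * Complex.I, yI_mem hy⟩ : ℍ) : ℂ) := rfl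
      conv_rhs => rw [e2, hU, ext_coe]
    rw [h5, h6] at h3
    change (y : ℂ) ^ 2 * Δ (ext (fc f n)) (y * Complex.I) = _ at h3
    rw [h4, hg2] at h3
    have hyc : (y : ℂ) ≠ 0 := by exact_mod_cast hy.ne'
    have hI : Complex.I ^ 2 = -1 := Complex.I_sq
    have h7 : fderiv ℝ (fderiv ℝ U) (y * Complex.I) Complex.I Complex.I =
        (μ' / μ * U (y * Complex.I)) / (y : ℂ) ^ 2 -
          (2 * Real.pi * Complex.I * n) ^ 2 * U (y * Complex.I) := by
      rw [← h3]
      field_simp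
      ring
    rw [h7]
    change _ = (4 * Real.pi ^ 2 * n ^ 2 + μ' / μ / (y : ℂ) ^ 2) * U (y * Complex.I)
    have h8 : (2 * (Real.pi : ℂ) * Complex.I * n) ^ 2 = -(4 * Real.pi ^ 2 * n ^ 2) := by
      rw [mul_pow, mul_pow, mul_pow, hI]
      ring
    rw [h8]
    ring

end

end Pool.Agent.K4H20.OM
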