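import Pool.Agent.K4H20.OM.I1

set_option autoImplicit false

/-! Hecke operators on Fourier coefficients. -/

namespace Pool.Agent.K4H20.OM

open UpperHalfPlane MeasureTheory
open scoped MatrixGroups BoundedContinuousFunction

noncomputable section

theorem pt_split {t : ℝ} (ht : 0 < t) (x : ℝ) (z : ℍ) : pt t x z = pt 1 x (pt t 0 z) := by
  rw [pt_pt one_pos ht, one_mul, mul_zero, zero_add]

theorem per1 {f : ℍ → ℂ} (hf : ∀ (γ : SL(2, ℤ)) (z : ℍ), f (γ • z) = f z) (z : ℍ) (t : ℝ) :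
    f (pt 1 (t + 1) z) = f (pt 1 t z) := by
  have := inv_add hf one_pos t 1 z
  push_cast at this
  exact this

theorem perN {f : ℍ → ℂ} (hf : ∀ (γ : SL(2, ℤ)) (z : ℍ), f (γ • z) = f z) (z : ℍ) (n : ℤ) :
    Function.Periodic (fun t : ℝ => f (pt 1 t z) * ee (-(n * t))) 1 := by
  intro t
  have h3 : ee (-(n * (t + 1))) = ee (-(n * t)) := by
    have : -((n : ℝ) * (t + 1)) = -(n * t) + ((-n : ℤ) : ℝ) := by push_cast; ring
    rw [this, ee_add, ee_int, mul_one]
  simp only [per1 hf z t, h3]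

theorem contN {f : ℍ → ℂ} (hf : Continuous f) (z : ℍ) (n : ℤ) :
    Continuous (fun t : ℝ => f (pt 1 t z) * ee (-(n * t))) := by
  have h1 : Continuous fun t : ℝ => f (pt 1 t z) :=
    hf.comp (pt_cont2.comp (continuous_const.prodMk continuous_id))
  exact h1.mul (ee_cont.comp (by fun_prop))

/-- integrals of periodic functions under dilation -/
theorem per_dilate {g : ℝ → ℂ} (hg : Function.Periodic g 1) (hc : Continuous g) {p : ℕ}
    (hp : 0 < p) : ∫ t in (0 : ℝ)..1, g (p * t) = ∫ t in (0 : ℝ)..1, g t := by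
  have hp' : (p : ℝ) ≠ 0 := by exact_mod_cast hp.ne'
  have hpc : (p : ℂ) ≠ 0 := by exact_mod_cast hp.ne'
  have key : ∀ x : ℂ, (p : ℝ)⁻¹ • ((p : ℂ) * x) = x := by
    intro x
    rw [Complex.real_smul]
    push_cast
    rw [inv_mul_cancel_left₀ hpc]
  rw [intervalIntegral.integral_comp_mul_left _ hp', mul_zero, mul_one]
  have h := hg.intervalIntegral_add_zsmul_eq (p : ℤ) 0 (fun a b => hc.intervalIntegrable a b)
  simp only [zero_add, zsmul_eq_mul, Int.cast_natCast, mul_one] at h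
  rw [h, key]

theorem ee_ne_one {p : ℕ} (hp : 0 < p) {m : ℤ} (h : ¬ (p : ℤ) ∣ m) : ee (-(m / p)) ≠ 1 := by
  intro h1
  unfold ee at h1
  rw [Complex.exp_eq_one_iff] at h1
  obtain ⟨n, hn⟩ := h1
  have hpi : (2 * (Real.pi : ℂ) * Complex.I) ≠ 0 := Complex.two_pi_I_ne_zero
  have h2 : ((-(m / p) : ℝ) : ℂ) = n := by
    apply mul_left_cancel₀ hpi
    rw [hn]
    ring
  have h3 : (-(m / p) : ℝ) = n := by exact_mod_cast h2
  have hp' : (p : ℝ) ≠ 0 := by exact_mod_cast hp.ne'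
  have h4 : (m : ℝ) = p * (-n) := by
    field_simp at h3
    linarith
  apply h
  exact ⟨-n, by exact_mod_cast h4⟩

theorem fc_dilate {f : ℍ → ℂ} (hf : ∀ (γ : SL(2, ℤ)) (z : ℍ), f (γ • z) = f z)
    (hc : Continuous f) {p : ℕ} (hp : 0 < p) (m : ℤ) (z : ℍ) :
    ∫ t in (0 : ℝ)..1, f (pt 1 (p * t) z) * ee (-(m * t)) =
      if (p : ℤ) ∣ m then fc f (m / p) z else 0 := by
  have hp' : (p : ℝ) ≠ 0 := by exact_mod_cast hp.ne'
  split_ifs with h
  · obtain ⟨k, rfl⟩ := h
    have hp0 : (p : ℤ) ≠ 0 := by exact_mod_cast hp.ne'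
    rw [Int.mul_ediv_cancel_left _ hp0]
    unfold fc
    rw [← per_dilate (perN hf z k) (contN hc z k) hp]
    congr 1
    funext t
    congr 2
    push_cast
    ring
  · set g : ℝ → ℂ := fun t => f (pt 1 (p * t) z) * ee (-(m * t)) with hg
    have hshift : ∀ t, g (t + 1 / p) = ee (-(m / p)) * g t := by
      intro t
      simp only [hg]
      have h1 : (p : ℝ) * (t + 1 / p) = p * t + 1 := by field_simp
      have h2 : -((m : ℝ) * (t + 1 / p)) = -(m / p) + -(m * t) := by ring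
      rw [h1, per1 hf, h2, ee_add]
      ring
    have hper : Function.Periodic g 1 := by
      intro t
      simp only [hg]
      have h1 : (p : ℝ) * (t + 1) = p * t + (p : ℤ) := by push_cast; ring
      have h2 : -((m : ℝ) * (t + 1)) = -(m * t) + ((-m : ℤ) : ℝ) := by push_cast; ring
      rw [h1, inv_add hf one_pos, h2, ee_add, ee_int, mul_one]
    have h1 : ∫ t in (0 : ℝ)..1, g (t + 1 / p) = ∫ t in (0 : ℝ)..1, g t := by
      rw [intervalIntegral.integral_comp_add_right]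
      have := hper.intervalIntegral_add_eq (1 / p) 0
      rw [zero_add, add_comm]
      rw [zero_add] at this
      exact this
    simp_rw [hshift] at h1
    rw [intervalIntegral.integral_const_mul] at h1
    have h2 : (ee (-(m / p)) - 1) * ∫ t in (0 : ℝ)..1, g t = 0 := by
      linear_combination h1
    rcases mul_eq_zero.1 h2 with h3 | h3
    · exact absurd (sub_eq_zero.1 h3) (ee_ne_one hp h)
    · exact h3

theorem fc_hk {f : ℍ → ℂ} (hf : ∀ (γ : SL(2, ℤ)) (z : ℍ), f (γ • z) = f z)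
    (hc : Continuous f) (p : ℕ) [hp : NeZero p] (m : ℤ) (z : ℍ) :
    fc (hk p f) m z = (if (p : ℤ) ∣ m then fc f (m / p) (pt p 0 z) else 0) +
      p * fc f (p * m) (pt (1 / p) 0 z) := by
  have hpos : 0 < p := Nat.pos_of_ne_zero hp.out
  have hp0 : (0 : ℝ) < p := by exact_mod_cast hpos
  have hp' : (p : ℝ) ≠ 0 := hp0.ne'
  have hpc : (p : ℂ) ≠ 0 := by exact_mod_cast hp'
  set z2 : ℍ := pt (1 / p) 0 z with hz2
  have e1 : ∀ t : ℝ, hk p f (pt 1 t z) * ee (-(m * t)) =
      f (pt 1 (p * t) (pt p 0 z)) * ee (-(m * t)) +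
      ∑ b ∈ Finset.range p, f (pt 1 ((t + b) / p) z2) * ee (-(m * t)) := by
    intro t
    unfold hk
    rw [pt_pt hp0 one_pos, mul_one, add_zero, pt_split hp0 (p * t), add_mul, Finset.sum_mul]
    congr 1
    rw [sumZ p (fun b : ℕ => f (pt (1 / p) (b / p) (pt 1 t z)) * ee (-(m * t)))]
    refine Finset.sum_congr rfl fun b _ => ?_
    rw [pt_pt (by positivity) one_pos, mul_one, pt_split (by positivity)]
    congr 3
    ring
  have hcont1 : Continuous fun t : ℝ => f (pt 1 (p * t) (pt p 0 z)) * ee (-(m * t)) := by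
    have h1 : Continuous fun t : ℝ => f (pt 1 (p * t) (pt p 0 z)) :=
      hc.comp (pt_cont2.comp (continuous_const.prodMk (by fun_prop)))
    exact h1.mul (ee_cont.comp (by fun_prop))
  have hcont2 : ∀ b : ℕ, Continuous fun t : ℝ => f (pt 1 ((t + b) / p) z2) * ee (-(m * t)) := by
    intro b
    have h1 : Continuous fun t : ℝ => f (pt 1 ((t + b) / p) z2) :=
      hc.comp (pt_cont2.comp (continuous_const.prodMk (by fun_prop)))
    exact h1.mul (ee_cont.comp (by fun_prop))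
  rw [fc]
  simp_rw [e1]
  rw [intervalIntegral.integral_add (hcont1.intervalIntegrable _ _)
    ((continuous_finsetSum _ fun b _ => hcont2 b).intervalIntegrable _ _),
    fc_dilate hf hc hpos, intervalIntegral.integral_finsetSum
      (fun b _ => (hcont2 b).intervalIntegrable _ _)]
  congr 1
  let k : ℝ → ℂ := fun t => f (pt 1 (t / p) z2) * ee (-(m * t))
  have hkc : Continuous k := by
    have h1 : Continuous fun t : ℝ => f (pt 1 (t / p) z2) :=
      hc.comp (pt_cont2.comp (continuous_const.prodMk (by fun_prop)))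
    exact h1.mul (ee_cont.comp (by fun_prop))
  have e2 : ∀ b : ℕ, ∫ t in (0 : ℝ)..1, f (pt 1 ((t + b) / p) z2) * ee (-(m * t)) =
      ∫ t in (b : ℝ)..((b + 1 : ℕ) : ℝ), k t := by
    intro b
    have h1 : ∀ t : ℝ, f (pt 1 ((t + b) / p) z2) * ee (-(m * t)) = k (t + b) := by
      intro t
      simp only [k]
      have h2 : -((m : ℝ) * (t + b)) = -(m * t) + ((-(m * b) : ℤ) : ℝ) := by push_cast; ring
      rw [h2, ee_add, ee_int, mul_one]
    simp_rw [h1]
    rw [intervalIntegral.integral_comp_add_right, zero_add]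
    congr 1
    push_cast
    ring
  simp_rw [e2]
  rw [intervalIntegral.sum_integral_adjacent_intervals
    (fun b _ => hkc.intervalIntegrable _ _)]
  rw [Nat.cast_zero]
  have e3 : ∫ t in (0 : ℝ)..(p : ℝ), k t = p * ∫ t in (0 : ℝ)..1, k (p * t) := by
    rw [intervalIntegral.integral_comp_mul_left _ hp', mul_zero, mul_one, Complex.real_smul]
    push_cast
    rw [mul_inv_cancel_left₀ hpc]
  rw [e3, fc]
  congr 2
  funext t
  simp only [k]
  congr 2
  · congr 1
    field_simp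
  · push_cast
    ring_nf

theorem fc_J {f : ℍ → ℂ} (hf : OddAut f) (n : ℤ) (z : ℍ) : fc f n (J • z) = - fc f (-n) z := by
  unfold fc
  have h1 : ∀ t : ℝ, f (pt 1 t (J • z)) * ee (-(n * t)) =
      -((fun s : ℝ => f (pt 1 s z) * ee (-((-n : ℤ) * s))) (-t)) := by
    intro t
    rw [J_pt one_pos, hf.2]
    simp
  simp_rw [h1]
  rw [intervalIntegral.integral_neg, intervalIntegral.integral_comp_neg
    (fun s : ℝ => f (pt 1 s z) * ee (-((-n : ℤ) * s)))]
  congr 1
  have := (perN hf.1 z (-n)).intervalIntegral_add_eq (-1) 0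
  rw [neg_add_cancel, zero_add] at this
  rw [neg_zero]
  exact this

theorem Wc_neg {f : ℍ → ℂ} (hf : OddAut f) (n : ℤ) {y : ℝ} (hy : 0 < y) :
    Wc f (-n) y = - Wc f n y := by
  have e2 : (y * Complex.I : ℂ) = ((⟨y * Complex.I, yI_mem hy⟩ : ℍ) : ℂ) := rfl
  unfold Wc
  rw [e2, ext_coe, ext_coe]
  have h1 : J • (⟨y * Complex.I, yI_mem hy⟩ : ℍ) = ⟨y * Complex.I, yI_mem hy⟩ := by
    apply UpperHalfPlane.ext
    rw [coe_J_smul]
    simp
  have h2 := fc_J hf n ⟨y * Complex.I, yI_mem hy⟩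
  rw [h1] at h2
  rw [h2, neg_neg]

theorem Wc_eq (f : ℍ → ℂ) (n : ℤ) {y : ℝ} (hy : 0 < y) :
    Wc f n y = fc f n ⟨y * Complex.I, yI_mem hy⟩ := by
  have e2 : (y * Complex.I : ℂ) = ((⟨y * Complex.I, yI_mem hy⟩ : ℍ) : ℂ) := rfl
  unfold Wc
  conv_lhs => rw [e2, ext_coe]

theorem Wc_pt {f : ℍ → ℂ} (n : ℤ) {t y : ℝ} (ht : 0 < t) (hy : 0 < y) :
    fc f n (pt t 0 ⟨y * Complex.I, yI_mem hy⟩) = Wc f n (t * y) := by
  have h1 : ((t * y : ℝ) * Complex.I : ℂ) = ((pt t 0 ⟨y * Complex.I, yI_mem hy⟩ : ℍ) : ℂ) := by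
    rw [coe_pt ht]
    push_cast
    ring
  unfold Wc
  rw [h1, ext_coe]

/-- **The Hecke relation for Fourier coefficients.** -/
theorem Wc_hecke {f : ℍ → ℂ} (hf : ∀ (γ : SL(2, ℤ)) (z : ℍ), f (γ • z) = f z)
    (hc : Continuous f) (p : ℕ) [hp : NeZero p] {l : ℂ} (hl : ∀ z, hk p f z = l * f z) (m : ℤ)
    {y : ℝ} (hy : 0 < y) :
    l * Wc f m y = (if (p : ℤ) ∣ m then Wc f (m / p) (p * y) else 0) +
      p * Wc f (p * m) (y / p) := by
  have hpos : 0 < p := Nat.pos_of_ne_zero hp.out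
  have hp0 : (0 : ℝ) < p := by exact_mod_cast hpos
  have h := fc_hk hf hc p m ⟨y * Complex.I, yI_mem hy⟩
  rw [Wc_pt _ hp0 hy, Wc_pt _ (by positivity) hy, one_div, inv_mul_eq_div] at h
  rw [← h, Wc_eq f m hy]
  unfold fc
  rw [← intervalIntegral.integral_const_mul]
  congr 1
  funext t
  rw [hl]
  ring

end

end Pool.Agent.K4H20.OM
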