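import Pool.Agent.K4H20.OM.I2

set_option autoImplicit false

/-! The multiplicative coefficients attached to Hecke eigenvalues. -/

namespace Pool.Agent.K4H20.OM

open UpperHalfPlane MeasureTheory
open scoped MatrixGroups BoundedContinuousFunction

noncomputable section

/-- coefficients of `1 / (1 - l x + x ^ 2)` -/
def Uc (l : ℂ) : ℕ → ℂ
  | 0 => 1
  | 1 => l
  | (k + 2) => l * Uc l (k + 1) - Uc l k

/-- the multiplicative function with local factors `1 / (1 - l p x + x ^ 2)` -/
def cf (l : ℕ → ℂ) (n : ℕ) : ℂ := n.factorization.prod fun p k => Uc (l p) k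

theorem cf_one (l : ℕ → ℂ) : cf l 1 = 1 := by
  unfold cf
  simp

theorem cf_mul (l : ℕ → ℂ) {m n : ℕ} (h : m.Coprime n) : cf l (m * n) = cf l m * cf l n := by
  unfold cf
  rw [Nat.factorization_mul_of_coprime h]
  apply Finsupp.prod_add_index_of_disjoint
  simpa using h.disjoint_primeFactors

theorem cf_pow (l : ℕ → ℂ) {p : ℕ} (hp : p.Prime) (k : ℕ) : cf l (p ^ k) = Uc (l p) k := by
  unfold cf
  rw [hp.factorization_pow, Finsupp.prod_single_index]
  rfl

theorem cf_prime_mul (l : ℕ → ℂ) {p : ℕ} (hp : p.Prime) {m : ℕ} (hm : m ≠ 0) :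
    cf l (p * m) = l p * cf l m - if p ∣ m then cf l (m / p) else 0 := by
  obtain ⟨k, m', hm', rfl⟩ := Nat.exists_eq_pow_mul_and_not_dvd hm p hp.ne_one
  have hcop : ∀ j : ℕ, (p ^ j).Coprime m' := fun j =>
    Nat.Coprime.pow_left j ((Nat.Prime.coprime_iff_not_dvd hp).2 hm')
  rcases k with _ | k
  · rw [pow_zero, one_mul, if_neg hm', sub_zero]
    have h1 := cf_mul l (hcop 1)
    rw [pow_one] at h1
    rw [h1]
    have h2 := cf_pow l hp 1
    rw [pow_one] at h2
    rw [h2]
    rfl
  · have hd : p ∣ p ^ (k + 1) * m' := (dvd_pow_self p (Nat.succ_ne_zero k)).mul_right m'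
    rw [if_pos hd]
    have e1 : p * (p ^ (k + 1) * m') = p ^ (k + 2) * m' := by ring
    have e2 : p ^ (k + 1) * m' / p = p ^ k * m' := by
      rw [pow_succ', mul_assoc, Nat.mul_div_cancel_left _ hp.pos]
    rw [e1, e2, cf_mul l (hcop _), cf_mul l (hcop _), cf_mul l (hcop _), cf_pow l hp,
      cf_pow l hp, cf_pow l hp]
    change (l p * Uc (l p) (k + 1) - Uc (l p) k) * cf l m' = _
    ring

theorem Wc_cf {f : ℍ → ℂ} (hf : ∀ (γ : SL(2, ℤ)) (z : ℍ), f (γ • z) = f z)
    (hc : Continuous f) {lam : ℕ → ℂ}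
    (hl : ∀ p : ℕ, p.Prime → ∀ [NeZero p], ∀ z, hk p f z = (Real.sqrt p : ℂ) * lam p * f z) :
    ∀ n : ℕ, n ≠ 0 → ∀ y : ℝ, 0 < y →
      Wc f n y = cf lam n / (Real.sqrt n : ℂ) * Wc f 1 (n * y) := by
  intro n
  induction n using Nat.strong_induction_on with
  | _ n ih =>
    intro hn y hy
    by_cases h1 : n = 1
    · subst h1
      rw [cf_one]
      simp
    · set p := n.minFac with hp
      have hpp : p.Prime := Nat.minFac_prime h1
      obtain ⟨m, hm⟩ : p ∣ n := Nat.minFac_dvd n
      have hm0 : m ≠ 0 := by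
        rintro rfl
        rw [mul_zero] at hm
        exact hn hm
      have hmn : m < n := by
        rw [hm]
        exact lt_mul_of_one_lt_left (Nat.pos_of_ne_zero hm0) hpp.one_lt
      have : NeZero p := ⟨hpp.ne_zero⟩
      have hp0 : (0 : ℝ) < p := by exact_mod_cast hpp.pos
      have hpc : (p : ℂ) ≠ 0 := by exact_mod_cast hpp.ne_zero
      have hsp : (Real.sqrt p : ℂ) ≠ 0 := by exact_mod_cast (Real.sqrt_pos.2 hp0).ne'
      have hsp2 : (Real.sqrt p : ℂ) ^ 2 = p := by exact_mod_cast Real.sq_sqrt hp0.le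
      have hmr : (0 : ℝ) < m := by exact_mod_cast Nat.pos_of_ne_zero hm0
      have hsm : (Real.sqrt m : ℂ) ≠ 0 := by exact_mod_cast (Real.sqrt_pos.2 hmr).ne'
      have h2 := Wc_hecke hf hc p (hl p hpp) m (y := p * y) (by positivity)
      rw [mul_div_cancel_left₀ _ hp0.ne'] at h2
      have h3 := ih m hmn hm0 (p * y) (by positivity)
      have e1 : (m : ℝ) * (p * y) = n * y := by rw [hm]; push_cast; ring
      rw [e1] at h3
      have e2 : ((n : ℕ) : ℤ) = (p : ℤ) * (m : ℤ) := by rw [hm]; push_cast; rfl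
      have e3 : (Real.sqrt n : ℂ) = Real.sqrt p * Real.sqrt m := by
        rw [hm]
        push_cast
        rw [Real.sqrt_mul hp0.le]
        push_cast
        rfl
      have h4 : (if (p : ℤ) ∣ (m : ℤ) then Wc f (m / p) (p * (p * y)) else 0) =
          (if p ∣ m then cf lam (m / p) else 0) * (Real.sqrt p / Real.sqrt m) * Wc f 1 (n * y) := by
        by_cases hd : p ∣ m
        · have hd' : (p : ℤ) ∣ (m : ℤ) := by exact_mod_cast hd
          rw [if_pos hd, if_pos hd']
          obtain ⟨k, hk⟩ := hd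
          have hk0 : k ≠ 0 := by
            rintro rfl
            rw [mul_zero] at hk
            exact hm0 hk
          have e4 : m / p = k := by rw [hk, Nat.mul_div_cancel_left _ hpp.pos]
          have e5 : ((m : ℤ) / (p : ℤ)) = (k : ℤ) := by
            rw [← e4]
            exact (Int.natCast_div m p).symm
          have hkn : k < n := lt_of_le_of_lt (by rw [hk]; exact Nat.le_mul_of_pos_left k hpp.pos) hmn
          have h5 := ih k hkn hk0 (p * (p * y)) (by positivity)
          have e6 : (k : ℝ) * (p * (p * y)) = n * y := by rw [hm, hk]; push_cast; ring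
          have hkr : (0 : ℝ) < k := by exact_mod_cast Nat.pos_of_ne_zero hk0
          have hsk : (Real.sqrt k : ℂ) ≠ 0 := by exact_mod_cast (Real.sqrt_pos.2 hkr).ne'
          have e7 : (Real.sqrt m : ℂ) = Real.sqrt p * Real.sqrt k := by
            rw [hk]
            push_cast
            rw [Real.sqrt_mul hp0.le]
            push_cast
            rfl
          rw [e5, h5, e6, e4, e7]
          field_simp
        · have hd' : ¬ (p : ℤ) ∣ (m : ℤ) := by exact_mod_cast hd
          rw [if_neg hd, if_neg hd']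
          simp
      rw [h4, h3, ← e2] at h2
      have h5 : Wc f n y = ((Real.sqrt p : ℂ) * lam p * (cf lam m / Real.sqrt m) -
          (if p ∣ m then cf lam (m / p) else 0) * (Real.sqrt p / Real.sqrt m)) / p *
            Wc f 1 (n * y) := by
        rw [div_mul_eq_mul_div, eq_div_iff hpc]
        linear_combination -h2
      have e8 : cf lam n = lam p * cf lam m - if p ∣ m then cf lam (m / p) else 0 := by
        conv_lhs => rw [hm]
        exact cf_prime_mul lam hpp hm0
      rw [h5, e3, e8]
      congr 1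
      rw [← hsp2]
      field_simp

end

end Pool.Agent.K4H20.OM
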