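import Pool.Agent.K4H20.OM.I3

set_option autoImplicit false

/-! Fourier inversion. -/

namespace Pool.Agent.K4H20.OM

open UpperHalfPlane MeasureTheory
open scoped MatrixGroups BoundedContinuousFunction

noncomputable section

theorem fourier_inv {f : ℍ → ℂ} (hf : ∀ (γ : SL(2, ℤ)) (z : ℍ), f (γ • z) = f z)
    (hc : Continuous f) (z : ℍ) (hs : Summable fun n : ℤ => fc f n z) (x : ℝ) :
    HasSum (fun n : ℤ => fc f n z * ee (n * x)) (f (pt 1 x z)) := by
  let h : ℝ → ℂ := fun t => f (pt 1 t z)
  have hper : Function.Periodic h 1 := fun t => per1 hf z t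
  have hcont : Continuous h := hc.comp (pt_cont2.comp (continuous_const.prodMk continuous_id))
  let g : C(AddCircle (1 : ℝ), ℂ) := ⟨hper.lift, continuous_quot_lift _ hcont⟩
  have hg : ∀ t : ℝ, g (t : AddCircle (1 : ℝ)) = h t := fun t => rfl
  have hcoef : fourierCoeff g = fun n => fc f n z := by
    funext n
    rw [fourierCoeff_eq_intervalIntegral g n 0, fc]
    simp only [zero_add, one_div, inv_one, one_smul]
    congr 1
    funext t
    rw [hg, fourier_coe_apply, smul_eq_mul, mul_comm]
    congr 1
    unfold ee
    congr 1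
    push_cast
    ring
  have hsum := has_pointwise_sum_fourier_series_of_summable (f := g) (by
    rw [hcoef]; exact hs) (x : AddCircle (1 : ℝ))
  rw [hg, hcoef] at hsum
  convert hsum using 1
  funext n
  rw [fourier_coe_apply, smul_eq_mul]
  congr 1
  unfold ee
  congr 1
  push_cast
  ring

end

end Pool.Agent.K4H20.OM
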