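import Pool.Agent.K4H20.OM.I4

set_option autoImplicit false

/-! The odd Hecke eigenfunction with its Fourier expansion. -/

namespace Pool.Agent.K4H20.OM

open UpperHalfPlane MeasureTheory
open scoped MatrixGroups BoundedContinuousFunction Laplacian

noncomputable section

/-- The package of properties of our form. -/
structure OForm (f : ℍ → ℂ) (lam : ℕ → ℂ) (ν C₀ : ℂ) : Prop where
  cont : Continuous f
  bdd : ∃ B : ℝ, ∀ z, ‖f z‖ ≤ B
  odd : OddAut f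
  ne : ∃ z, f z ≠ 0
  smooth : ContDiffOn ℝ (⊤ : ℕ∞) (ext f) UH
  lap : ∀ z : ℍ, (z.im : ℂ) ^ 2 * Δ (ext f) z = (ν ^ 2 - 1 / 4) * f z
  hecke : ∀ p : ℕ, p.Prime → ∀ [NeZero p], ∀ z, hk p f z = (Real.sqrt p : ℂ) * lam p * f z
  C0 : C₀ ≠ 0
  coef : ∀ n : ℕ, n ≠ 0 → ∀ y : ℝ, 0 < y →
    Wc f n y = cf lam n / (Real.sqrt n : ℂ) * (C₀ * kB ν (n * y))

theorem zero_of_W {f : ℍ → ℂ} (hf : OddAut f) (hc : Continuous f) {lam : ℕ → ℂ}
    (hl : ∀ p : ℕ, p.Prime → ∀ [NeZero p], ∀ z, hk p f z = (Real.sqrt p : ℂ) * lam p * f z)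
    (hW : ∀ y : ℝ, 0 < y → Wc f 1 y = 0) (z : ℍ) : f z = 0 := by
  have h1 : ∀ n : ℕ, ∀ y : ℝ, 0 < y → Wc f n y = 0 := by
    intro n y hy
    by_cases hn : n = 0
    · subst hn
      have := Wc_neg hf 0 hy
      rw [neg_zero] at this
      exact self_eq_neg.1 this
    · rw [Wc_cf hf.1 hc hl n hn y hy, hW _ (by positivity), mul_zero]
  have h2 : ∀ n : ℤ, ∀ y : ℝ, 0 < y → Wc f n y = 0 := by
    intro n y hy
    obtain ⟨m, rfl | rfl⟩ := n.eq_nat_or_neg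
    · exact h1 m y hy
    · rw [Wc_neg hf _ hy, h1 m y hy, neg_zero]
  have h3 : ∀ n : ℤ, fc f n ⟨z.im * Complex.I, yI_mem z.im_pos⟩ = 0 := fun n => by
    rw [← Wc_eq f n z.im_pos]
    exact h2 n _ z.im_pos
  have h4 := fourier_inv hf.1 hc ⟨z.im * Complex.I, yI_mem z.im_pos⟩ (by
    simp_rw [h3]; exact summable_zero) z.re
  simp_rw [h3, zero_mul] at h4
  have h5 := h4.unique hasSum_zero
  have h6 : pt 1 z.re ⟨z.im * Complex.I, yI_mem z.im_pos⟩ = z := by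
    apply UpperHalfPlane.ext
    rw [coe_pt one_pos]
    apply Complex.ext <;> simp
  rwa [h6] at h5

theorem exists_form : ∃ (f : ℍ → ℂ) (lam : ℕ → ℂ) (ν C₀ : ℂ), OForm f lam ν C₀ := by
  obtain ⟨F, hF0, hA, hH, φ, hφ, μ, hμ0, hμ⟩ := exists_joint
  obtain ⟨μ', hμ'⟩ := hA (DD_ker hφ)
  set f : ℍ → ℂ := fun z => (F : ℍ →ᵇ ℂ) z with hf
  have hc : Continuous f := (F : ℍ →ᵇ ℂ).continuous
  have hB : ∀ z, ‖f z‖ ≤ ‖(F : ℍ →ᵇ ℂ)‖ := fun z => (F : ℍ →ᵇ ℂ).norm_coe_le_norm z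
  have ho : OddAut f := F.2
  have hL : ∀ z, L φ f z = μ * f z := fun z => by
    have := congrArg (fun u : Bodd => (u : ℍ →ᵇ ℂ) z) hμ
    exact this
  have hL' : ∀ z, L (DD φ) f z = μ' * f z := fun z => by
    have := congrArg (fun u : Bodd => (u : ℍ →ᵇ ℂ) z) hμ'
    exact this
  choose m hm using hH
  let lam : ℕ → ℂ := fun p => if h : p.Prime then (haveI := Fact.mk h; m p) / (Real.sqrt p : ℂ) else 0
  have hl : ∀ p : ℕ, p.Prime → ∀ [NeZero p], ∀ z, hk p f z = (Real.sqrt p : ℂ) * lam p * f z := by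
    intro p hp _ z
    have hp0 : (0 : ℝ) < p := by exact_mod_cast hp.pos
    have hsp : (Real.sqrt p : ℂ) ≠ 0 := by exact_mod_cast (Real.sqrt_pos.2 hp0).ne'
    have := Fact.mk hp
    have h1 := congrArg (fun u : Bodd => (u : ℍ →ᵇ ℂ) z) (hm p)
    have h2 : (Real.sqrt p : ℂ) * lam p = m p := by
      simp only [lam, dif_pos hp]
      rw [mul_div_cancel₀ _ hsp]
    rw [h2]
    exact h1
  obtain ⟨ν, hν⟩ := IsAlgClosed.exists_pow_nat_eq (μ' / μ + 1 / 4) (n := 2) two_pos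
  obtain ⟨w1, hw1, hw2⟩ := Wc_ode hφ hc hB ho.1 hμ0 hL hL' 1
  obtain ⟨c, hcW⟩ := whit_unique hν hw1 (fun y hy => by
    have := hw2 y hy
    refine this.congr_deriv ?_
    unfold qpot
    push_cast
    ring) (B := ‖(F : ℍ →ᵇ ℂ)‖) (fun y _ => Wc_bound hB 1 y)
  have hne : ∃ z, f z ≠ 0 := by
    by_contra hcon
    push Not at hcon
    apply hF0
    apply Subtype.ext
    ext z
    exact hcon z
  have hc0 : c ≠ 0 := by
    rintro rfl
    obtain ⟨z, hz⟩ := hne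
    apply hz
    exact zero_of_W ho hc hl (fun y hy => by rw [hcW y hy, zero_mul]) z
  refine ⟨f, lam, ν, c, hc, ⟨_, hB⟩, ho, hne, eigen_smooth hφ hc hμ0 hL, fun z => ?_, hl, hc0, ?_⟩
  · rw [eigen_lap hφ hc hμ0 hL hL', hν]
    ring
  · intro n hn y hy
    have hn' : (0 : ℝ) < n := by exact_mod_cast Nat.pos_of_ne_zero hn
    rw [Wc_cf ho.1 hc hl n hn y hy, hcW _ (by positivity)]

end

end Pool.Agent.K4H20.OM
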