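import Pool.Agent.K4H20.OM.I5

set_option autoImplicit false

/-! Bounds and one-sided Fourier expansions. -/

namespace Pool.Agent.K4H20.OM

open UpperHalfPlane MeasureTheory
open scoped MatrixGroups BoundedContinuousFunction Laplacian

noncomputable section

variable {f : ℍ → ℂ} {lam : ℕ → ℂ} {ν C₀ : ℂ}

theorem OForm.kB_bound (h : OForm f lam ν C₀) : ∃ K : ℝ, 0 < K ∧ ∀ y : ℝ, 0 < y →
    ‖kB ν y‖ ≤ K * Real.exp (-(y / 2)) := by
  obtain ⟨B, hB⟩ := h.bdd
  obtain ⟨C, hC0, hC⟩ := kB_decay ν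
  have hB0 : 0 ≤ B := (norm_nonneg _).trans (hB I)
  have hCpos : 0 < ‖C₀‖ := norm_pos_iff.2 h.C0
  have h1 : ∀ y : ℝ, 0 < y → ‖kB ν y‖ ≤ B / ‖C₀‖ := by
    intro y hy
    have h2 := h.coef 1 one_ne_zero y hy
    have h3 := Wc_bound hB (1 : ℕ) y
    rw [h2, cf_one] at h3
    simp only [Nat.cast_one, Real.sqrt_one, Complex.ofReal_one, div_one, one_mul, norm_mul] at h3
    rw [le_div_iff₀ hCpos]
    linarith
  refine ⟨B / ‖C₀‖ * Real.exp (1 / 2) + 2 * C + 1, by positivity, fun y hy => ?_⟩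
  have h4 : 0 < Real.exp (-(y / 2)) := Real.exp_pos _
  have h5 : 0 ≤ B / ‖C₀‖ * Real.exp (1 / 2) := by positivity
  by_cases hy1 : 1 ≤ y
  · refine (hC y hy1).1.trans ?_
    have h6 : y * Real.exp (-y) ≤ 2 * Real.exp (-(y / 2)) := by
      have h7 : Real.exp (-y) = Real.exp (-(y / 2)) * Real.exp (-(y / 2)) := by
        rw [← Real.exp_add]; congr 1; ring
      have h8 : y / 2 ≤ Real.exp (y / 2) := by
        have := Real.add_one_le_exp (y / 2); linarith
      have h9 : Real.exp (y / 2) * Real.exp (-(y / 2)) = 1 := by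
        rw [← Real.exp_add]; simp
      rw [h7]
      nlinarith
    calc _ ≤ C * (2 * Real.exp (-(y / 2))) := mul_le_mul_of_nonneg_left h6 hC0
      _ ≤ _ := by nlinarith
  · rw [not_le] at hy1
    refine (h1 y hy).trans ?_
    have h6 : 1 ≤ Real.exp (1 / 2) * Real.exp (-(y / 2)) := by
      rw [← Real.exp_add]
      apply Real.one_le_exp
      linarith
    have h7 : 0 ≤ B / ‖C₀‖ := by positivity
    nlinarith

theorem OForm.cf_bound (h : OForm f lam ν C₀) : ∃ K : ℝ, 0 < K ∧ ∀ n : ℕ, n ≠ 0 →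
    ‖cf lam n‖ ≤ K * Real.sqrt n := by
  obtain ⟨B, hB⟩ := h.bdd
  have hB0 : 0 ≤ B := (norm_nonneg _).trans (hB I)
  have hCpos : 0 < ‖C₀‖ := norm_pos_iff.2 h.C0
  obtain ⟨y, hy, hne⟩ := KK_ne_zero ν
  have hp := Real.pi_pos
  set y₀ := y / (2 * Real.pi) with hy₀
  have hy₀pos : 0 < y₀ := by positivity
  have hk : kB ν y₀ ≠ 0 := by
    unfold kB
    have e : 2 * Real.pi * y₀ = y := by rw [hy₀]; field_simp
    rw [e]
    refine mul_ne_zero ?_ hne
    exact_mod_cast (Real.sqrt_pos.2 hy₀pos).ne'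
  have hkpos : 0 < ‖kB ν y₀‖ := norm_pos_iff.2 hk
  refine ⟨B / (‖C₀‖ * ‖kB ν y₀‖) + 1, by positivity, fun n hn => ?_⟩
  have hn' : (0 : ℝ) < n := by exact_mod_cast Nat.pos_of_ne_zero hn
  have h1 := h.coef n hn (y₀ / n) (by positivity)
  have h2 := Wc_bound hB (n : ℤ) (y₀ / n)
  rw [h1, mul_div_cancel₀ _ hn'.ne', norm_mul, norm_mul, norm_div, Complex.norm_real,
    Real.norm_eq_abs, abs_of_nonneg (Real.sqrt_nonneg _)] at h2
  have hs : 0 < Real.sqrt n := Real.sqrt_pos.2 hn'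
  have h3 : ‖cf lam n‖ / Real.sqrt n ≤ B / (‖C₀‖ * ‖kB ν y₀‖) := by
    rw [le_div_iff₀ (by positivity)]
    exact h2
  rw [div_le_iff₀ hs] at h3
  nlinarith

theorem OForm.Wc_zero (h : OForm f lam ν C₀) {y : ℝ} (hy : 0 < y) : Wc f 0 y = 0 := by
  have := Wc_neg h.odd 0 hy
  rw [neg_zero] at this
  exact self_eq_neg.1 this

theorem OForm.Wc_le (h : OForm f lam ν C₀) : ∃ K : ℝ, 0 < K ∧ ∀ n : ℕ, ∀ y : ℝ, 0 < y →
    ‖Wc f n y‖ ≤ K * Real.exp (-(y / 2)) ^ n := by
  obtain ⟨K1, hK1, h1⟩ := h.kB_bound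
  obtain ⟨K2, hK2, h2⟩ := h.cf_bound
  have hCpos : 0 < ‖C₀‖ := norm_pos_iff.2 h.C0
  refine ⟨K2 * (‖C₀‖ * K1), by positivity, fun n y hy => ?_⟩
  by_cases hn : n = 0
  · subst hn
    have h3 := h.Wc_zero hy
    rw [Nat.cast_zero, h3, norm_zero]
    positivity
  · have hn' : (0 : ℝ) < n := by exact_mod_cast Nat.pos_of_ne_zero hn
    have hs : 0 < Real.sqrt n := Real.sqrt_pos.2 hn'
    rw [h.coef n hn y hy, norm_mul, norm_mul, norm_div, Complex.norm_real, Real.norm_eq_abs,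
      abs_of_nonneg (Real.sqrt_nonneg _)]
    have h3 : ‖cf lam n‖ / Real.sqrt n ≤ K2 := by
      rw [div_le_iff₀ hs]
      exact h2 n hn
    have h4 := h1 (n * y) (by positivity)
    have h5 : Real.exp (-(n * y / 2)) = Real.exp (-(y / 2)) ^ n := by
      rw [← Real.exp_nat_mul]
      congr 1
      ring
    rw [h5] at h4
    calc _ ≤ K2 * (‖C₀‖ * (K1 * Real.exp (-(y / 2)) ^ n)) := by
          gcongr
      _ = _ := by ring

theorem OForm.summable_Wc (h : OForm f lam ν C₀) {y : ℝ} (hy : 0 < y) (k : ℕ) :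
    Summable fun n : ℕ => (n : ℝ) ^ k * ‖Wc f n y‖ := by
  obtain ⟨K, hK, h1⟩ := h.Wc_le
  have hr : ‖Real.exp (-(y / 2))‖ < 1 := by
    rw [Real.norm_eq_abs, abs_of_pos (Real.exp_pos _), Real.exp_lt_one_iff]
    linarith
  have h2 := (summable_pow_mul_geometric_of_norm_lt_one k hr).mul_left K
  refine Summable.of_nonneg_of_le (fun n => by positivity) (fun n => ?_) h2
  calc (n : ℝ) ^ k * ‖Wc f n y‖ ≤ (n : ℝ) ^ k * (K * Real.exp (-(y / 2)) ^ n) := by
        gcongr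
        exact h1 n y hy
    _ = _ := by ring

theorem OForm.summable_int (h : OForm f lam ν C₀) {y : ℝ} (hy : 0 < y) :
    Summable fun n : ℤ => Wc f n y := by
  have h1 : Summable fun n : ℕ => ‖Wc f n y‖ := by
    simpa using h.summable_Wc hy 0
  refine Summable.of_nat_of_neg (Summable.of_norm h1) ?_
  refine Summable.of_norm ?_
  refine h1.congr fun n => ?_
  rw [Wc_neg h.odd _ hy, norm_neg]

/-- the Fourier expansion, one-sided -/
theorem OForm.hasSum (h : OForm f lam ν C₀) {y : ℝ} (hy : 0 < y) (x : ℝ) :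
    HasSum (fun n : ℕ => Wc f n y * (ee (n * x) - ee (-(n * x)))) (ext f (x + y * Complex.I)) := by
  have h1 := fourier_inv h.odd.1 h.cont ⟨y * Complex.I, yI_mem hy⟩ (by
    simp_rw [← Wc_eq f _ hy]
    exact h.summable_int hy) x
  have e1 : (x + y * Complex.I : ℂ) = ((pt 1 x ⟨y * Complex.I, yI_mem hy⟩ : ℍ) : ℂ) := by
    rw [coe_pt one_pos]
    push_cast
    ring
  simp_rw [← Wc_eq f _ hy] at h1
  rw [e1, ext_coe]
  have h2 := h1.nat_add_neg
  simp only [Int.cast_natCast, Int.cast_zero, h.Wc_zero hy, zero_mul, add_zero, Int.cast_neg] at h2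
  have h3 : (fun n : ℕ => Wc f n y * (ee (n * x) - ee (-(n * x)))) =
      fun n : ℕ => Wc f n y * ee (n * x) + Wc f (-(n : ℤ)) y * ee (-(n : ℝ) * x) := by
    funext n
    rw [Wc_neg h.odd _ hy, neg_mul, neg_mul, ← sub_eq_add_neg, ← mul_sub]
  rw [h3]
  exact h2

theorem ee_deriv (c : ℝ) (x : ℝ) :
    HasDerivAt (fun x : ℝ => ee (c * x)) (2 * Real.pi * Complex.I * c * ee (c * x)) x := by
  unfold ee
  have h1 : HasDerivAt (fun t : ℝ => (t : ℂ)) 1 x := Complex.ofRealCLM.hasDerivAt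
  have h2 : HasDerivAt (fun s : ℝ => (2 * Real.pi * Complex.I * ((c * s : ℝ) : ℂ) : ℂ))
      (2 * Real.pi * Complex.I * c) x := by
    have h3 := h1.const_mul (2 * Real.pi * Complex.I * c : ℂ)
    rw [mul_one] at h3
    refine h3.congr_of_eventuallyEq (Filter.Eventually.of_forall fun t => ?_)
    simp only
    push_cast
    ring
  refine h2.cexp.congr_deriv ?_
  ring

/-- the horizontal derivative -/
def fx (f : ℍ → ℂ) (z : ℂ) : ℂ := fderiv ℝ (ext f) z 1

theorem OForm.hasFDerivAt (h : OForm f lam ν C₀) {z : ℂ} (hz : z ∈ UH) :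
    HasFDerivAt (ext f) (fderiv ℝ (ext f) z) z :=
  ((h.smooth.differentiableOn (by simp)).differentiableAt (isOpen_UH.mem_nhds hz)).hasFDerivAt

theorem xyI_mem (x : ℝ) {y : ℝ} (hy : 0 < y) : (x + y * Complex.I : ℂ) ∈ UH := by
  change 0 < (x + y * Complex.I : ℂ).im
  simpa using hy

/-- the Fourier expansion of the horizontal derivative -/
theorem OForm.hasSum_fx (h : OForm f lam ν C₀) {y : ℝ} (hy : 0 < y) (x : ℝ) :
    HasSum (fun n : ℕ => 2 * Real.pi * Complex.I * n * Wc f n y *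
      (ee (n * x) + ee (-(n * x)))) (fx f (x + y * Complex.I)) := by
  have hu : Summable fun n : ℕ => (4 * Real.pi) * ((n : ℝ) ^ 1 * ‖Wc f n y‖) :=
    (h.summable_Wc hy 1).mul_left _
  have hbound : ∀ (n : ℕ) (x : ℝ), ‖2 * Real.pi * Complex.I * n * Wc f n y *
      (ee (n * x) + ee (-(n * x)))‖ ≤ (4 * Real.pi) * ((n : ℝ) ^ 1 * ‖Wc f n y‖) := by
    intro n x
    have hp := Real.pi_pos
    rw [norm_mul, norm_mul, norm_mul, norm_mul, norm_mul, Complex.norm_I, Complex.norm_natCast,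
      Complex.norm_real, Real.norm_eq_abs, abs_of_pos hp, Complex.norm_ofNat, pow_one]
    have h1 : ‖ee (n * x) + ee (-(n * x))‖ ≤ 2 := by
      refine (norm_add_le _ _).trans ?_
      rw [norm_ee, norm_ee]
      norm_num
    have h2 : 0 ≤ 2 * Real.pi * 1 * n * ‖Wc f n y‖ := by positivity
    nlinarith
  have hd : ∀ (n : ℕ) (x : ℝ), HasDerivAt (fun x : ℝ => Wc f n y * (ee (n * x) - ee (-(n * x))))
      (2 * Real.pi * Complex.I * n * Wc f n y * (ee (n * x) + ee (-(n * x)))) x := by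
    intro n x
    have h1 := ee_deriv n x
    have h2 := ee_deriv (-n) x
    simp only [neg_mul] at h2
    refine ((h1.sub h2).const_mul (Wc f n y)).congr_deriv ?_
    push_cast
    ring
  have hsum : Summable fun n : ℕ => 2 * Real.pi * Complex.I * n * Wc f n y *
      (ee (n * x) + ee (-(n * x))) := Summable.of_norm_bounded hu (fun n => hbound n x)
  have h1 := hasDerivAt_tsum hu hd hbound (h.hasSum hy 0).summable x
  have h2 : (fun x : ℝ => ∑' n : ℕ, Wc f n y * (ee (n * x) - ee (-(n * x)))) =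
      fun x : ℝ => ext f (x + y * Complex.I) := by
    funext x
    exact (h.hasSum hy x).tsum_eq
  rw [h2] at h1
  have h3 : HasDerivAt (fun x : ℝ => (x + y * Complex.I : ℂ)) 1 x := by
    have h4 : HasDerivAt (fun t : ℝ => (t : ℂ)) 1 x := Complex.ofRealCLM.hasDerivAt
    exact h4.add_const _
  have h4 := (h.hasFDerivAt (xyI_mem x hy)).comp_hasDerivAt x h3
  have h5 : fx f (x + y * Complex.I) = _ := HasDerivAt.unique h4 h1
  rw [h5]
  exact hsum.hasSum

end

end Pool.Agent.K4H20.OM
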