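import Pool.Agent.K4H20.OM.I6

set_option autoImplicit false

/-! Transformation of the twisted functions. -/

namespace Pool.Agent.K4H20.OM

open UpperHalfPlane MeasureTheory
open scoped MatrixGroups BoundedContinuousFunction Laplacian

noncomputable section

variable {f : ℍ → ℂ} {lam : ℕ → ℂ} {ν C₀ : ℂ}

/-- the dual residue -/
def dual {q : ℕ} (u : (ZMod q)ˣ) : (ZMod q)ˣ := -u⁻¹

theorem dual_dual {q : ℕ} (u : (ZMod q)ˣ) : dual (dual u) = u := by
  unfold dual
  rw [inv_neg, inv_inv, neg_neg]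

theorem dual_rel {q : ℕ} [NeZero q] (u : (ZMod q)ˣ) :
    ∃ b : ℤ, ((dual u : ZMod q).val : ℤ) * (-((u : ZMod q).val : ℤ)) - b * q = 1 := by
  have h1 : ((((dual u : ZMod q).val : ℤ) * (-((u : ZMod q).val : ℤ)) - 1 : ℤ) : ZMod q) = 0 := by
    push_cast
    rw [ZMod.natCast_zmod_val, ZMod.natCast_zmod_val]
    unfold dual
    simp
  rw [ZMod.intCast_zmod_eq_zero_iff_dvd] at h1
  obtain ⟨b, hb⟩ := h1
  exact ⟨b, by linarith⟩

/-- the invariance at rational points -/
theorem ext_dual (hf : ∀ (γ : SL(2, ℤ)) (z : ℍ), f (γ • z) = f z) {q : ℕ} [hq : NeZero q]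
    (u : (ZMod q)ˣ) {y : ℝ} (hy : 0 < y) :
    ext f (((u : ZMod q).val : ℝ) / q + y * Complex.I : ℂ) =
      ext f (((dual u : ZMod q).val : ℝ) / q + (1 / (q ^ 2 * y) : ℝ) * Complex.I : ℂ) := by
  have hq0 : (0 : ℝ) < q := by exact_mod_cast Nat.pos_of_ne_zero hq.out
  have hqc : (q : ℂ) ≠ 0 := by exact_mod_cast hq0.ne'
  have hyc : (y : ℂ) ≠ 0 := by exact_mod_cast hy.ne'
  obtain ⟨b, hb⟩ := dual_rel u
  have hy' : 0 < 1 / (q ^ 2 * y) := by positivity
  have m1 : (((u : ZMod q).val : ℝ) / q + y * Complex.I : ℂ) ∈ UH := by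
    have := xyI_mem (((u : ZMod q).val : ℝ) / q) hy
    push_cast at this ⊢
    exact this
  have m2 : (((dual u : ZMod q).val : ℝ) / q + (1 / (q ^ 2 * y) : ℝ) * Complex.I : ℂ) ∈ UH := by
    have := xyI_mem (((dual u : ZMod q).val : ℝ) / q) hy'
    push_cast at this ⊢
    exact this
  have e1 := ext_coe f ⟨_, m1⟩
  have e2 := ext_coe f ⟨_, m2⟩
  simp only at e1 e2
  rw [e1, e2]
  symm
  refine inv_of hf ((dual u : ZMod q).val) b q (-((u : ZMod q).val : ℤ)) hb ?_
  have hb' : (((dual u : ZMod q).val : ℂ)) * (-((u : ZMod q).val : ℂ)) - b * q = 1 := by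
    exact_mod_cast hb
  simp only
  push_cast
  field_simp
  linear_combination ((q : ℂ) * y) * hb' + ((q : ℂ) * y) * Complex.I_sq

/-- the invariance of the derivative at rational points -/
theorem OForm.fx_dual (h : OForm f lam ν C₀) {q : ℕ} [hq : NeZero q]
    (u : (ZMod q)ˣ) {y : ℝ} (hy : 0 < y) :
    fx f (((u : ZMod q).val : ℝ) / q + y * Complex.I : ℂ) = -(1 / (q ^ 2 * y ^ 2) : ℝ) *
      fx f (((dual u : ZMod q).val : ℝ) / q + (1 / (q ^ 2 * y) : ℝ) * Complex.I : ℂ) := by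
  have hq0 : (0 : ℝ) < q := by exact_mod_cast Nat.pos_of_ne_zero hq.out
  have hqc : (q : ℂ) ≠ 0 := by exact_mod_cast hq0.ne'
  have hyc : (y : ℂ) ≠ 0 := by exact_mod_cast hy.ne'
  obtain ⟨b, hb⟩ := dual_rel u
  have hb' : (((dual u : ZMod q).val : ℂ)) * (-((u : ZMod q).val : ℂ)) - b * q = 1 := by
    exact_mod_cast hb
  have hy' : 0 < 1 / (q ^ 2 * y) := by positivity
  set a : ℂ := ((dual u : ZMod q).val : ℂ) with ha
  set v : ℂ := ((u : ZMod q).val : ℂ) with hv
  set z₀ : ℂ := ((u : ZMod q).val : ℝ) / q + y * Complex.I with hz₀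
  set w₀ : ℂ := ((dual u : ZMod q).val : ℝ) / q + (1 / (q ^ 2 * y) : ℝ) * Complex.I with hw₀
  have m1 : z₀ ∈ UH := by
    have := xyI_mem (((u : ZMod q).val : ℝ) / q) hy
    push_cast at this ⊢
    exact this
  have m2 : w₀ ∈ UH := by
    have := xyI_mem (((dual u : ZMod q).val : ℝ) / q) hy'
    rw [hw₀]
    push_cast at this ⊢
    exact this
  let g : ℂ → ℂ := fun z => (a * z + b) / (q * z - v)
  have hden : (q : ℂ) * z₀ - v = q * y * Complex.I := by
    rw [hz₀, hv]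
    push_cast
    field_simp
    ring
  have hden0 : (q : ℂ) * z₀ - v ≠ 0 := by
    rw [hden]
    exact mul_ne_zero (mul_ne_zero hqc hyc) Complex.I_ne_zero
  have hnum : a * z₀ + b = -1 / q + a * y * Complex.I := by
    rw [hz₀]
    push_cast
    rw [← hv]
    field_simp
    linear_combination -hb'
  have hg0 : g z₀ = w₀ := by
    simp only [g]
    rw [hden, hnum, hw₀]
    push_cast
    rw [← ha]
    field_simp
    linear_combination -Complex.I_sq
  have hg1 : HasDerivAt g (-(1 / (q ^ 2 * y ^ 2) : ℝ) : ℂ) z₀ := by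
    have h1 : HasDerivAt (fun z : ℂ => a * z + b) a z₀ := by
      simpa using ((hasDerivAt_id z₀).const_mul a).add_const (b : ℂ)
    have h2 : HasDerivAt (fun z : ℂ => (q : ℂ) * z - v) q z₀ := by
      simpa using ((hasDerivAt_id z₀).const_mul (q : ℂ)).sub_const v
    refine (h1.div h2 hden0).congr_deriv ?_
    have h3 : a * (q * z₀ - v) - (a * z₀ + b) * q = 1 := by linear_combination hb'
    rw [h3, hden]
    push_cast
    field_simp
    linear_combination Complex.I_sq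
  have hinv : ∀ᶠ z in nhds z₀, ext f (g z) = ext f z := by
    have hgc : ContinuousAt g z₀ := hg1.continuousAt
    have h1 : ∀ᶠ z in nhds z₀, g z ∈ UH :=
      hgc.eventually_mem (isOpen_UH.mem_nhds (by rw [hg0]; exact m2))
    filter_upwards [isOpen_UH.mem_nhds m1, h1] with z hz hgz
    have e1 := ext_coe f ⟨_, hz⟩
    have e2 := ext_coe f ⟨_, hgz⟩
    simp only at e1 e2
    rw [e1, e2]
    refine inv_of h.odd.1 ((dual u : ZMod q).val) b q (-((u : ZMod q).val : ℤ)) hb ?_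
    have hz' : (0 : ℝ) < z.im := hz
    have hd : (q : ℂ) * z - v ≠ 0 := by
      intro h0
      have h3 := congrArg Complex.im h0
      have h4 : v.im = 0 := by rw [hv]; exact Complex.natCast_im _
      simp [h4] at h3
      rcases h3 with h3 | h3
      · exact hq.out h3
      · exact hz'.ne' h3
    simp only [g]
    push_cast
    rw [← ha, ← hv, ← sub_eq_add_neg, div_mul_cancel₀ _ hd]
  have hline : HasDerivAt (fun s : ℝ => z₀ + s) 1 0 := by
    have h4 : HasDerivAt (fun t : ℝ => (t : ℂ)) 1 0 := Complex.ofRealCLM.hasDerivAt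
    exact h4.const_add _
  have hl0 : z₀ + ((0 : ℝ) : ℂ) = z₀ := by simp
  have A1 : HasDerivAt (fun s : ℝ => ext f (z₀ + s)) (fx f z₀) 0 := by
    have h5 : HasFDerivAt (ext f) (fderiv ℝ (ext f) z₀) (z₀ + ((0 : ℝ) : ℂ)) := by
      rw [hl0]; exact h.hasFDerivAt m1
    exact h5.comp_hasDerivAt (0 : ℝ) hline
  have A2 : HasDerivAt (fun s : ℝ => ext f (g (z₀ + s)))
      (-(1 / (q ^ 2 * y ^ 2) : ℝ) * fx f w₀) 0 := by
    have h5 : HasDerivAt g (-(1 / (q ^ 2 * y ^ 2) : ℝ) : ℂ) (z₀ + ((0 : ℝ) : ℂ)) := by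
      rw [hl0]; exact hg1
    have h6 := h5.comp (0 : ℝ) hline
    have h7 : HasFDerivAt (ext f) (fderiv ℝ (ext f) w₀) (g (z₀ + ((0 : ℝ) : ℂ))) := by
      rw [hl0, hg0]; exact h.hasFDerivAt m2
    have h8 := h7.comp_hasDerivAt (0 : ℝ) h6
    refine h8.congr_deriv ?_
    have h9 : (-(1 / (q ^ 2 * y ^ 2) : ℝ) : ℂ) * 1 = (-(1 / (q ^ 2 * y ^ 2)) : ℝ) • (1 : ℂ) := by
      rw [Complex.real_smul]
      push_cast
      ring
    rw [h9, map_smul, Complex.real_smul]
    unfold fx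
    push_cast
    ring
  have A3 : (fun s : ℝ => ext f (g (z₀ + s))) =ᶠ[nhds 0] fun s : ℝ => ext f (z₀ + s) := by
    have hc : ContinuousAt (fun s : ℝ => z₀ + (s : ℂ)) 0 := hline.continuousAt
    have h5 : Filter.Tendsto (fun s : ℝ => z₀ + (s : ℂ)) (nhds 0) (nhds z₀) := by
      have := hc.tendsto
      rwa [hl0] at this
    exact h5.eventually hinv
  exact A1.unique (A2.congr_of_eventuallyEq A3.symm)

end

end Pool.Agent.K4H20.OM
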