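import Pool.Agent.K4H20.OM.I7

set_option autoImplicit false

/-! Twisted functions: symmetry and expansion. -/

namespace Pool.Agent.K4H20.OM

open UpperHalfPlane MeasureTheory
open scoped MatrixGroups BoundedContinuousFunction Laplacian

noncomputable section

variable {f : ℍ → ℂ} {lam : ℕ → ℂ} {ν C₀ : ℂ}

/-- twisted sum of values -/
def Tw0 (f : ℍ → ℂ) {q : ℕ} [NeZero q] (χ : DirichletCharacter ℂ q) (y : ℝ) : ℂ :=
  ∑ u : (ZMod q)ˣ, χ u * ext f (((u : ZMod q).val : ℝ) / q + y * Complex.I : ℂ)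

/-- twisted sum of derivatives -/
def Tw1 (f : ℍ → ℂ) {q : ℕ} [NeZero q] (χ : DirichletCharacter ℂ q) (y : ℝ) : ℂ :=
  ∑ u : (ZMod q)ˣ, χ u * fx f (((u : ZMod q).val : ℝ) / q + y * Complex.I : ℂ)

theorem chi_dual {q : ℕ} {χ : DirichletCharacter ℂ q} (hχ : χ⁻¹ = χ) (u : (ZMod q)ˣ) :
    χ (dual u : ZMod q) = χ (-1) * χ u := by
  unfold dual
  have h1 : ((-u⁻¹ : (ZMod q)ˣ) : ZMod q) = (-1) * ((u⁻¹ : (ZMod q)ˣ) : ZMod q) := by
    push_cast
    ring
  rw [h1, map_mul]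
  congr 1
  have h2 : χ⁻¹ (u : ZMod q) = χ ((u⁻¹ : (ZMod q)ˣ) : ZMod q) := by
    rw [MulChar.inv_apply, Ring.inverse_unit]
  rw [← h2, hχ]

theorem Tw0_dual (hf : ∀ (γ : SL(2, ℤ)) (z : ℍ), f (γ • z) = f z) {q : ℕ} [NeZero q]
    {χ : DirichletCharacter ℂ q} (hχ : χ⁻¹ = χ) {y : ℝ} (hy : 0 < y) :
    Tw0 f χ y = χ (-1) * Tw0 f χ (1 / (q ^ 2 * y)) := by
  unfold Tw0
  let σ : (ZMod q)ˣ ≃ (ZMod q)ˣ := ⟨dual, dual, dual_dual, dual_dual⟩
  rw [Finset.mul_sum, ← Equiv.sum_comp σ]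
  refine Finset.sum_congr rfl fun u _ => ?_
  change χ (dual u : ZMod q) * _ = _
  rw [ext_dual hf _ hy]
  change χ (dual u : ZMod q) * ext f (((dual (dual u) : ZMod q).val : ℝ) / q + _) = _
  rw [dual_dual, chi_dual hχ]
  ring

theorem OForm.Tw1_dual (h : OForm f lam ν C₀) {q : ℕ} [NeZero q]
    {χ : DirichletCharacter ℂ q} (hχ : χ⁻¹ = χ) {y : ℝ} (hy : 0 < y) :
    Tw1 f χ y = -(χ (-1)) * (1 / (q ^ 2 * y ^ 2) : ℝ) * Tw1 f χ (1 / (q ^ 2 * y)) := by
  unfold Tw1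
  let σ : (ZMod q)ˣ ≃ (ZMod q)ˣ := ⟨dual, dual, dual_dual, dual_dual⟩
  rw [Finset.mul_sum, ← Equiv.sum_comp σ]
  refine Finset.sum_congr rfl fun u _ => ?_
  change χ (dual u : ZMod q) * _ = _
  rw [h.fx_dual _ hy]
  change χ (dual u : ZMod q) * (_ * fx f (((dual (dual u) : ZMod q).val : ℝ) / q + _)) = _
  rw [dual_dual, chi_dual hχ]
  ring

/-- Gauss sums over units -/
theorem sum_ee {q : ℕ} [hq : NeZero q] {χ : DirichletCharacter ℂ q} (hp : χ.IsPrimitive)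
    (hχ : χ⁻¹ = χ) (n : ℤ) :
    ∑ u : (ZMod q)ˣ, χ u * ee (n * (((u : ZMod q).val : ℝ) / q)) =
      χ n * gaussSum χ ZMod.stdAddChar := by
  have h1 := gaussSum_mulShift_of_isPrimitive (ZMod.stdAddChar (N := q)) hp (n : ZMod q)
  rw [hχ] at h1
  rw [← h1, gaussSum]
  refine Fintype.sum_of_injective (fun u : (ZMod q)ˣ => (u : ZMod q)) Units.val_injective _ _ ?_ ?_
  · intro a ha
    rw [MulChar.map_nonunit, zero_mul]
    rintro ⟨u, rfl⟩
    exact ha ⟨u, rfl⟩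
  · intro u
    congr 1
    rw [AddChar.mulShift_apply]
    have h2 : (n : ZMod q) * (u : ZMod q) = ((n * ((u : ZMod q).val : ℤ) : ℤ) : ZMod q) := by
      push_cast
      rw [ZMod.natCast_zmod_val]
    rw [h2, ZMod.stdAddChar_coe]
    unfold ee
    congr 1
    push_cast
    ring

theorem gauss_ne_zero {q : ℕ} [hq : NeZero q] {χ : DirichletCharacter ℂ q} (hp : χ.IsPrimitive) :
    gaussSum χ ZMod.stdAddChar ≠ 0 := by
  intro h
  have h1 : ZMod.dft (χ : ZMod q → ℂ) = 0 := by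
    funext k
    rw [DirichletCharacter.IsPrimitive.fourierTransform_eq_inv_mul_gaussSum hp k, h, mul_zero]
    rfl
  have h2 : (χ : ZMod q → ℂ) = 0 := by
    have := (ZMod.dft (N := q) (E := ℂ)).injective (a₁ := (χ : ZMod q → ℂ)) (a₂ := 0)
    apply this
    rw [h1, map_zero]
  have h3 := congrFun h2 1
  rw [map_one] at h3
  exact one_ne_zero h3

theorem OForm.Tw0_hasSum (h : OForm f lam ν C₀) {q : ℕ} [NeZero q]
    {χ : DirichletCharacter ℂ q} (hp : χ.IsPrimitive) (hχ : χ⁻¹ = χ) (hodd : χ (-1) = -1)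
    {y : ℝ} (hy : 0 < y) :
    HasSum (fun n : ℕ => 2 * gaussSum χ ZMod.stdAddChar * (χ n * Wc f n y)) (Tw0 f χ y) := by
  have h1 : ∀ u ∈ (Finset.univ : Finset (ZMod q)ˣ), HasSum (fun n : ℕ => χ u * (Wc f n y *
      (ee (n * (((u : ZMod q).val : ℝ) / q)) - ee (-(n * (((u : ZMod q).val : ℝ) / q))))))
      (χ u * ext f (((u : ZMod q).val : ℝ) / q + y * Complex.I : ℂ)) := by
    intro u _
    have h2 := h.hasSum hy (((u : ZMod q).val : ℝ) / q)
    push_cast at h2 ⊢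
    exact h2.mul_left _
  have h2 := hasSum_sum h1
  unfold Tw0
  convert h2 using 1
  funext n
  have e1 := sum_ee hp hχ (n : ℤ)
  have e2 := sum_ee hp hχ (-(n : ℤ))
  have e3 : χ ((-(n : ℤ) : ℤ) : ZMod q) = - χ n := by
    push_cast
    rw [neg_eq_neg_one_mul, map_mul, hodd]
    ring
  rw [e3] at e2
  push_cast at e1 e2
  have e4 : ∀ u : (ZMod q)ˣ, χ u * (Wc f n y *
      (ee (n * (((u : ZMod q).val : ℝ) / q)) - ee (-(n * (((u : ZMod q).val : ℝ) / q))))) =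
      Wc f n y * (χ u * ee (n * (((u : ZMod q).val : ℝ) / q)) -
        χ u * ee (-n * (((u : ZMod q).val : ℝ) / q))) := by
    intro u
    rw [neg_mul]
    ring
  simp_rw [e4]
  rw [← Finset.mul_sum, Finset.sum_sub_distrib, e1, e2]
  ring

theorem OForm.Tw1_hasSum (h : OForm f lam ν C₀) {q : ℕ} [NeZero q]
    {χ : DirichletCharacter ℂ q} (hp : χ.IsPrimitive) (hχ : χ⁻¹ = χ) (heven : χ (-1) = 1)
    {y : ℝ} (hy : 0 < y) :
    HasSum (fun n : ℕ => 4 * Real.pi * Complex.I * gaussSum χ ZMod.stdAddChar *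
      (χ n * (n * Wc f n y))) (Tw1 f χ y) := by
  have h1 : ∀ u ∈ (Finset.univ : Finset (ZMod q)ˣ), HasSum (fun n : ℕ => χ u *
      (2 * Real.pi * Complex.I * n * Wc f n y *
      (ee (n * (((u : ZMod q).val : ℝ) / q)) + ee (-(n * (((u : ZMod q).val : ℝ) / q))))))
      (χ u * fx f (((u : ZMod q).val : ℝ) / q + y * Complex.I : ℂ)) := by
    intro u _
    have h2 := h.hasSum_fx hy (((u : ZMod q).val : ℝ) / q)
    push_cast at h2 ⊢
    exact h2.mul_left _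
  have h2 := hasSum_sum h1
  unfold Tw1
  convert h2 using 1
  funext n
  have e1 := sum_ee hp hχ (n : ℤ)
  have e2 := sum_ee hp hχ (-(n : ℤ))
  have e3 : χ ((-(n : ℤ) : ℤ) : ZMod q) = χ n := by
    push_cast
    rw [neg_eq_neg_one_mul, map_mul, heven]
    ring
  rw [e3] at e2
  push_cast at e1 e2
  have e4 : ∀ u : (ZMod q)ˣ, χ u * (2 * Real.pi * Complex.I * n * Wc f n y *
      (ee (n * (((u : ZMod q).val : ℝ) / q)) + ee (-(n * (((u : ZMod q).val : ℝ) / q))))) =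
      2 * Real.pi * Complex.I * n * Wc f n y * (χ u * ee (n * (((u : ZMod q).val : ℝ) / q)) +
        χ u * ee (-n * (((u : ZMod q).val : ℝ) / q))) := by
    intro u
    rw [neg_mul]
    ring
  simp_rw [e4]
  rw [← Finset.mul_sum, Finset.sum_add_distrib, e1, e2]
  ring

theorem OForm.cont_ext (h : OForm f lam ν C₀) (x : ℝ) :
    ContinuousOn (fun y : ℝ => ext f (x + y * Complex.I)) (Set.Ioi 0) := by
  refine h.smooth.continuousOn.comp (by fun_prop) ?_
  intro y hy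
  exact xyI_mem x hy

theorem OForm.cont_fx (h : OForm f lam ν C₀) (x : ℝ) :
    ContinuousOn (fun y : ℝ => fx f (x + y * Complex.I)) (Set.Ioi 0) := by
  have h1 := h.smooth.fderiv_of_isOpen isOpen_UH (m := (⊤ : ℕ∞)) (by simp)
  have h2 : ContinuousOn (fx f) UH := by
    have h3 := h1.continuousOn
    exact h3.clm_apply continuousOn_const
  refine h2.comp (by fun_prop) ?_
  intro y hy
  exact xyI_mem x hy

theorem OForm.Tw0_cont (h : OForm f lam ν C₀) {q : ℕ} [NeZero q] (χ : DirichletCharacter ℂ q) :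
    ContinuousOn (Tw0 f χ) (Set.Ioi 0) := by
  unfold Tw0
  refine continuousOn_finsetSum _ fun u _ => continuousOn_const.mul ?_
  have := h.cont_ext (((u : ZMod q).val : ℝ) / q)
  push_cast at this ⊢
  exact this

theorem OForm.Tw1_cont (h : OForm f lam ν C₀) {q : ℕ} [NeZero q] (χ : DirichletCharacter ℂ q) :
    ContinuousOn (Tw1 f χ) (Set.Ioi 0) := by
  unfold Tw1
  refine continuousOn_finsetSum _ fun u _ => continuousOn_const.mul ?_
  have := h.cont_fx (((u : ZMod q).val : ℝ) / q)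
  push_cast at this ⊢
  exact this

end

end Pool.Agent.K4H20.OM
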