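import Mathlib

set_option autoImplicit false

/-! Mellin transforms of theta-like series with an antisymmetry. -/

namespace Pool.Agent.K4H20.OM

open MeasureTheory Set Filter Asymptotics
open scoped Topology

noncomputable section

theorem mm_decay {w hh : ℝ → ℂ} {b : ℕ → ℂ} {c K K' : ℝ} (hc : 0 < c) (hK : 0 ≤ K) (hK' : 0 ≤ K')
    (hwK : ∀ t, 0 < t → ‖w t‖ ≤ K * Real.exp (-(t / 4))) (hb : ∀ n, ‖b n‖ ≤ K') (hb0 : b 0 = 0)
    (hsum : ∀ y, 0 < y → HasSum (fun n : ℕ => b n * w (c * n * y)) (hh y)) :
    ∃ C : ℝ, ∀ y, 1 ≤ y → ‖hh y‖ ≤ C * Real.exp (-(c / 4) * y) := by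
  set r₁ : ℝ := Real.exp (-(c / 4)) with hr₁
  have hr₁1 : r₁ < 1 := by
    rw [hr₁, Real.exp_lt_one_iff]
    linarith
  refine ⟨K' * K / (1 - r₁), fun y hy => ?_⟩
  set r : ℝ := Real.exp (-(c / 4) * y) with hr
  have hr0 : 0 < r := Real.exp_pos _
  have hrr : r ≤ r₁ := Real.exp_le_exp.2 (by nlinarith)
  have hr1 : r < 1 := lt_of_le_of_lt hrr hr₁1
  have h1 : HasSum (fun n : ℕ => b (n + 1) * w (c * (n + 1 : ℕ) * y)) (hh y) := by
    have h2 := (hasSum_nat_add_iff' 1).2 (hsum y (by linarith))
    simpa [hb0] using h2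
  have h2 : HasSum (fun n : ℕ => K' * K * r * r ^ n) (K' * K * r * (1 - r)⁻¹) :=
    (hasSum_geometric_of_lt_one hr0.le hr1).mul_left _
  have h3 := h1.norm_le_of_bounded h2 (fun n => by
    rw [norm_mul]
    have h4 := hwK (c * (n + 1 : ℕ) * y) (by positivity)
    have h5 : Real.exp (-(c * (n + 1 : ℕ) * y / 4)) = r * r ^ n := by
      rw [hr, ← pow_succ', ← Real.exp_nat_mul]
      congr 1
      push_cast
      ring
    rw [h5] at h4
    calc _ ≤ K' * (K * (r * r ^ n)) := mul_le_mul (hb _) h4 (norm_nonneg _) hK'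
      _ = _ := by ring)
  refine h3.trans ?_
  have h6 : (1 - r)⁻¹ ≤ (1 - r₁)⁻¹ := by
    apply inv_anti₀
    · linarith
    · linarith
  have h7 : 0 ≤ K' * K * r := by positivity
  calc _ ≤ K' * K * r * (1 - r₁)⁻¹ := mul_le_mul_of_nonneg_left h6 h7
    _ = _ := by ring

theorem mm_entire {hh : ℝ → ℂ} {C κ : ℝ} (hκ : 0 < κ)
    (hdec : ∀ y, 1 ≤ y → ‖hh y‖ ≤ C * Real.exp (-κ * y)) (hcont : ContinuousOn hh (Ioi 0))
    (hfe : ∀ y, 0 < y → hh y = - hh (1 / y)) :
    Differentiable ℂ (mellin hh) ∧ ∀ s, mellin hh (-s) = - mellin hh s := by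
  have htop : ∀ a : ℝ, hh =O[atTop] (fun x : ℝ => x ^ (-a)) := by
    intro a
    have h1 : hh =O[atTop] fun x : ℝ => Real.exp (-κ * x) := by
      refine IsBigO.of_bound C ?_
      filter_upwards [eventually_ge_atTop 1] with y hy
      rw [Real.norm_eq_abs, abs_of_pos (Real.exp_pos _)]
      exact hdec y hy
    exact h1.trans (isLittleO_exp_neg_mul_rpow_atTop hκ (-a)).isBigO
  have hbot : ∀ b : ℝ, hh =O[𝓝[>] 0] (fun x : ℝ => x ^ (-b)) := by
    intro b
    have h1 := (htop (-b)).comp_tendsto (tendsto_inv_nhdsGT_zero (𝕜 := ℝ))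
    rw [neg_neg] at h1
    have h2 : (fun x => -hh x) =O[𝓝[>] 0] (fun x : ℝ => x ^ (-b)) := by
      refine IsBigO.congr' h1 ?_ ?_
      · filter_upwards [self_mem_nhdsWithin] with x hx
        have := hfe x hx
        rw [this, neg_neg, Function.comp, one_div]
      · filter_upwards [self_mem_nhdsWithin] with x hx
        have hx' : (0 : ℝ) < x := hx
        rw [Function.comp, Real.inv_rpow hx'.le, Real.rpow_neg hx'.le]
    have h3 := h2.neg_left
    simpa using h3
  constructor
  · intro s
    exact mellin_differentiableAt_of_isBigO_rpow (a := s.re + 1) (b := s.re - 1)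
      (hcont.locallyIntegrableOn measurableSet_Ioi) (htop _) (by linarith) (hbot _) (by linarith)
  · intro s
    have h1 := mellin_comp_inv hh s
    have h2 : mellin (fun t => hh t⁻¹) s = - mellin hh s := by
      rw [mellin, mellin, ← integral_neg]
      apply setIntegral_congr_fun measurableSet_Ioi
      intro t ht
      have h3 := hfe t ht
      rw [one_div] at h3
      simp only
      rw [h3]
      simp
    rw [h2] at h1
    exact h1.symm

theorem mm_conv {w : ℝ → ℂ} {K : ℝ} (hw : ContinuousOn w (Ioi 0))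
    (hwK : ∀ t, 0 < t → ‖w t‖ ≤ K * Real.exp (-(t / 4))) {s : ℂ} (hs : 0 < s.re) :
    MellinConvergent w s := by
  refine mellinConvergent_of_isBigO_rpow_exp (a := 1 / 4) (b := 0) (by norm_num)
    (hw.locallyIntegrableOn measurableSet_Ioi) ?_ ?_ hs
  · refine IsBigO.of_bound K ?_
    filter_upwards [eventually_gt_atTop 0] with y hy
    rw [Real.norm_eq_abs, abs_of_pos (Real.exp_pos _)]
    have := hwK y hy
    have e : -(y / 4) = -(1 / 4) * y := by ring
    rwa [e] at this
  · refine IsBigO.of_bound K ?_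
    filter_upwards [self_mem_nhdsWithin] with y hy
    have hy' : (0 : ℝ) < y := hy
    have h1 := hwK y hy
    have hK : 0 ≤ K := by
      have h2 := (norm_nonneg _).trans h1
      have h3 := Real.exp_pos (-(y / 4))
      by_contra h4
      rw [not_le] at h4
      nlinarith
    have h5 : Real.exp (-(y / 4)) ≤ 1 := by
      rw [Real.exp_le_one_iff]
      linarith
    have h6 : ‖y ^ (-(0 : ℝ))‖ = 1 := by simp
    rw [h6, mul_one]
    nlinarith

theorem mm_sum {w hh : ℝ → ℂ} {b : ℕ → ℂ} {c K K' : ℝ} (hc : 0 < c) (hK : 0 ≤ K) (hK' : 0 ≤ K')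
    (hw : ContinuousOn w (Ioi 0))
    (hwK : ∀ t, 0 < t → ‖w t‖ ≤ K * Real.exp (-(t / 4))) (hb : ∀ n, ‖b n‖ ≤ K') (hb0 : b 0 = 0)
    (hsum : ∀ y, 0 < y → HasSum (fun n : ℕ => b n * w (c * n * y)) (hh y)) {s : ℂ}
    (hs : 1 < s.re) :
    HasSum (fun n : ℕ => b n * ((c * n : ℝ) : ℂ) ^ (-s) * mellin w s) (mellin hh s) := by
  let F : ℕ → ℝ → ℂ := fun n t => (t : ℂ) ^ (s - 1) • (b n * w (c * n * t))
  have hconv := mm_conv hw hwK (s := s) (by linarith)
  have hF : ∀ n, Integrable (F n) (volume.restrict (Ioi 0)) := by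
    intro n
    by_cases hn : n = 0
    · subst hn
      have : F 0 = fun _ => 0 := by
        funext t
        simp [F, hb0]
      rw [this]
      exact integrable_zero _ _ _
    · have hn' : (0 : ℝ) < n := by exact_mod_cast Nat.pos_of_ne_zero hn
      have h1 := (MellinConvergent.comp_mul_left (f := w) (s := s) (a := c * n) (by positivity)).2 hconv
      have h2 : Integrable (fun t : ℝ => b n * ((t : ℂ) ^ (s - 1) • w (c * n * t)))
          (volume.restrict (Ioi 0)) := Integrable.const_mul h1 (b n)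
      refine h2.congr (Eventually.of_forall fun t => ?_)
      simp only [F, smul_eq_mul]
      ring
  have hint : ∀ n, ∫ t in Ioi (0 : ℝ), F n t = b n * ((c * n : ℝ) : ℂ) ^ (-s) * mellin w s := by
    intro n
    by_cases hn : n = 0
    · subst hn
      have : F 0 = fun _ => 0 := by
        funext t
        simp [F, hb0]
      rw [this, hb0]
      simp
    · have hn' : (0 : ℝ) < n := by exact_mod_cast Nat.pos_of_ne_zero hn
      have h1 := mellin_comp_mul_left w s (a := c * n) (by positivity)
      rw [mul_assoc, ← smul_eq_mul (((c * n : ℝ) : ℂ) ^ (-s)), ← h1, mellin, ← integral_const_mul]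
      congr 1
      funext t
      simp only [F, smul_eq_mul]
      ring
  have hsumm : Summable fun n => ∫ t in Ioi (0 : ℝ), ‖F n t‖ := by
    have h0 : ∀ n : ℕ, n ≠ 0 → ∫ t in Ioi (0 : ℝ), ‖F n t‖ ≤
        K' * K * ((4 / c) ^ s.re * Real.Gamma s.re) * (1 / (n : ℝ) ^ s.re) := by
      intro n hn
      have hn' : (0 : ℝ) < n := by exact_mod_cast Nat.pos_of_ne_zero hn
      have hr : 0 < c * n / 4 := by positivity
      have h1 := Real.integral_rpow_mul_exp_neg_mul_Ioi (a := s.re) (by linarith) hr
      have hGam : 0 < Real.Gamma s.re := Real.Gamma_pos_of_pos (by linarith)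
      have hgi : Integrable (fun t : ℝ => t ^ (s.re - 1) * Real.exp (-(c * n / 4 * t)))
          (volume.restrict (Ioi 0)) := by
        by_contra hcon
        rw [integral_undef hcon] at h1
        have : 0 < (1 / (c * n / 4)) ^ s.re * Real.Gamma s.re := by positivity
        linarith
      have h2 : ∫ t in Ioi (0 : ℝ), ‖F n t‖ ≤
          ∫ t in Ioi (0 : ℝ), K' * K * (t ^ (s.re - 1) * Real.exp (-(c * n / 4 * t))) := by
        refine integral_mono_of_nonneg (Eventually.of_forall fun t => norm_nonneg _)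
          (hgi.const_mul _) ?_
        filter_upwards [ae_restrict_mem measurableSet_Ioi] with t ht
        have ht' : (0 : ℝ) < t := ht
        simp only [F]
        rw [norm_smul, norm_mul, Complex.norm_cpow_eq_rpow_re_of_pos ht', Complex.sub_re,
          Complex.one_re]
        have h3 := hwK (c * n * t) (by positivity)
        have h4 : -(c * n * t / 4) = -(c * n / 4 * t) := by ring
        rw [h4] at h3
        have h5 : 0 ≤ t ^ (s.re - 1) := by positivity
        calc _ ≤ t ^ (s.re - 1) * (K' * (K * Real.exp (-(c * n / 4 * t)))) :=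
              mul_le_mul_of_nonneg_left (mul_le_mul (hb n) h3 (norm_nonneg _) hK') h5
          _ = _ := by ring
      rw [integral_const_mul, h1] at h2
      refine h2.trans (le_of_eq ?_)
      have h6 : (1 / (c * n / 4)) ^ s.re = (4 / c) ^ s.re * (1 / (n : ℝ) ^ s.re) := by
        rw [one_div, one_div, ← Real.inv_rpow (by positivity), ← Real.mul_rpow (by positivity)
          (by positivity)]
        congr 1
        field_simp
      rw [h6]
      ring
    have h1 : Summable fun n : ℕ => K' * K * ((4 / c) ^ s.re * Real.Gamma s.re) *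
        (1 / (n : ℝ) ^ s.re) := (Real.summable_one_div_nat_rpow.2 hs).mul_left _
    refine Summable.of_nonneg_of_le (fun n => integral_nonneg fun t => norm_nonneg _)
      (fun n => ?_) h1
    by_cases hn : n = 0
    · subst hn
      have : F 0 = fun _ => 0 := by
        funext t
        simp [F, hb0]
      rw [this]
      simp only [norm_zero, integral_zero]
      have hGam : 0 < Real.Gamma s.re := Real.Gamma_pos_of_pos (by linarith)
      positivity
    · exact h0 n hn
  have hmain := hasSum_integral_of_summable_integral_norm hF hsumm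
  simp_rw [hint] at hmain
  have e : mellin hh s = ∫ t in Ioi (0 : ℝ), ∑' n, F n t := by
    unfold mellin
    apply setIntegral_congr_fun measurableSet_Ioi
    intro t ht
    have h1 := (hsum t ht).const_smul ((t : ℂ) ^ (s - 1))
    exact h1.tsum_eq.symm
  rw [e]
  exact hmain

end

end Pool.Agent.K4H20.OM
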