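import Pool.Agent.K4H20.OM.I8
import Pool.Agent.K4H20.OM.J1

set_option autoImplicit false

/-! The twisted `L`-functions. -/

namespace Pool.Agent.K4H20.OM

open UpperHalfPlane MeasureTheory Filter
open scoped MatrixGroups BoundedContinuousFunction Laplacian

noncomputable section

variable {f : ℍ → ℂ} {lam : ℕ → ℂ} {ν C₀ : ℂ}

theorem hs_congr {g₁ g₂ : ℕ → ℂ} {a : ℂ} (hg : HasSum g₂ a) (h : ∀ n, g₁ n = g₂ n) :
    HasSum g₁ a := by
  rw [funext h]
  exact hg

/-- the archimedean kernel -/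
def wd (ν : ℂ) (δ : ℕ) (t : ℝ) : ℂ := (t : ℂ) ^ δ * kB ν t

theorem kB_contOn (ν : ℂ) : ContinuousOn (kB ν) (Set.Ioi 0) :=
  fun _ hy => (kB_deriv ν hy).continuousAt.continuousWithinAt

theorem wd_contOn (ν : ℂ) (δ : ℕ) : ContinuousOn (wd ν δ) (Set.Ioi 0) := by
  unfold wd
  exact ContinuousOn.mul (by fun_prop) (kB_contOn ν)

theorem OForm.wd_bound (h : OForm f lam ν C₀) {δ : ℕ} (hδ : δ ≤ 1) : ∃ K : ℝ, 0 ≤ K ∧
    ∀ t : ℝ, 0 < t → ‖wd ν δ t‖ ≤ K * Real.exp (-(t / 4)) := by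
  obtain ⟨K, hK, h1⟩ := h.kB_bound
  refine ⟨4 * K, by positivity, fun t ht => ?_⟩
  unfold wd
  rw [norm_mul, norm_pow, Complex.norm_real, Real.norm_eq_abs, abs_of_pos ht]
  have h2 := h1 t ht
  have h3 : Real.exp (-(t / 2)) = Real.exp (-(t / 4)) * Real.exp (-(t / 4)) := by
    rw [← Real.exp_add]; congr 1; ring
  have h4 : 0 < Real.exp (-(t / 4)) := Real.exp_pos _
  have h5 : t / 4 ≤ Real.exp (t / 4) := by have := Real.add_one_le_exp (t / 4); linarith
  have h6 : Real.exp (t / 4) * Real.exp (-(t / 4)) = 1 := by rw [← Real.exp_add]; simp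
  have h7 : Real.exp (-(t / 4)) ≤ 1 := by rw [Real.exp_le_one_iff]; linarith
  have h8 : t ^ δ * Real.exp (-(t / 4)) ≤ 4 := by
    interval_cases δ
    · rw [pow_zero, one_mul]; linarith
    · rw [pow_one]; nlinarith
  calc t ^ δ * ‖kB ν t‖ ≤ t ^ δ * (K * Real.exp (-(t / 2))) := by gcongr
    _ = K * (t ^ δ * Real.exp (-(t / 4))) * Real.exp (-(t / 4)) := by rw [h3]; ring
    _ ≤ K * 4 * Real.exp (-(t / 4)) := by gcongr
    _ = _ := by ring

theorem mellin_wd (ν : ℂ) (δ : ℕ) {s : ℂ} (hs : |ν.re| < (s + δ).re) :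
    mellin (wd ν δ) (s - 1 / 2) = (2 * Real.pi : ℝ) ^ (-(s + δ)) * 2 ^ (s + δ - 1) *
      (Complex.Gamma ((s + δ + ν) / 2) * Complex.Gamma ((s + δ - ν) / 2)) := by
  have hp := Real.pi_pos
  have e1 : mellin (wd ν δ) (s - 1 / 2) =
      mellin (fun t : ℝ => (t : ℂ) ^ ((δ : ℂ) + 1 / 2) • KK 0 ν (2 * Real.pi * t)) (s - 1 / 2) := by
    unfold mellin
    apply setIntegral_congr_fun measurableSet_Ioi
    intro t ht
    have ht' : (0 : ℝ) < t := ht
    have htc : (t : ℂ) ≠ 0 := by exact_mod_cast ht'.ne'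
    simp only [wd, kB, smul_eq_mul]
    rw [Complex.cpow_add _ _ htc, Complex.cpow_natCast]
    have h1 : (t : ℂ) ^ (1 / 2 : ℂ) = (Real.sqrt t : ℂ) := by
      rw [Real.sqrt_eq_rpow, Complex.ofReal_cpow ht'.le]
      push_cast
      rfl
    rw [h1]
    ring
  have e2 : s - 1 / 2 + ((δ : ℂ) + 1 / 2) = s + δ := by ring
  have e3 := mellin_comp_mul_left (KK 0 ν) (s + δ) (a := 2 * Real.pi) (by positivity)
  rw [e1, mellin_cpow_smul, e2, e3, (KK_mellin hs).2, smul_eq_mul]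
  ring

/-- the coefficients -/
def bn {q : ℕ} (χ : DirichletCharacter ℂ q) (lam : ℕ → ℂ) (n : ℕ) : ℂ :=
  if n = 0 then 0 else χ n * cf lam n / (Real.sqrt n : ℂ)

theorem OForm.bn_bound (h : OForm f lam ν C₀) {q : ℕ} (χ : DirichletCharacter ℂ q) :
    ∃ K : ℝ, 0 ≤ K ∧ ∀ n, ‖bn χ lam n‖ ≤ K := by
  obtain ⟨K, hK, h1⟩ := h.cf_bound
  refine ⟨K, hK.le, fun n => ?_⟩
  unfold bn
  split_ifs with hn
  · rw [norm_zero]; exact hK.le
  · have hn' : (0 : ℝ) < n := by exact_mod_cast Nat.pos_of_ne_zero hn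
    have hs : 0 < Real.sqrt n := Real.sqrt_pos.2 hn'
    rw [norm_div, norm_mul, Complex.norm_real, Real.norm_eq_abs, abs_of_nonneg (Real.sqrt_nonneg _),
      div_le_iff₀ hs]
    have h2 := h1 n hn
    have h3 : ‖χ n‖ ≤ 1 := DirichletCharacter.norm_le_one χ _
    have h4 := norm_nonneg (cf lam n)
    nlinarith

/-- the two symmetric functions -/
theorem OForm.exists_hh (h : OForm f lam ν C₀) {q : ℕ} [hq : NeZero q]
    {χ : DirichletCharacter ℂ q} (hp : χ.IsPrimitive) (hχ : χ⁻¹ = χ) :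
    ∃ (δ : ℕ) (hh : ℝ → ℂ), δ ≤ 1 ∧ ContinuousOn hh (Set.Ioi 0) ∧
      (∀ y, 0 < y → hh y = - hh (1 / y)) ∧
      ∀ y : ℝ, 0 < y → HasSum (fun n : ℕ => bn χ lam n * wd ν δ (1 / q * n * y)) (hh y) := by
  have hq0 : (0 : ℝ) < q := by exact_mod_cast Nat.pos_of_ne_zero hq.out
  have hqc : (q : ℂ) ≠ 0 := by exact_mod_cast hq0.ne'
  have hG := gauss_ne_zero hp
  set G := gaussSum χ ZMod.stdAddChar with hGdef
  have hC := h.C0
  have hpi : (Real.pi : ℂ) ≠ 0 := by exact_mod_cast Real.pi_ne_zero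
  have hmaps : Set.MapsTo (fun y : ℝ => y / q) (Set.Ioi 0) (Set.Ioi 0) := by
    intro y hy
    exact div_pos hy hq0
  rcases χ.even_or_odd with he | ho
  · -- even
    refine ⟨1, fun y => (4 * Real.pi * Complex.I * G * C₀ * q)⁻¹ * (y * Tw1 f χ (y / q)), le_rfl,
      ?_, ?_, ?_⟩
    · refine continuousOn_const.mul (ContinuousOn.mul (by fun_prop) ?_)
      exact (h.Tw1_cont χ).comp (by fun_prop) hmaps
    · intro y hy
      have h1 := h.Tw1_dual hχ (y := y / q) (by positivity)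
      have hev : χ (-1) = 1 := he
      have e1 : 1 / ((q : ℝ) ^ 2 * (y / q)) = 1 / y / q := by field_simp
      have e2 : 1 / ((q : ℝ) ^ 2 * (y / q) ^ 2) = 1 / y ^ 2 := by field_simp
      rw [hev, e1, e2] at h1
      have hyc : (y : ℂ) ≠ 0 := by exact_mod_cast hy.ne'
      simp only
      rw [h1]
      push_cast
      field_simp
    · intro y hy
      have hev : χ (-1) = 1 := he
      have h1 := (h.Tw1_hasSum hp hχ hev (y := y / q) (by positivity)).mul_left
        ((4 * Real.pi * Complex.I * G * C₀ * q)⁻¹ * (y : ℂ))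
      have h2 : (4 * Real.pi * Complex.I * G * C₀ * q)⁻¹ * (y : ℂ) * Tw1 f χ (y / q) =
          (4 * Real.pi * Complex.I * G * C₀ * q)⁻¹ * ((y : ℂ) * Tw1 f χ (y / q)) := mul_assoc _ _ _
      rw [h2] at h1
      refine hs_congr h1 fun n => ?_
      by_cases hn : n = 0
      · subst hn
        simp [bn]
      · have hn' : (0 : ℝ) < n := by exact_mod_cast Nat.pos_of_ne_zero hn
        have e1 : (1 : ℝ) / q * n * y = n * (y / q) := by ring
        rw [h.coef n hn (y / q) (by positivity)]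
        unfold bn wd
        rw [if_neg hn, e1, pow_one, ← hGdef]
        push_cast
        field_simp
  · -- odd
    refine ⟨0, fun y => (2 * G * C₀)⁻¹ * Tw0 f χ (y / q), zero_le_one, ?_, ?_, ?_⟩
    · refine continuousOn_const.mul ?_
      exact (h.Tw0_cont χ).comp (by fun_prop) hmaps
    · intro y hy
      have h1 := Tw0_dual h.odd.1 hχ (y := y / q) (by positivity)
      have hev : χ (-1) = -1 := ho
      have e1 : 1 / ((q : ℝ) ^ 2 * (y / q)) = 1 / y / q := by field_simp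
      rw [hev, e1] at h1
      simp only
      rw [h1]
      ring
    · intro y hy
      have hev : χ (-1) = -1 := ho
      have h1 := (h.Tw0_hasSum hp hχ hev (y := y / q) (by positivity)).mul_left
        ((2 * G * C₀)⁻¹)
      refine hs_congr h1 fun n => ?_
      by_cases hn : n = 0
      · subst hn
        have h2 := h.Wc_zero (y := y / q) (by positivity)
        simp [bn, h2]
      · have hn' : (0 : ℝ) < n := by exact_mod_cast Nat.pos_of_ne_zero hn
        have e1 : (1 : ℝ) / q * n * y = n * (y / q) := by ring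
        rw [h.coef n hn (y / q) (by positivity)]
        unfold bn wd
        rw [if_neg hn, e1, pow_zero, one_mul, ← hGdef]
        field_simp

/-- **The twisted `L`-function** is entire, its completion is antisymmetric. -/
theorem OForm.exists_L (h : OForm f lam ν C₀) {q : ℕ} [hq : NeZero q]
    {χ : DirichletCharacter ℂ q} (hp : χ.IsPrimitive) (hχ : χ⁻¹ = χ) :
    ∃ (Lf Cf : ℂ → ℂ) (δ : ℕ), δ ≤ 1 ∧ Differentiable ℂ Lf ∧ Differentiable ℂ Cf ∧
      (∀ s, Cf (1 - s) = - Cf s) ∧ Lf (1 / 2) = 0 ∧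
      (∀ s : ℂ, |ν.re| < s.re → Cf s = (q : ℂ) ^ s * (Real.pi : ℂ) ^ (-s) *
        (Complex.Gamma ((s + δ + ν) / 2) * Complex.Gamma ((s + δ - ν) / 2)) * Lf s) ∧
      ∀ s : ℂ, 3 / 2 < s.re → |ν.re| < s.re →
        HasSum (fun n : ℕ => LSeries.term (fun n => χ n * cf lam n) s n) (Lf s) := by
  obtain ⟨δ, hh, hδ, hcont, hfe, hsum⟩ := h.exists_hh hp hχ
  obtain ⟨K, hK, hwK⟩ := h.wd_bound hδ
  obtain ⟨K', hK', hbK⟩ := h.bn_bound χ
  have hq0 : (0 : ℝ) < q := by exact_mod_cast Nat.pos_of_ne_zero hq.out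
  have hqc : (q : ℂ) ≠ 0 := by exact_mod_cast hq0.ne'
  have hb0 : bn χ lam 0 = 0 := by simp [bn]
  have hc : (0 : ℝ) < 1 / q := by positivity
  obtain ⟨C, hC⟩ := mm_decay hc hK hK' hwK hbK hb0 hsum
  obtain ⟨hdiff, hanti⟩ := mm_entire (κ := 1 / q / 4) (by positivity) hC hcont hfe
  have hzero : mellin hh 0 = 0 := by
    have := hanti 0
    rw [neg_zero] at this
    exact self_eq_neg.1 this
  have hpi : (Real.pi : ℂ) ≠ 0 := by exact_mod_cast Real.pi_ne_zero
  have h2pi : ((2 * Real.pi : ℝ) : ℂ) ≠ 0 := by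
    exact_mod_cast (show (2 * Real.pi) ≠ 0 by positivity)
  let Lf : ℂ → ℂ := fun s => mellin hh (s - 1 / 2) * (q : ℂ) ^ (-(s - 1 / 2)) *
    (2 * (Real.pi : ℂ) ^ (s + δ)) *
    ((Complex.Gamma ((s + δ + ν) / 2))⁻¹ * (Complex.Gamma ((s + δ - ν) / 2))⁻¹)
  let Cf : ℂ → ℂ := fun s => mellin hh (s - 1 / 2) * (2 * (Real.pi : ℂ) ^ δ * (q : ℂ) ^ (1 / 2 : ℂ))
  have hαβ : ∀ s : ℂ, |ν.re| < s.re → Complex.Gamma ((s + δ + ν) / 2) ≠ 0 ∧
      Complex.Gamma ((s + δ - ν) / 2) ≠ 0 := by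
    intro s hsν
    have hδ0 : (0 : ℝ) ≤ δ := Nat.cast_nonneg _
    rw [abs_lt] at hsν
    constructor
    · apply Complex.Gamma_ne_zero_of_re_pos
      simp only [Complex.add_re, Complex.natCast_re, Complex.div_ofNat_re]
      linarith
    · apply Complex.Gamma_ne_zero_of_re_pos
      simp only [Complex.add_re, Complex.sub_re, Complex.natCast_re, Complex.div_ofNat_re]
      linarith
  refine ⟨Lf, Cf, δ, hδ, ?_, ?_, ?_, ?_, ?_, ?_⟩
  · have hG : ∀ g : ℂ → ℂ, Differentiable ℂ g → Differentiable ℂ fun s => (Complex.Gamma (g s))⁻¹ :=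
      fun g hg => Complex.differentiable_one_div_Gamma.comp hg
    have d1 : Differentiable ℂ fun s : ℂ => mellin hh (s - 1 / 2) := hdiff.comp (by fun_prop)
    have d2 : Differentiable ℂ fun s : ℂ => (q : ℂ) ^ (-(s - 1 / 2)) :=
      Differentiable.const_cpow (by fun_prop) (Or.inl hqc)
    have d3 : Differentiable ℂ fun s : ℂ => 2 * (Real.pi : ℂ) ^ (s + δ) :=
      (Differentiable.const_cpow (by fun_prop) (Or.inl hpi)).const_mul 2
    have d5 := hG (fun s => (s + δ + ν) / 2) (by fun_prop)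
    have d6 := hG (fun s => (s + δ - ν) / 2) (by fun_prop)
    exact ((d1.mul d2).mul d3).mul (d5.mul d6)
  · have d1 : Differentiable ℂ fun s : ℂ => mellin hh (s - 1 / 2) := hdiff.comp (by fun_prop)
    exact d1.mul_const _
  · intro s
    simp only [Cf]
    have e1 : 1 - s - 1 / 2 = -(s - 1 / 2) := by ring
    rw [e1, hanti]
    ring
  · simp only [Lf]
    rw [sub_self, hzero]
    simp
  · intro s hs
    obtain ⟨hα, hβ⟩ := hαβ s hs
    simp only [Cf, Lf]
    have e1 : (q : ℂ) ^ s * (q : ℂ) ^ (-(s - 1 / 2)) = (q : ℂ) ^ (1 / 2 : ℂ) := by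
      rw [← Complex.cpow_add _ _ hqc]
      congr 1
      ring
    have e2 : (Real.pi : ℂ) ^ (-s) * (Real.pi : ℂ) ^ (s + δ) = (Real.pi : ℂ) ^ δ := by
      rw [← Complex.cpow_add _ _ hpi, neg_add_cancel_left, Complex.cpow_natCast]
    rw [← e1, ← e2]
    field_simp
  · intro s hs hsν
    have h1 := mm_sum hc hK hK' (wd_contOn ν δ) hwK hbK hb0 hsum (s := s - 1 / 2) (by
      simp only [Complex.sub_re, Complex.div_ofNat_re, Complex.one_re]
      linarith)
    have hsδ : |ν.re| < (s + δ).re := by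
      simp only [Complex.add_re, Complex.natCast_re]
      have : (0 : ℝ) ≤ δ := Nat.cast_nonneg _
      linarith
    rw [mellin_wd ν δ hsδ] at h1
    obtain ⟨hα, hβ⟩ := hαβ s hsν
    have h2 := h1.mul_right ((q : ℂ) ^ (-(s - 1 / 2)) * (2 * (Real.pi : ℂ) ^ (s + δ)) *
      ((Complex.Gamma ((s + δ + ν) / 2))⁻¹ * (Complex.Gamma ((s + δ - ν) / 2))⁻¹))
    have e0 : mellin hh (s - 1 / 2) * ((q : ℂ) ^ (-(s - 1 / 2)) * (2 * (Real.pi : ℂ) ^ (s + δ)) *
      ((Complex.Gamma ((s + δ + ν) / 2))⁻¹ * (Complex.Gamma ((s + δ - ν) / 2))⁻¹)) = Lf s := by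
      simp only [Lf]
      ring
    rw [e0] at h2
    refine hs_congr h2 fun n => ?_
    by_cases hn : n = 0
    · subst hn
      simp [hb0]
    · have hn' : (0 : ℝ) < n := by exact_mod_cast Nat.pos_of_ne_zero hn
      have hnc : (n : ℂ) ≠ 0 := by exact_mod_cast hn
      rw [LSeries.term_of_ne_zero hn]
      unfold bn
      rw [if_neg hn]
      have e1 : ((1 / q * n : ℝ) : ℂ) ^ (-(s - 1 / 2)) =
          ((1 / q : ℝ) : ℂ) ^ (-(s - 1 / 2)) * (n : ℂ) ^ (-(s - 1 / 2)) := by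
        rw [Complex.ofReal_mul, Complex.mul_cpow_ofReal_nonneg hc.le hn'.le]
        norm_cast
      have e2 : ((1 / q : ℝ) : ℂ) ^ (-(s - 1 / 2)) * (q : ℂ) ^ (-(s - 1 / 2)) = 1 := by
        have h3 : ((1 / q : ℝ) : ℂ) ^ (-(s - 1 / 2)) * ((q : ℝ) : ℂ) ^ (-(s - 1 / 2)) = 1 := by
          rw [← Complex.mul_cpow_ofReal_nonneg hc.le hq0.le, ← Complex.ofReal_mul,
            one_div_mul_cancel hq0.ne']
          simp
        exact_mod_cast h3
      have e3 : ((2 * Real.pi : ℝ) : ℂ) ^ (-(s + δ)) * 2 ^ (s + δ - 1) *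
          (2 * (Real.pi : ℂ) ^ (s + δ)) = 1 := by
        have h4 : ((2 * Real.pi : ℝ) : ℂ) ^ (-(s + δ)) =
            (2 : ℂ) ^ (-(s + δ)) * (Real.pi : ℂ) ^ (-(s + δ)) := by
          rw [Complex.ofReal_mul, Complex.mul_cpow_ofReal_nonneg (by norm_num) Real.pi_pos.le]
          norm_num
        rw [h4, Complex.cpow_sub _ _ two_ne_zero, Complex.cpow_one, Complex.cpow_neg,
          Complex.cpow_neg]
        have h5 : (2 : ℂ) ^ (s + δ) ≠ 0 := by
          rw [Complex.cpow_def_of_ne_zero two_ne_zero]; exact Complex.exp_ne_zero _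
        have h6 : (Real.pi : ℂ) ^ (s + δ) ≠ 0 := by
          rw [Complex.cpow_def_of_ne_zero hpi]; exact Complex.exp_ne_zero _
        field_simp
      have e5 : (n : ℂ) ^ (-(s - 1 / 2)) = (Real.sqrt n : ℂ) * ((n : ℂ) ^ s)⁻¹ := by
        have e6 : -(s - 1 / 2) = 1 / 2 + -s := by ring
        rw [e6, Complex.cpow_add _ _ hnc, Complex.cpow_neg, Real.sqrt_eq_rpow,
          Complex.ofReal_cpow hn'.le]
        push_cast
        rfl
      have hsn : (Real.sqrt n : ℂ) ≠ 0 := by exact_mod_cast (Real.sqrt_pos.2 hn').ne'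
      have hns : (n : ℂ) ^ s ≠ 0 := by
        rw [Complex.cpow_def_of_ne_zero hnc]
        exact Complex.exp_ne_zero _
      rw [e1, e5]
      generalize ((1 / q : ℝ) : ℂ) ^ (-(s - 1 / 2)) = a1 at *
      generalize (q : ℂ) ^ (-(s - 1 / 2)) = a2 at *
      generalize ((2 * Real.pi : ℝ) : ℂ) ^ (-(s + δ)) = a3 at *
      generalize (Real.pi : ℂ) ^ (s + δ) = a4 at *
      generalize (2 : ℂ) ^ (s + δ - 1) = a5 at *
      generalize Complex.Gamma ((s + δ + ν) / 2) = g1 at *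
      generalize Complex.Gamma ((s + δ - ν) / 2) = g2 at *
      have e7 : χ n * cf lam n / (Real.sqrt n : ℂ) * (a1 * ((Real.sqrt n : ℂ) * ((n : ℂ) ^ s)⁻¹)) *
          (a3 * a5 * (g1 * g2)) * (a2 * (2 * a4) * (g1⁻¹ * g2⁻¹)) =
          (χ n * cf lam n / (n : ℂ) ^ s) * (a1 * a2) * (a3 * a5 * (2 * a4)) := by
        field_simp
      rw [e7, e2, e3]
      ring

end

end Pool.Agent.K4H20.OM
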