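import Pool.Agent.K4H20.OM.J2

set_option autoImplicit false

/-! Euler product and the half-plane of absolute convergence. -/

namespace Pool.Agent.K4H20.OM

open UpperHalfPlane MeasureTheory Filter
open scoped MatrixGroups BoundedContinuousFunction Laplacian

noncomputable section

variable {f : ℍ → ℂ} {lam : ℕ → ℂ} {ν C₀ : ℂ}

theorem Uc_tsum (l x : ℂ) (h : Summable fun e : ℕ => Uc l e * x ^ e) :
    ∑' e : ℕ, Uc l e * x ^ e = (1 - l * x + x ^ 2)⁻¹ := by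
  set S := ∑' e : ℕ, Uc l e * x ^ e with hS
  have h1 : Summable fun e : ℕ => Uc l (e + 1) * x ^ (e + 1) := (summable_nat_add_iff 1).2 h
  have e1 : S = 1 + ∑' e : ℕ, Uc l (e + 1) * x ^ (e + 1) := by
    rw [hS, h.tsum_eq_zero_add]
    simp [Uc]
  have e2 : S = 1 + (l * x + ∑' e : ℕ, Uc l (e + 2) * x ^ (e + 2)) := by
    rw [e1, h1.tsum_eq_zero_add]
    simp [Uc]
  have e3 : ∀ e : ℕ, Uc l (e + 2) * x ^ (e + 2) =
      l * x * (Uc l (e + 1) * x ^ (e + 1)) - x ^ 2 * (Uc l e * x ^ e) := by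
    intro e
    change (l * Uc l (e + 1) - Uc l e) * x ^ (e + 2) = _
    ring
  simp_rw [e3] at e2
  rw [(h1.mul_left _).tsum_sub (h.mul_left _), tsum_mul_left, tsum_mul_left] at e2
  have e4 : ∑' e : ℕ, Uc l (e + 1) * x ^ (e + 1) = S - 1 := by rw [e1]; ring
  rw [e4, ← hS] at e2
  have e5 : S * (1 - l * x + x ^ 2) = 1 := by linear_combination e2
  exact eq_inv_of_mul_eq_one_left e5

theorem hp_congr {g₁ g₂ : Nat.Primes → ℂ} {a : ℂ} (hg : HasProd g₂ a) (h : ∀ n, g₁ n = g₂ n) :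
    HasProd g₁ a := by
  rw [funext h]
  exact hg

/-- the coefficients of the twisted series -/
def ac {q : ℕ} (χ : DirichletCharacter ℂ q) (lam : ℕ → ℂ) (n : ℕ) : ℂ := χ n * cf lam n

theorem OForm.ac_bound (h : OForm f lam ν C₀) {q : ℕ} (χ : DirichletCharacter ℂ q) :
    ∃ C : ℝ, ∀ n ≠ 0, ‖ac χ lam n‖ ≤ C * (n : ℝ) ^ (1 / 2 : ℝ) := by
  obtain ⟨K, hK, h1⟩ := h.cf_bound
  refine ⟨K, fun n hn => ?_⟩
  unfold ac
  rw [norm_mul, ← Real.sqrt_eq_rpow]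
  have h3 : ‖χ n‖ ≤ 1 := DirichletCharacter.norm_le_one χ _
  have h4 := norm_nonneg (cf lam n)
  have h5 := h1 n hn
  nlinarith

theorem OForm.summable_ac (h : OForm f lam ν C₀) {q : ℕ} (χ : DirichletCharacter ℂ q) {s : ℂ}
    (hs : 3 / 2 < s.re) : LSeriesSummable (ac χ lam) s := by
  obtain ⟨C, hC⟩ := h.ac_bound χ
  refine LSeriesSummable_of_le_const_mul_rpow (x := 3 / 2) hs ⟨C, fun n hn => ?_⟩
  have e : (3 / 2 : ℝ) - 1 = 1 / 2 := by norm_num
  rw [e]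
  exact hC n hn

theorem OForm.L_eq (h : OForm f lam ν C₀) {q : ℕ} (χ : DirichletCharacter ℂ q)
    {Lf : ℂ → ℂ} (hd : Differentiable ℂ Lf)
    (hL : ∀ s : ℂ, 3 / 2 < s.re → |ν.re| < s.re →
        HasSum (fun n : ℕ => LSeries.term (fun n => χ n * cf lam n) s n) (Lf s)) {s : ℂ}
    (hs : 3 / 2 < s.re) : Lf s = LSeries (ac χ lam) s := by
  set U : Set ℂ := {s | (3 / 2 : ℝ) < s.re} with hU
  have hUo : IsOpen U := isOpen_lt continuous_const Complex.continuous_re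
  have hUc : IsPreconnected U := (convex_halfSpace_re_gt _).isPreconnected
  have h1 : AnalyticOnNhd ℂ Lf U := fun z _ => hd.analyticAt z
  have h2 : AnalyticOnNhd ℂ (LSeries (ac χ lam)) U := by
    have h3 : LSeries.abscissaOfAbsConv (ac χ lam) ≤ ((1 / 2 : ℝ) : EReal) + 1 :=
      LSeries.abscissaOfAbsConv_le_of_le_const_mul_rpow (h.ac_bound χ)
    intro z hz
    apply (LSeries_analyticOnNhd (ac χ lam)) z
    refine lt_of_le_of_lt h3 ?_
    have h4 : ((1 / 2 : ℝ) : EReal) + 1 = ((3 / 2 : ℝ) : EReal) := by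
      rw [← EReal.coe_one, ← EReal.coe_add]
      norm_num
    rw [h4]
    exact_mod_cast hz
  let z₀ : ℂ := ((max (3 / 2) |ν.re| + 1 : ℝ) : ℂ)
  have hz₀ : z₀ ∈ U := by
    have := le_max_left (3 / 2 : ℝ) |ν.re|
    simp only [hU, Set.mem_ofPred_eq, z₀, Complex.ofReal_re]
    linarith
  have h3 : Lf =ᶠ[nhds z₀] LSeries (ac χ lam) := by
    have h4 : ∀ᶠ z : ℂ in nhds z₀, max (3 / 2) |ν.re| < z.re := by
      refine Complex.continuous_re.continuousAt.eventually_const_lt ?_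
      simp only [z₀, Complex.ofReal_re]
      linarith
    filter_upwards [h4] with z hz
    rw [max_lt_iff] at hz
    exact (hL z hz.1 hz.2).tsum_eq.symm
  exact h1.eqOn_of_preconnected_of_eventuallyEq h2 hUc hz₀ h3 hs

theorem OForm.euler (h : OForm f lam ν C₀) {q : ℕ} (χ : DirichletCharacter ℂ q) {s : ℂ}
    (hs : 3 / 2 < s.re) :
    HasProd (fun p : Nat.Primes => (1 - lam p * χ p * (p : ℂ) ^ (-s) +
      (χ p * (p : ℂ) ^ (-s)) ^ 2)⁻¹) (LSeries (ac χ lam) s) := by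
  have hsum := h.summable_ac χ hs
  have hterm : ∀ n : ℕ, n ≠ 0 → LSeries.term (ac χ lam) s n = ac χ lam n * (n : ℂ) ^ (-s) := by
    intro n hn
    rw [LSeries.term_of_ne_zero hn, Complex.cpow_neg]
    rfl
  have hmul : ∀ {m n : ℕ}, Nat.Coprime m n → LSeries.term (ac χ lam) s (m * n) =
      LSeries.term (ac χ lam) s m * LSeries.term (ac χ lam) s n := by
    intro m n hmn
    by_cases hm : m = 0
    · subst hm; simp
    by_cases hn : n = 0
    · subst hn; simp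
    rw [hterm _ (mul_ne_zero hm hn), hterm _ hm, hterm _ hn]
    unfold ac
    have e1 : ((m * n : ℕ) : ZMod q) = (m : ZMod q) * (n : ZMod q) := Nat.cast_mul m n
    have e2 : ((m * n : ℕ) : ℂ) = (m : ℂ) * (n : ℂ) := Nat.cast_mul m n
    rw [cf_mul lam hmn, e1, map_mul, e2, Complex.natCast_mul_natCast_cpow]
    ring
  have h1 := EulerProduct.eulerProduct_hasProd (f := LSeries.term (ac χ lam) s) (by
    rw [hterm 1 one_ne_zero]
    unfold ac
    simp [cf_one]) hmul hsum.norm (LSeries.term_zero _ _)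
  refine hp_congr h1 fun p => ?_
  have hp := p.2
  have hpn : (p : ℕ) ≠ 0 := hp.ne_zero
  have h2 : ∀ e : ℕ, LSeries.term (ac χ lam) s ((p : ℕ) ^ e) =
      Uc (lam p) e * (χ p * (p : ℂ) ^ (-s)) ^ e := by
    intro e
    rw [hterm _ (pow_ne_zero e hpn)]
    unfold ac
    have e1 : (((p : ℕ) ^ e : ℕ) : ZMod q) = ((p : ℕ) : ZMod q) ^ e := Nat.cast_pow _ e
    have e2 : (((p : ℕ) ^ e : ℕ) : ℂ) = ((p : ℕ) : ℂ) ^ e := Nat.cast_pow _ e
    rw [cf_pow lam hp, e1, map_pow, mul_pow, e2, ← Complex.natCast_cpow_natCast_mul,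
      mul_comm (e : ℂ) (-s), Complex.cpow_mul_nat]
    ring
  have h3 : Summable fun e : ℕ => Uc (lam p) e * (χ p * (p : ℂ) ^ (-s)) ^ e := by
    simp_rw [← h2]
    exact hsum.comp_injective (Nat.pow_right_injective hp.two_le)
  simp_rw [h2]
  rw [Uc_tsum _ _ h3]
  congr 2
  ring

/-- **Summary** for one primitive quadratic character. -/
theorem OForm.main (h : OForm f lam ν C₀) {q : ℕ} [hq : NeZero q]
    {χ : DirichletCharacter ℂ q} (hp : χ.IsPrimitive) (hχ : χ⁻¹ = χ) :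
    ∃ (Lf Cf : ℂ → ℂ) (δ : ℕ), δ ≤ 1 ∧ Differentiable ℂ Lf ∧ Differentiable ℂ Cf ∧
      (∀ s, Cf (1 - s) = - Cf s) ∧ Lf (1 / 2) = 0 ∧
      (∀ s : ℂ, |ν.re| < s.re → Cf s = (q : ℂ) ^ s * (Real.pi : ℂ) ^ (-s) *
        (Complex.Gamma ((s + δ + ν) / 2) * Complex.Gamma ((s + δ - ν) / 2)) * Lf s) ∧
      ∀ s : ℂ, 3 / 2 < s.re →
        HasProd (fun p : Nat.Primes => (1 - lam p * χ p * (p : ℂ) ^ (-s) +
          (χ p * (p : ℂ) ^ (-s)) ^ 2)⁻¹) (Lf s) := by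
  obtain ⟨Lf, Cf, δ, h1, h2, h3, h4, h5, h6, h7⟩ := h.exists_L hp hχ
  refine ⟨Lf, Cf, δ, h1, h2, h3, h4, h5, h6, fun s hs => ?_⟩
  rw [h.L_eq χ h2 h7 hs]
  exact h.euler χ hs

end

end Pool.Agent.K4H20.OM
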